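import Mathlib

set_option autoImplicit false

namespace Pool.Agent.KS6_38.Adm
open Finset

/-- truncated inclusion-exclusion -/
noncomputable def B (a : ℕ → ℝ) : List ℕ → ℕ → ℝ
  | [], _ => 1
  | _ :: _, 0 => 1
  | p :: l, m + 1 => B a l (m + 1) - a p * B a l m

lemma B_zero (a : ℕ → ℝ) (l : List ℕ) : B a l 0 = 1 := by cases l <;> rfl

lemma prod_mem (a : ℕ → ℝ) (h0 : ∀ p, 0 ≤ a p) (h1 : ∀ p, a p ≤ 1) (l : List ℕ) :
    0 ≤ (l.map fun p => 1 - a p).prod ∧ (l.map fun p => 1 - a p).prod ≤ 1 := by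
  induction l with
  | nil => simp
  | cons p l ih =>
    simp only [List.map_cons, List.prod_cons]
    have := h0 p; have := h1 p
    constructor
    · exact mul_nonneg (by linarith) ih.1
    · nlinarith [ih.1, ih.2]

lemma B_sign (a : ℕ → ℝ) (h0 : ∀ p, 0 ≤ a p) (h1 : ∀ p, a p ≤ 1) (l : List ℕ) :
    ∀ m : ℕ, 0 ≤ (-1 : ℝ) ^ m * (B a l m - (l.map fun p => 1 - a p).prod) := by
  induction l with
  | nil => intro m; simp [B]
  | cons p l ih =>
    intro m
    cases m with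
    | zero => have := (prod_mem a h0 h1 (p :: l)).2; simp only [B, pow_zero, one_mul]; linarith
    | succ m =>
      simp only [B, List.map_cons, List.prod_cons]
      have e1 := ih (m + 1)
      have e2 := mul_nonneg (h0 p) (ih m)
      rw [pow_succ] at e1 ⊢
      nlinarith

lemma B_tail (a : ℕ → ℝ) (h0 : ∀ p, 0 ≤ a p) (h1 : ∀ p, a p ≤ 1) (l : List ℕ) :
    ∀ m : ℕ, |B a l m - (l.map fun p => 1 - a p).prod| ≤
      (1 / 2) ^ (m + 1) * (l.map fun p => 1 + 2 * a p).prod := by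
  induction l with
  | nil => intro m; simp [B]
  | cons p l ih =>
    intro m
    have hP : 1 ≤ (l.map fun p => 1 + 2 * a p).prod := by
      clear ih
      induction l with
      | nil => simp
      | cons q l ih =>
        simp only [List.map_cons, List.prod_cons]
        have := h0 q; nlinarith
    have hp := h0 p
    obtain ⟨q0, q1⟩ := prod_mem a h0 h1 l
    cases m with
    | zero =>
      have e := ih 0
      rw [B_zero] at e ⊢
      simp only [List.map_cons, List.prod_cons]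
      have e' := (abs_le.1 e).2
      rw [abs_le]
      have := h1 p
      constructor <;> nlinarith
    | succ m =>
      simp only [B, List.map_cons, List.prod_cons]
      have e1 := ih (m + 1)
      have e2 := ih m
      have : B a l (m + 1) - a p * B a l m - (1 - a p) * (l.map fun p => 1 - a p).prod =
          (B a l (m + 1) - (l.map fun p => 1 - a p).prod) -
            a p * (B a l m - (l.map fun p => 1 - a p).prod) := by ring
      rw [this]
      refine (abs_sub _ _).trans ?_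
      rw [abs_mul, abs_of_nonneg hp]
      have e3 := mul_le_mul_of_nonneg_left e2 hp
      calc _ ≤ (1 / 2) ^ (m + 1 + 1) * (l.map fun p => 1 + 2 * a p).prod +
            a p * ((1 / 2) ^ (m + 1) * (l.map fun p => 1 + 2 * a p).prod) := add_le_add e1 e3
        _ = _ := by ring

lemma B_err (Ω P : Finset ℕ) (a : ℕ → ℕ → ℝ) (ρ : ℕ → ℝ) (V E : ℝ) (K : ℕ)
    (h : ∀ D ⊆ P, D.card ≤ K → |∑ y ∈ Ω, ∏ p ∈ D, a y p - V * ∏ p ∈ D, ρ p| ≤ E)
    (l : List ℕ) : l.Nodup → (∀ p ∈ l, p ∈ P) → ∀ (m : ℕ) (D : Finset ℕ), D ⊆ P →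
      (∀ p ∈ l, p ∉ D) → D.card + m ≤ K →
      |∑ y ∈ Ω, (∏ p ∈ D, a y p) * B (a y) l m - V * ((∏ p ∈ D, ρ p) * B ρ l m)| ≤
        E * ((l.length : ℝ) + 1) ^ m := by
  have hE : 0 ≤ E := (abs_nonneg _).trans (h ∅ (empty_subset _) (by simp))
  induction l with
  | nil =>
    intro _ _ m D hD _ hK
    simpa [B] using h D hD (by omega)
  | cons p l ih =>
    intro hn hl m D hD hd hK
    cases m with
    | zero => simpa [B] using h D hD (by omega)
    | succ m =>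
      have hn' := (List.nodup_cons.1 hn)
      have hpD : p ∉ D := hd p (by simp)
      have e1 := ih hn'.2 (fun q hq => hl q (by simp [hq])) (m + 1) D hD
        (fun q hq => hd q (by simp [hq])) hK
      have e2 := ih hn'.2 (fun q hq => hl q (by simp [hq])) m (insert p D)
        (insert_subset (hl p (by simp)) hD)
        (fun q hq => by
          rw [mem_insert, not_or]
          exact ⟨fun h => hn'.1 (h ▸ hq), hd q (by simp [hq])⟩)
        (by rw [card_insert_of_notMem hpD]; omega)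
      simp only [prod_insert hpD] at e2
      simp only [B]
      have : ∑ y ∈ Ω, (∏ p ∈ D, a y p) * (B (a y) l (m + 1) - a y p * B (a y) l m) -
          V * ((∏ p ∈ D, ρ p) * (B ρ l (m + 1) - ρ p * B ρ l m)) =
          (∑ y ∈ Ω, (∏ p ∈ D, a y p) * B (a y) l (m + 1) - V * ((∏ p ∈ D, ρ p) * B ρ l (m + 1))) -
          (∑ y ∈ Ω, (a y p * ∏ p ∈ D, a y p) * B (a y) l m -
            V * ((ρ p * ∏ p ∈ D, ρ p) * B ρ l m)) := by
        have : ∑ y ∈ Ω, (∏ p ∈ D, a y p) * (B (a y) l (m + 1) - a y p * B (a y) l m) =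
            ∑ y ∈ Ω, (∏ p ∈ D, a y p) * B (a y) l (m + 1) -
              ∑ y ∈ Ω, (a y p * ∏ p ∈ D, a y p) * B (a y) l m := by
          rw [← sum_sub_distrib]; exact sum_congr rfl fun y _ => by ring
        rw [this]; ring
      rw [this]
      refine (abs_sub _ _).trans ((add_le_add e1 e2).trans ?_)
      rw [← mul_add]
      apply mul_le_mul_of_nonneg_left _ hE
      simp only [List.length_cons, Nat.cast_add, Nat.cast_one]
      have h1 : ((l.length : ℝ) + 1) ^ m ≤ ((l.length : ℝ) + 1 + 1) ^ m :=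
        pow_le_pow_left₀ (by positivity) (by linarith) m
      have h2 : (0 : ℝ) ≤ l.length := Nat.cast_nonneg _
      rw [pow_succ, pow_succ]
      nlinarith

/-- Brun's pure sieve, abstract form -/
lemma brun (Ω P : Finset ℕ) (a : ℕ → ℕ → ℝ) (ρ : ℕ → ℝ) (V E : ℝ) (k : ℕ) (hV : 0 ≤ V)
    (a0 : ∀ y p, 0 ≤ a y p) (a1 : ∀ y p, a y p ≤ 1) (r0 : ∀ p, 0 ≤ ρ p) (r1 : ∀ p, ρ p ≤ 1)
    (h : ∀ D ⊆ P, D.card ≤ 2 * k → |∑ y ∈ Ω, ∏ p ∈ D, a y p - V * ∏ p ∈ D, ρ p| ≤ E) :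
    ∑ y ∈ Ω, ∏ p ∈ P, (1 - a y p) ≤
      V * (∏ p ∈ P, (1 - ρ p) + (1 / 2) ^ (2 * k + 1) * Real.exp (∑ p ∈ P, 2 * ρ p)) +
        E * ((P.card : ℝ) + 1) ^ (2 * k) := by
  have e1 := B_err Ω P a ρ V E (2 * k) h P.toList P.nodup_toList (fun p hp => mem_toList.1 hp)
    (2 * k) ∅ (empty_subset _) (by simp) (by simp)
  simp only [prod_empty, one_mul, length_toList] at e1
  have e2 : ∑ y ∈ Ω, ∏ p ∈ P, (1 - a y p) ≤ ∑ y ∈ Ω, B (a y) P.toList (2 * k) := by
    apply sum_le_sum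
    intro y _
    have := B_sign (a y) (a0 y) (a1 y) P.toList (2 * k)
    rw [prod_map_toList, pow_mul] at this
    norm_num at this
    exact this
  have e3 := B_tail ρ r0 r1 P.toList (2 * k)
  rw [prod_map_toList, prod_map_toList] at e3
  have e4 : ∏ p ∈ P, (1 + 2 * ρ p) ≤ Real.exp (∑ p ∈ P, 2 * ρ p) :=
    Real.prod_one_add_le_exp_sum P (fun p => by have := r0 p; positivity)
  have e5 : B ρ P.toList (2 * k) ≤
      ∏ p ∈ P, (1 - ρ p) + (1 / 2) ^ (2 * k + 1) * Real.exp (∑ p ∈ P, 2 * ρ p) := by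
    have := (abs_le.1 e3).2
    have h2 := mul_le_mul_of_nonneg_left e4 (by positivity : (0 : ℝ) ≤ (1 / 2) ^ (2 * k + 1))
    linarith
  have e6 := mul_le_mul_of_nonneg_left e5 hV
  have := (abs_le.1 e1).2
  linarith

lemma sum_period (f : ℕ → ℝ) (d : ℕ) (hf : Function.Periodic f d) (Y : ℕ) :
    ∑ y ∈ Ico Y (Y + d), f y = ∑ y ∈ range d, f y := by
  induction Y with
  | zero => simp
  | succ Y ih =>
    rw [← ih]
    have h1 := sum_Ico_succ_top (Nat.le_add_right Y d) f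
    have h2 := sum_eq_sum_Ico_succ_bot (show Y < Y + d + 1 by omega) f
    rw [show Y + 1 + d = Y + d + 1 by ring]
    have h3 := hf Y
    linarith

lemma sum_periods (f : ℕ → ℝ) (d : ℕ) (hf : Function.Periodic f d) (Y q : ℕ) :
    ∑ y ∈ Ico Y (Y + q * d), f y = q * ∑ y ∈ range d, f y := by
  induction q with
  | zero => simp
  | succ q ih =>
    rw [← sum_Ico_consecutive f (Nat.le_add_right Y (q * d)) (show Y + q * d ≤ Y + (q + 1) * d by
      nlinarith), ih, show Y + (q + 1) * d = Y + q * d + d by ring, sum_period f d hf]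
    push_cast; ring

lemma sum_interval (f : ℕ → ℝ) (d : ℕ) (hd : 0 < d) (hf : Function.Periodic f d)
    (f0 : ∀ y, 0 ≤ f y) (f1 : ∀ y, f y ≤ 1) (Y H : ℕ) :
    |∑ y ∈ Ico Y (Y + H), f y - H * ((∑ y ∈ range d, f y) / d)| ≤ d := by
  have hH : H = H / d * d + H % d := (Nat.div_add_mod' H d).symm
  set q := H / d
  set r := H % d
  have hr : r < d := Nat.mod_lt _ hd
  have e1 : ∑ y ∈ Ico Y (Y + H), f y =
      q * ∑ y ∈ range d, f y + ∑ y ∈ Ico (Y + q * d) (Y + H), f y := by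
    rw [← sum_periods f d hf Y q, sum_Ico_consecutive f (Nat.le_add_right _ _) (by omega)]
  have e2 : 0 ≤ ∑ y ∈ Ico (Y + q * d) (Y + H), f y := sum_nonneg fun y _ => f0 y
  have e3 : ∑ y ∈ Ico (Y + q * d) (Y + H), f y ≤ r := by
    refine (sum_le_card_nsmul _ _ 1 fun y _ => f1 y).trans ?_
    rw [Nat.card_Ico, show Y + H - (Y + q * d) = r by omega]; simp
  have e4 : 0 ≤ ∑ y ∈ range d, f y := sum_nonneg fun y _ => f0 y
  have e5 : ∑ y ∈ range d, f y ≤ d := by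
    refine (sum_le_card_nsmul _ _ 1 fun y _ => f1 y).trans ?_
    simp
  have hd' : (0 : ℝ) < d := by exact_mod_cast hd
  have hr' : (r : ℝ) ≤ d := by exact_mod_cast hr.le
  have hH' : (H : ℝ) = q * d + r := by exact_mod_cast hH
  set s := (∑ y ∈ range d, f y) / d with hs
  have s0 : 0 ≤ s := div_nonneg e4 hd'.le
  have s1 : s ≤ 1 := (div_le_one hd').2 e5
  have s2 : ∑ y ∈ range d, f y = s * d := by rw [hs]; field_simp
  have r0 : (0 : ℝ) ≤ r := Nat.cast_nonneg _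
  rw [e1, s2, hH', abs_le]
  constructor <;> nlinarith

lemma sum_crt (f g : ℕ → ℝ) (m n : ℕ) (hm : 0 < m) (hn : 0 < n) (co : m.Coprime n)
    (hf : Function.Periodic f m) (hg : Function.Periodic g n) :
    ∑ y ∈ range (m * n), f y * g y = (∑ y ∈ range m, f y) * ∑ y ∈ range n, g y := by
  rw [sum_mul_sum, ← sum_product']
  apply sum_nbij' (fun r => (r % m, r % n)) (fun ij => (Nat.chineseRemainder co ij.1 ij.2 : ℕ))
  · intro r _
    simp [Nat.mod_lt _ hm, Nat.mod_lt _ hn]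
  · intro ij _
    simp only [mem_range]
    exact Nat.chineseRemainder_lt_mul co _ _ hm.ne' hn.ne'
  · intro r hr
    simp only [mem_range] at hr
    have h1 := (Nat.chineseRemainder co (r % m) (r % n)).2
    have h2 : (Nat.chineseRemainder co (r % m) (r % n) : ℕ) ≡ r [MOD m * n] :=
      (Nat.modEq_and_modEq_iff_modEq_mul co).1
        ⟨h1.1.trans (Nat.mod_modEq r m), h1.2.trans (Nat.mod_modEq r n)⟩
    exact Nat.ModEq.eq_of_lt_of_lt h2 (Nat.chineseRemainder_lt_mul co _ _ hm.ne' hn.ne') hr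
  · intro ij hij
    simp only [mem_product, mem_range] at hij
    have h1 := (Nat.chineseRemainder co ij.1 ij.2).2
    ext
    · exact Eq.trans h1.1 (Nat.mod_eq_of_lt hij.1)
    · exact Eq.trans h1.2 (Nat.mod_eq_of_lt hij.2)
  · intro r _
    rw [hf.map_mod_nat, hg.map_mod_nat]

lemma sum_crt_prod (a : ℕ → ℕ → ℝ) (D : Finset ℕ) (hD : ∀ p ∈ D, p.Prime)
    (ha : ∀ p ∈ D, Function.Periodic (fun y => a y p) p) :
    Function.Periodic (fun y => ∏ p ∈ D, a y p) (∏ p ∈ D, p) ∧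
    ∑ y ∈ range (∏ p ∈ D, p), ∏ p ∈ D, a y p = ∏ p ∈ D, ∑ y ∈ range p, a y p := by
  induction D using Finset.induction_on with
  | empty => simp [Function.Periodic]
  | insert q D hq ih =>
    obtain ⟨i1, i2⟩ := ih (fun p hp => hD p (mem_insert_of_mem hp))
      (fun p hp => ha p (mem_insert_of_mem hp))
    have hqp := hD q (mem_insert_self _ _)
    have hpos : 0 < ∏ p ∈ D, p := prod_pos fun p hp => (hD p (mem_insert_of_mem hp)).pos
    have co : q.Coprime (∏ p ∈ D, p) := by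
      apply Nat.Coprime.prod_right
      intro p hp
      exact (Nat.coprime_primes hqp (hD p (mem_insert_of_mem hp))).2 (fun h => hq (h ▸ hp))
    simp only [prod_insert hq]
    have aq := ha q (mem_insert_self _ _)
    constructor
    · intro y
      have h1 := (aq.nat_mul (∏ p ∈ D, p)) y
      have h2 := (i1.nat_mul q) y
      simp only [Nat.cast_id] at h1 h2
      simp only
      rw [h2, mul_comm q, h1]
    · rw [sum_crt (fun y => a y q) (fun y => ∏ p ∈ D, a y p) q _ hqp.pos hpos co aq i1, i2]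

lemma exp_le_one_sub (u : ℝ) (h0 : 0 ≤ u) (h1 : u ≤ 1 / 2) : Real.exp (-(2 * u)) ≤ 1 - u := by
  have h2 : 2 * u + 1 ≤ Real.exp (2 * u) := Real.add_one_le_exp _
  rw [Real.exp_neg, inv_le_iff_one_le_mul₀ (Real.exp_pos _)]
  nlinarith

/-- one dimensional sieve bound -/
lemma sieve1 (P : Finset ℕ) (μ y0 : ℕ) (hP : ∀ p ∈ P, p.Prime ∧ 4 ≤ p ∧ p ≤ 2 ^ y0)
    (hμ : ∑ p ∈ P, (1 : ℝ) / p ≤ μ) (a : ℕ → ℕ → ℝ)
    (a0 : ∀ y p, 0 ≤ a y p) (a1 : ∀ y p, a y p ≤ 1)
    (ha : ∀ p ∈ P, Function.Periodic (fun y => a y p) p)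
    (h2 : ∀ p ∈ P, ∑ y ∈ range p, a y p ≤ 2) (Y H : ℕ) (hH : 2 ^ ((y0 + 1) * (36 * μ + 1)) ≤ H) :
    ∑ y ∈ Ico Y (Y + H), ∏ p ∈ P, (1 - a y p) ≤
      2 * H * ∏ p ∈ P, (1 - (∑ y ∈ range p, a y p) / p) := by
  set ρ : ℕ → ℝ := fun p => (∑ y ∈ range p, a y p) / p with hρ
  have r0 : ∀ p, 0 ≤ ρ p := fun p => div_nonneg (sum_nonneg fun y _ => a0 y p) (Nat.cast_nonneg _)
  have r1 : ∀ p, ρ p ≤ 1 := fun p => by
    apply div_le_one_of_le₀ _ (Nat.cast_nonneg _)
    refine (sum_le_card_nsmul _ _ 1 fun y _ => a1 y p).trans ?_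
    simp
  have r2 : ∀ p ∈ P, ρ p ≤ 2 * (1 / p) := fun p hp => by
    have : (0 : ℝ) < p := by exact_mod_cast (hP p hp).1.pos
    rw [hρ, mul_one_div]; exact div_le_div_of_nonneg_right (h2 p hp) this.le
  have r3 : ∀ p ∈ P, ρ p ≤ 1 / 2 := fun p hp => by
    have h4 : (4 : ℝ) ≤ p := by exact_mod_cast (hP p hp).2.1
    have : (1 : ℝ) / p ≤ 1 / 4 := one_div_le_one_div_of_le (by norm_num) h4
    linarith [r2 p hp]
  have hS : ∑ p ∈ P, 2 * ρ p ≤ 4 * μ := by
    calc ∑ p ∈ P, 2 * ρ p ≤ ∑ p ∈ P, 4 * ((1 : ℝ) / p) :=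
          sum_le_sum fun p hp => by linarith [r2 p hp]
      _ = 4 * ∑ p ∈ P, (1 : ℝ) / p := by rw [mul_sum]
      _ ≤ 4 * μ := by linarith
  have hb := brun (Ico Y (Y + H)) P a ρ H ((2 : ℝ) ^ (y0 * (12 * μ))) (6 * μ) (Nat.cast_nonneg _)
    a0 a1 r0 r1 (by
      intro D hD hc
      obtain ⟨c1, c2⟩ := sum_crt_prod a D (fun p hp => (hP p (hD hp)).1) (fun p hp => ha p (hD hp))
      have hpos : 0 < ∏ p ∈ D, p := prod_pos fun p hp => (hP p (hD hp)).1.pos
      have c3 := sum_interval (fun y => ∏ p ∈ D, a y p) _ hpos c1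
        (fun y => prod_nonneg fun p _ => a0 y p)
        (fun y => prod_le_one (fun p _ => a0 y p) fun p _ => a1 y p) Y H
      rw [c2] at c3
      have c4 : ∏ p ∈ D, ρ p = (∏ p ∈ D, ∑ y ∈ range p, a y p) / ((∏ p ∈ D, p : ℕ) : ℝ) := by
        rw [hρ, prod_div_distrib]; push_cast; rfl
      rw [c4]
      refine c3.trans ?_
      have c5 : ∏ p ∈ D, p ≤ (2 ^ y0) ^ D.card :=
        prod_le_pow_card _ _ _ fun p hp => (hP p (hD hp)).2.2
      have c6 : (2 ^ y0) ^ D.card ≤ 2 ^ (y0 * (12 * μ)) := by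
        rw [← pow_mul]
        exact Nat.pow_le_pow_right (by norm_num) (Nat.mul_le_mul_left _ (by omega))
      exact_mod_cast c5.trans c6)
  have hlow : Real.exp (-(4 * μ)) ≤ ∏ p ∈ P, (1 - ρ p) := by
    calc Real.exp (-(4 * μ)) ≤ Real.exp (∑ p ∈ P, -(2 * ρ p)) := by
          rw [sum_neg_distrib]; exact Real.exp_le_exp.2 (by linarith)
      _ = ∏ p ∈ P, Real.exp (-(2 * ρ p)) := Real.exp_sum _ _
      _ ≤ _ := prod_le_prod (fun p _ => (Real.exp_pos _).le)
          fun p hp => exp_le_one_sub _ (r0 p) (r3 p hp)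
  have he : Real.exp (4 * μ) ≤ 2 ^ (6 * μ) := by
    have h1 : Real.exp 4 ≤ 64 := by
      have h := Real.exp_one_lt_d9
      have : Real.exp 4 = Real.exp 1 ^ 4 := by rw [← Real.exp_nat_mul]; norm_num
      rw [this]
      calc Real.exp 1 ^ 4 ≤ 2.7182818286 ^ 4 := pow_le_pow_left₀ (Real.exp_pos _).le h.le 4
        _ ≤ 64 := by norm_num
    calc Real.exp (4 * μ) = Real.exp 4 ^ μ := by rw [← Real.exp_nat_mul]; ring_nf
      _ ≤ 64 ^ μ := pow_le_pow_left₀ (Real.exp_pos _).le h1 μ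
      _ = 2 ^ (6 * μ) := by rw [pow_mul]; norm_num
  have hlow2 : (1 / 2 : ℝ) ^ (6 * μ) ≤ ∏ p ∈ P, (1 - ρ p) := by
    refine le_trans ?_ hlow
    rw [Real.exp_neg, one_div, inv_pow]
    exact inv_anti₀ (Real.exp_pos _) he
  have t1 : (1 / 2 : ℝ) ^ (2 * (6 * μ) + 1) * Real.exp (∑ p ∈ P, 2 * ρ p) ≤
      1 / 2 * (1 / 2) ^ (6 * μ) := by
    have h1 : Real.exp (∑ p ∈ P, 2 * ρ p) ≤ 2 ^ (6 * μ) := (Real.exp_le_exp.2 hS).trans he
    calc _ ≤ (1 / 2 : ℝ) ^ (2 * (6 * μ) + 1) * 2 ^ (6 * μ) :=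
          mul_le_mul_of_nonneg_left h1 (by positivity)
      _ = 1 / 2 * (1 / 2) ^ (6 * μ) * ((1 / 2) ^ (6 * μ) * 2 ^ (6 * μ)) := by ring
      _ = _ := by rw [← mul_pow]; norm_num
  have hcard : (P.card : ℝ) + 1 ≤ 2 ^ (y0 + 1) := by
    have h1 : P.card ≤ 2 ^ y0 := by
      have : P ⊆ Ioc 0 (2 ^ y0) := fun p hp => mem_Ioc.2 ⟨(hP p hp).1.pos, (hP p hp).2.2⟩
      simpa using card_le_card this
    have h2 : 1 ≤ 2 ^ y0 := Nat.one_le_two_pow
    have h3 : P.card + 1 ≤ 2 ^ (y0 + 1) := by rw [pow_succ]; omega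
    exact_mod_cast h3
  have t2 : (2 : ℝ) ^ (y0 * (12 * μ)) * ((P.card : ℝ) + 1) ^ (2 * (6 * μ)) ≤
      H * (1 / 2 * (1 / 2) ^ (6 * μ)) := by
    have h1 : ((P.card : ℝ) + 1) ^ (2 * (6 * μ)) ≤ (2 ^ (y0 + 1)) ^ (2 * (6 * μ)) :=
      pow_le_pow_left₀ (by positivity) hcard _
    have h3 : (2 : ℝ) ^ ((y0 + 1) * (36 * μ + 1)) ≤ H := by exact_mod_cast hH
    have h4 : (2 : ℝ) ^ (y0 * (12 * μ) + (y0 + 1) * (2 * (6 * μ)) + (6 * μ + 1)) ≤
        2 ^ ((y0 + 1) * (36 * μ + 1)) := pow_le_pow_right₀ (by norm_num) (by nlinarith)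
    have h5 : (2 : ℝ) ^ (6 * μ + 1) * (1 / 2 * (1 / 2) ^ (6 * μ)) = 1 := by
      rw [pow_succ, show (2 : ℝ) ^ (6 * μ) * 2 * (1 / 2 * (1 / 2) ^ (6 * μ)) =
        (2 * (1 / 2)) ^ (6 * μ) by rw [mul_pow]; ring]
      norm_num
    calc _ ≤ (2 : ℝ) ^ (y0 * (12 * μ)) * (2 ^ (y0 + 1)) ^ (2 * (6 * μ)) :=
          mul_le_mul_of_nonneg_left h1 (by positivity)
      _ = (2 : ℝ) ^ (y0 * (12 * μ) + (y0 + 1) * (2 * (6 * μ)) + (6 * μ + 1)) *
            (1 / 2 * (1 / 2) ^ (6 * μ)) := by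
          rw [pow_add _ _ (6 * μ + 1), mul_assoc, h5, ← pow_mul, ← pow_add, mul_one]
      _ ≤ _ := mul_le_mul_of_nonneg_right (h4.trans h3) (by positivity)
  have hH0 : (0 : ℝ) ≤ H := Nat.cast_nonneg _
  have t3 := mul_le_mul_of_nonneg_left t1 hH0
  have t4 := mul_le_mul_of_nonneg_left hlow2 hH0
  nlinarith

lemma sum_range_dvd (p : ℕ) (hp : 0 < p) (c : ℝ) (x : ℕ) :
    ∑ y ∈ range p, (if p ∣ x + y then c else 0) = c := by
  have hper : Function.Periodic (fun y => if p ∣ y then c else 0) p := by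
    intro y; simp
  have h1 := sum_period _ p hper x
  rw [sum_Ico_eq_sum_range, Nat.add_sub_cancel_left] at h1
  rw [h1, sum_eq_single 0]
  · simp
  · intro b hb hb0
    rw [if_neg]
    intro h
    exact absurd (Nat.le_of_dvd (Nat.pos_of_ne_zero hb0) h) (not_le.2 (mem_range.1 hb))
  · intro h; exact absurd (mem_range.2 hp) h

/-- sieve bound for a weight depending on divisibility only -/
lemma sieve2 (P : Finset ℕ) (μ y0 : ℕ) (hP : ∀ p ∈ P, p.Prime ∧ 4 ≤ p ∧ p ≤ 2 ^ y0)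
    (hμ : ∑ p ∈ P, (1 : ℝ) / p ≤ μ) (u g : ℕ → ℝ) (u0 : ∀ p ∈ P, 0 ≤ u p)
    (ug : ∀ p ∈ P, u p ≤ g p) (g0 : ∀ p ∈ P, 0 < g p)
    (Y H : ℕ) (hH : 2 ^ ((y0 + 1) * (36 * μ + 1)) ≤ H) :
    ∑ y ∈ Ico Y (Y + H), ∏ p ∈ P, (if p ∣ y then u p else g p) ≤
      2 * H * ∏ p ∈ P, (g p - (g p - u p) / p) := by
  classical
  have key := sieve1 P μ y0 hP hμ
    (fun y p => if p ∈ P ∧ p ∣ y then 1 - u p / g p else 0)
    (fun y p => by
      split_ifs with h
      · have := (div_le_one (g0 p h.1)).2 (ug p h.1); linarith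
      · exact le_rfl)
    (fun y p => by
      split_ifs with h
      · have := div_nonneg (u0 p h.1) (g0 p h.1).le; linarith
      · norm_num)
    (fun p _ y => by simp)
    (fun p hp => by
      have := sum_range_dvd p (hP p hp).1.pos (1 - u p / g p) 0
      simp only [zero_add] at this
      simp only [hp, true_and, this]
      have := div_nonneg (u0 p hp) (g0 p hp).le; linarith) Y H hH
  have e1 : ∀ y, ∏ p ∈ P, (if p ∣ y then u p else g p) =
      (∏ p ∈ P, g p) * ∏ p ∈ P, (1 - if p ∈ P ∧ p ∣ y then 1 - u p / g p else 0) := by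
    intro y
    rw [← prod_mul_distrib]
    apply prod_congr rfl
    intro p hp
    have := (g0 p hp).ne'
    simp only [hp, true_and]
    split_ifs
    · field_simp; ring
    · ring
  have e2 : ∏ p ∈ P, (g p - (g p - u p) / p) = (∏ p ∈ P, g p) *
      ∏ p ∈ P, (1 - (∑ y ∈ range p, if p ∈ P ∧ p ∣ y then 1 - u p / g p else 0) / p) := by
    rw [← prod_mul_distrib]
    apply prod_congr rfl
    intro p hp
    have := sum_range_dvd p (hP p hp).1.pos (1 - u p / g p) 0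
    simp only [zero_add] at this
    simp only [hp, true_and, this]
    have := (g0 p hp).ne'
    field_simp
  simp only [e1]
  rw [← mul_sum, e2]
  have hg : 0 ≤ ∏ p ∈ P, g p := prod_nonneg fun p hp => (g0 p hp).le
  calc _ ≤ (∏ p ∈ P, g p) * _ := mul_le_mul_of_nonneg_left key hg
    _ = _ := by ring

end Pool.Agent.KS6_38.Adm
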