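import Pool.Agent.KS6_38.Adm.Brun

set_option autoImplicit false

namespace Pool.Agent.KS6_38.Adm
open Finset

lemma sum_inv_sq_le (k n : ℕ) (hk : k ≠ 0) (P : Finset ℕ) (hP : ∀ p ∈ P, k < p ∧ p ≤ n) :
    ∑ p ∈ P, (1 : ℝ) / (p : ℝ) ^ 2 ≤ 1 / k := by
  have h1 : P ⊆ Ioc k (max k n) := fun p hp =>
    mem_Ioc.2 ⟨(hP p hp).1, (hP p hp).2.trans (le_max_right _ _)⟩
  have h2 := sum_Ioc_inv_sq_le_sub (α := ℝ) hk (le_max_left k n)
  have h3 : ∑ p ∈ P, (1 : ℝ) / (p : ℝ) ^ 2 ≤ ∑ p ∈ Ioc k (max k n), ((p : ℝ) ^ 2)⁻¹ := by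
    simp only [one_div]
    exact sum_le_sum_of_subset_of_nonneg h1 fun _ _ _ => by positivity
  have h4 : (0 : ℝ) ≤ ((max k n : ℕ) : ℝ)⁻¹ := by positivity
  rw [one_div (k : ℝ)]
  linarith

lemma mertens_lower (w : ℕ) :
    Real.log w ≤ 2 * Real.exp (∑ p ∈ (Icc 1 w).filter Nat.Prime, (1 : ℝ) / p) := by
  set Q := (Icc 1 w).filter Nat.Prime with hQ
  have h1 : Real.log w ≤ ∑ n ∈ Icc 1 w, (1 : ℝ) / n := by
    have := log_le_harmonic_floor (w : ℝ) (Nat.cast_nonneg _)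
    rw [Nat.floor_natCast, harmonic_eq_sum_Icc] at this
    simpa using this
  let φ : ℕ × Finset ℕ → ℕ := fun x => x.1 ^ 2 * ∏ p ∈ x.2, p
  have h2 : Icc 1 w ⊆ (Icc 1 w ×ˢ Q.powerset).image φ := by
    intro n hn
    obtain ⟨hn1, hn2⟩ := mem_Icc.1 hn
    obtain ⟨a, b, hab, ha⟩ := Nat.sq_mul_squarefree n
    have hb0 : b ≠ 0 := by rintro rfl; simp at hab; omega
    have ha0 : a ≠ 0 := ha.ne_zero
    refine mem_image.2 ⟨(b, a.primeFactors), mem_product.2 ⟨mem_Icc.2 ⟨by omega, ?_⟩, ?_⟩, ?_⟩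
    · have : b ≤ b ^ 2 * a := by
        calc b ≤ b ^ 2 := Nat.le_self_pow (by norm_num) b
          _ ≤ b ^ 2 * a := Nat.le_mul_of_pos_right _ (by omega)
      simp only; omega
    · rw [mem_powerset]
      intro p hp
      have hp' := Nat.prime_of_mem_primeFactors hp
      have h3 : p ∣ n := hab ▸ Dvd.dvd.mul_left (Nat.dvd_of_mem_primeFactors hp) _
      exact mem_filter.2 ⟨mem_Icc.2 ⟨hp'.one_le, (Nat.le_of_dvd (by omega) h3).trans hn2⟩, hp'⟩
    · simp only [φ]; rw [Nat.prod_primeFactors_of_squarefree ha, hab]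
  have h3 : ∑ n ∈ Icc 1 w, (1 : ℝ) / n ≤ ∑ x ∈ Icc 1 w ×ˢ Q.powerset, (1 : ℝ) / (φ x) := by
    refine (sum_le_sum_of_subset_of_nonneg h2 fun _ _ _ => by positivity).trans ?_
    exact sum_image_le_of_nonneg fun _ _ => by positivity
  have h4 : ∑ x ∈ Icc 1 w ×ˢ Q.powerset, (1 : ℝ) / (φ x) =
      (∑ a ∈ Icc 1 w, (1 : ℝ) / (a : ℝ) ^ 2) * ∏ p ∈ Q, (1 + (1 : ℝ) / p) := by
    rw [prod_one_add, sum_mul_sum, sum_product]
    refine sum_congr rfl fun a _ => sum_congr rfl fun D _ => ?_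
    simp only [φ]
    push_cast
    rw [prod_div_distrib, prod_const_one, div_mul_div_comm, one_mul]
  have h5 : ∑ a ∈ Icc 1 w, (1 : ℝ) / (a : ℝ) ^ 2 ≤ 2 := by
    have h6 : Icc 1 w ⊆ insert 1 (Ioc 1 w) := by
      intro a ha; simp only [mem_Icc, mem_insert, mem_Ioc] at ha ⊢; omega
    refine (sum_le_sum_of_subset_of_nonneg h6 fun _ _ _ => by positivity).trans ?_
    rw [sum_insert (by simp)]
    have := sum_inv_sq_le 1 w one_ne_zero (Ioc 1 w) fun p hp => mem_Ioc.1 hp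
    norm_num at this ⊢
    linarith
  have h6 : ∏ p ∈ Q, (1 + (1 : ℝ) / p) ≤ Real.exp (∑ p ∈ Q, (1 : ℝ) / p) :=
    Real.prod_one_add_le_exp_sum Q fun p => by positivity
  calc Real.log w ≤ _ := h1
    _ ≤ _ := h3
    _ = _ := h4
    _ ≤ _ := mul_le_mul h5 h6 (prod_nonneg fun p _ => by positivity) (by norm_num)

lemma subset_sum (f : ℕ → ℝ) (f1 : ∀ p, f p ≤ 1) (τ : ℝ) (hτ : 0 ≤ τ) (Q : Finset ℕ) :
    τ ≤ ∑ p ∈ Q, f p → ∃ P ⊆ Q, τ ≤ ∑ p ∈ P, f p ∧ ∑ p ∈ P, f p ≤ τ + 1 := by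
  induction Q using Finset.induction_on with
  | empty => intro h; exact ⟨∅, Subset.rfl, h, by simp; linarith⟩
  | insert q Q hq ih =>
    intro h
    by_cases h1 : τ ≤ ∑ p ∈ Q, f p
    · obtain ⟨P, h2, h3⟩ := ih h1
      exact ⟨P, h2.trans (subset_insert _ _), h3⟩
    · refine ⟨insert q Q, Subset.rfl, h, ?_⟩
      rw [sum_insert hq]
      have := f1 q
      linarith [not_le.1 h1]

lemma exists_primes (τ : ℝ) (hτ : 0 ≤ τ) : ∃ (y : ℕ) (P : Finset ℕ), (y : ℝ) ≤ Real.exp (τ + 3) ∧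
    (∀ p ∈ P, p.Prime ∧ 4 ≤ p ∧ p ≤ 2 ^ y) ∧ τ ≤ ∑ p ∈ P, (1 : ℝ) / p ∧
      ∑ p ∈ P, (1 : ℝ) / p ≤ τ + 1 := by
  set y := ⌈Real.exp (τ + 2)⌉₊ with hy
  have hy1 : Real.exp (τ + 2) ≤ y := Nat.le_ceil _
  have hy2 : (y : ℝ) < Real.exp (τ + 2) + 1 := Nat.ceil_lt_add_one (Real.exp_pos _).le
  have he : (2 : ℝ) ≤ Real.exp 1 := by have := Real.add_one_le_exp (1 : ℝ); linarith
  have hy3 : (y : ℝ) ≤ Real.exp (τ + 3) := by
    have h1 : 1 ≤ Real.exp (τ + 2) := Real.one_le_exp (by linarith)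
    rw [show τ + 3 = τ + 2 + 1 by ring, Real.exp_add]
    nlinarith
  set Q := ((Icc 1 (2 ^ y)).filter Nat.Prime).filter (fun p => 4 ≤ p) with hQ
  have h1 := mertens_lower (2 ^ y)
  have h2 : ∑ p ∈ (Icc 1 (2 ^ y)).filter Nat.Prime, (1 : ℝ) / p ≤ 5 / 6 + ∑ p ∈ Q, (1 : ℝ) / p := by
    have h3 : (Icc 1 (2 ^ y)).filter Nat.Prime ⊆ insert 2 (insert 3 Q) := by
      intro p hp
      have := (mem_filter.1 hp).2.two_le
      by_cases h4 : 4 ≤ p
      · exact mem_insert_of_mem (mem_insert_of_mem (mem_filter.2 ⟨hp, h4⟩))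
      · have : p = 2 ∨ p = 3 := by omega
        rcases this with rfl | rfl <;> simp
    refine (sum_le_sum_of_subset_of_nonneg h3 fun _ _ _ => by positivity).trans ?_
    rw [sum_insert (by simp [hQ]), sum_insert (by simp [hQ])]
    norm_num
    linarith
  have h3 : τ ≤ ∑ p ∈ Q, (1 : ℝ) / p := by
    by_contra h4
    push Not at h4
    have h5 : Real.exp (∑ p ∈ (Icc 1 (2 ^ y)).filter Nat.Prime, (1 : ℝ) / p) ≤
        Real.exp (τ + 5 / 6) := Real.exp_le_exp.2 (by linarith)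
    have h6 : Real.log ((2 ^ y : ℕ) : ℝ) = y * Real.log 2 := by push_cast; rw [Real.log_pow]
    have h7 := Real.log_two_gt_d9
    have h8 : Real.exp (τ + 2) = Real.exp (τ + 5 / 6) * (Real.exp 1 * Real.exp (1 / 6)) := by
      rw [← Real.exp_add, ← Real.exp_add]; ring_nf
    have h9 := Real.exp_one_gt_d9
    have h10 : 1 / 6 + 1 ≤ Real.exp (1 / 6) := Real.add_one_le_exp _
    have h11 : 3 ≤ Real.exp 1 * Real.exp (1 / 6) := by nlinarith
    have h12 := Real.exp_pos (τ + 5 / 6)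
    have h13 : 3 * Real.exp (τ + 5 / 6) ≤ y := by nlinarith
    rw [h6] at h1
    nlinarith
  obtain ⟨P, hP, h4, h5⟩ := subset_sum (fun p => (1 : ℝ) / p) (fun p => by
    rcases Nat.eq_zero_or_pos p with rfl | hp
    · simp
    · exact div_le_one_of_le₀ (by exact_mod_cast hp) (Nat.cast_nonneg _)) τ hτ Q h3
  refine ⟨y, P, hy3, fun p hp => ?_, h4, h5⟩
  have h6 := mem_filter.1 (hP hp)
  have h7 := mem_filter.1 h6.1
  exact ⟨h7.2, h6.2, (mem_Icc.1 h7.1).2⟩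

noncomputable def ind (d y : ℕ) : ℝ := if d ∣ y then 1 else 0

lemma cnt (d : ℕ) (hd : 0 < d) (Y H : ℕ) : |∑ y ∈ Ico Y (Y + H), ind d y - H / d| ≤ d := by
  have h := sum_interval (ind d) d hd (fun y => by simp [ind])
    (fun y => by unfold ind; split_ifs <;> norm_num)
    (fun y => by unfold ind; split_ifs <;> norm_num) Y H
  have h2 := sum_range_dvd d hd 1 0
  simp only [zero_add] at h2
  unfold ind at h ⊢
  rw [h2, mul_one_div] at h
  exact h

lemma variance (P : Finset ℕ) (z : ℕ) (hP : ∀ p ∈ P, p.Prime ∧ p ≤ z) (Y H : ℕ) :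
    ∑ y ∈ Ico Y (Y + H), (∑ p ∈ P, ind p y - ∑ p ∈ P, (1 : ℝ) / p) ^ 2 ≤
      H * ∑ p ∈ P, (1 : ℝ) / p + 3 * (z : ℝ) ^ 4 := by
  have e1 : ∀ y, (∑ p ∈ P, ind p y - ∑ p ∈ P, (1 : ℝ) / p) ^ 2 =
      ∑ p ∈ P, ∑ q ∈ P, (ind p y - 1 / p) * (ind q y - 1 / q) := by
    intro y; rw [← sum_sub_distrib, sq, sum_mul_sum]
  simp only [e1]
  rw [sum_comm]
  have e2 : ∀ p ∈ P, ∑ y ∈ Ico Y (Y + H), ∑ q ∈ P, (ind p y - 1 / p) * (ind q y - 1 / q) ≤
      H * (1 / p) + 3 * (z : ℝ) ^ 3 := by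
    intro p hp
    rw [sum_comm]
    have hp2 : (2 : ℝ) ≤ p := by exact_mod_cast (hP p hp).1.two_le
    have hpz : (p : ℝ) ≤ z := by exact_mod_cast (hP p hp).2
    have cp := abs_le.1 (cnt p (hP p hp).1.pos Y H)
    have e3 : ∀ q ∈ P, ∑ y ∈ Ico Y (Y + H), (ind p y - 1 / p) * (ind q y - 1 / q) ≤
        (if p = q then H * (1 / (p : ℝ)) else 0) + 3 * (z : ℝ) ^ 2 := by
      intro q hq
      have hq2 : (2 : ℝ) ≤ q := by exact_mod_cast (hP q hq).1.two_le
      have hqz : (q : ℝ) ≤ z := by exact_mod_cast (hP q hq).2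
      have cq := abs_le.1 (cnt q (hP q hq).1.pos Y H)
      have e4 : ∑ y ∈ Ico Y (Y + H), (ind p y - 1 / p) * (ind q y - 1 / q) =
          ∑ y ∈ Ico Y (Y + H), ind p y * ind q y - (1 / q) * ∑ y ∈ Ico Y (Y + H), ind p y -
            (1 / p) * ∑ y ∈ Ico Y (Y + H), ind q y + H * (1 / p * (1 / q)) := by
        rw [mul_sum, mul_sum, ← sum_sub_distrib, ← sum_sub_distrib]
        have : (H : ℝ) * (1 / p * (1 / q)) = ∑ y ∈ Ico Y (Y + H), (1 / (p : ℝ) * (1 / q)) := by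
          simp
        rw [this, ← sum_add_distrib]
        exact sum_congr rfl fun y _ => by ring
      rw [e4]
      have ip0 : (0 : ℝ) < 1 / p := by positivity
      have iq0 : (0 : ℝ) < 1 / q := by positivity
      have ip1 : (1 : ℝ) / p ≤ 1 := div_le_one_of_le₀ (by linarith) (by linarith)
      have iq1 : (1 : ℝ) / q ≤ 1 := div_le_one_of_le₀ (by linarith) (by linarith)
      have b1 : (1 / q) * (H * (1 / p) - z) ≤ (1 / q) * ∑ y ∈ Ico Y (Y + H), ind p y :=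
        mul_le_mul_of_nonneg_left (by rw [mul_one_div]; linarith [cp.1]) iq0.le
      have b2 : (1 / p) * (H * (1 / q) - z) ≤ (1 / p) * ∑ y ∈ Ico Y (Y + H), ind q y :=
        mul_le_mul_of_nonneg_left (by rw [mul_one_div]; linarith [cq.1]) ip0.le
      have hz : (2 : ℝ) ≤ z := hp2.trans hpz
      have b3 : 1 / (q : ℝ) * z ≤ z ^ 2 := by nlinarith
      have b4 : 1 / (p : ℝ) * z ≤ z ^ 2 := by nlinarith
      have hH : (0 : ℝ) ≤ H * (1 / p * (1 / q)) := by positivity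
      split_ifs with hpq
      · subst hpq
        have e5 : ∑ y ∈ Ico Y (Y + H), ind p y * ind p y = ∑ y ∈ Ico Y (Y + H), ind p y :=
          sum_congr rfl fun y _ => by unfold ind; split_ifs <;> norm_num
        rw [e5]
        have : ∑ y ∈ Ico Y (Y + H), ind p y ≤ H * (1 / p) + z := by
          rw [mul_one_div]; linarith [cp.2]
        nlinarith
      · have co : p.Coprime q := (Nat.coprime_primes (hP p hp).1 (hP q hq).1).2 hpq
        have e5 : ∑ y ∈ Ico Y (Y + H), ind p y * ind q y = ∑ y ∈ Ico Y (Y + H), ind (p * q) y := by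
          refine sum_congr rfl fun y _ => ?_
          unfold ind
          by_cases h1 : p ∣ y <;> by_cases h2 : q ∣ y
          · simp [h1, h2, co.mul_dvd_of_dvd_of_dvd h1 h2]
          · rw [if_neg h2, if_neg (fun h => h2 (Dvd.dvd.trans (Dvd.intro_left p rfl) h))]; simp
          · rw [if_neg h1, if_neg (fun h => h1 (Dvd.dvd.trans (Dvd.intro q rfl) h))]; simp
          · rw [if_neg h1, if_neg (fun h => h1 (Dvd.dvd.trans (Dvd.intro q rfl) h))]; simp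
        rw [e5]
        have c3 := (abs_le.1 (cnt (p * q) (Nat.mul_pos (hP p hp).1.pos (hP q hq).1.pos) Y H)).2
        push_cast at c3
        have c4 : (H : ℝ) / (p * q) = H * (1 / p * (1 / q)) := by field_simp
        have c5 : (p : ℝ) * q ≤ z ^ 2 := by nlinarith
        nlinarith
    refine (sum_le_sum e3).trans ?_
    rw [sum_add_distrib, sum_ite_eq, if_pos hp, sum_const, nsmul_eq_mul]
    have hc : (P.card : ℝ) ≤ z := by
      have : P ⊆ Ioc 0 z := fun p hp => mem_Ioc.2 ⟨(hP p hp).1.pos, (hP p hp).2⟩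
      have := card_le_card this
      simp only [Nat.card_Ioc, tsub_zero] at this
      exact_mod_cast this
    have : (0 : ℝ) ≤ (z : ℝ) ^ 2 := by positivity
    nlinarith
  refine (sum_le_sum e2).trans ?_
  rw [sum_add_distrib, ← mul_sum, sum_const, nsmul_eq_mul]
  have hc : (P.card : ℝ) ≤ z := by
    have : P ⊆ Ioc 0 z := fun p hp => mem_Ioc.2 ⟨(hP p hp).1.pos, (hP p hp).2⟩
    have := card_le_card this
    simp only [Nat.card_Ioc, tsub_zero] at this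
    exact_mod_cast this
  have : (0 : ℝ) ≤ (z : ℝ) ^ 3 := by positivity
  nlinarith

lemma cheb (P : Finset ℕ) (z : ℕ) (hP : ∀ p ∈ P, p.Prime ∧ p ≤ z) (Y H : ℕ) (M : ℝ)
    (hM : M = ∑ p ∈ P, (1 : ℝ) / p) (hM0 : 0 < M) :
    (((Ico Y (Y + H)).filter fun y => 21 / 20 * M < ∑ p ∈ P, ind p y).card : ℝ) ≤
      400 * (H * M + 3 * (z : ℝ) ^ 4) / M ^ 2 := by
  have h1 := variance P z hP Y H
  rw [← hM] at h1
  have h2 : (((Ico Y (Y + H)).filter fun y => 21 / 20 * M < ∑ p ∈ P, ind p y).card : ℝ) *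
      (M ^ 2 / 400) ≤ ∑ y ∈ Ico Y (Y + H), (∑ p ∈ P, ind p y - M) ^ 2 := by
    rw [← nsmul_eq_mul]
    refine (card_nsmul_le_sum _ (fun y => (∑ p ∈ P, ind p y - M) ^ 2) _ ?_).trans
      (sum_le_sum_of_subset_of_nonneg (filter_subset _ _) fun _ _ _ => by positivity)
    intro y hy
    have := (mem_filter.1 hy).2
    nlinarith
  rw [le_div_iff₀ (by positivity)]
  linarith

noncomputable def wt (p t x y : ℕ) : ℝ :=
  if p ∣ t then 1 / 4 else if p ∣ x then 1 / 2 else if p ∣ y then 1 / 2 else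
    if p ∣ x + y then 1 / 4 else 1

lemma wt_nonneg (p t x y : ℕ) : 0 ≤ wt p t x y := by unfold wt; split_ifs <;> norm_num

lemma wt_le_one (p t x y : ℕ) : wt p t x y ≤ 1 := by unfold wt; split_ifs <;> norm_num

lemma inner_sum (P : Finset ℕ) (μ y0 : ℕ) (hP : ∀ p ∈ P, p.Prime ∧ 4 ≤ p ∧ p ≤ 2 ^ y0)
    (hμ : ∑ p ∈ P, (1 : ℝ) / p ≤ μ) (t x Y H : ℕ) (hH : 2 ^ ((y0 + 1) * (36 * μ + 1)) ≤ H) :
    ∑ y ∈ Ico Y (Y + H), ∏ p ∈ P, wt p t x y ≤
      2 * H * ∏ p ∈ P, (if p ∣ x then (if p ∣ t then 1 / 4 else 1 / 2 : ℝ) else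
        (if p ∣ t then 1 / 4 else 1 - 5 / 4 / p)) := by
  let a : ℕ → ℕ → ℝ := fun y p => if p ∣ t ∨ p ∣ x then 0 else
    (if p ∣ 0 + y then 1 / 2 else 0) + (if p ∣ x + y then 3 / 4 else 0)
  have hs : ∀ p ∈ P, ∑ y ∈ range p, a y p = if p ∣ t ∨ p ∣ x then 0 else 5 / 4 := by
    intro p hp
    simp only [a]
    split_ifs with h
    · simp
    · rw [sum_add_distrib, sum_range_dvd p (hP p hp).1.pos, sum_range_dvd p (hP p hp).1.pos]
      norm_num
  have key := sieve1 P μ y0 hP hμ a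
    (fun y p => by simp only [a]; split_ifs <;> norm_num)
    (fun y p => by
      simp only [a]
      split_ifs with h1 h2 h3 <;> try norm_num
      rw [zero_add] at h2
      exact h1 (Or.inr ((Nat.dvd_add_left h2).1 h3)))
    (fun p _ y => by simp [a, ← add_assoc])
    (fun p hp => by rw [hs p hp]; split_ifs <;> norm_num) Y H hH
  let c : ℕ → ℝ := fun p => if p ∣ t then 1 / 4 else if p ∣ x then 1 / 2 else 1
  have e1 : ∀ y, ∏ p ∈ P, wt p t x y = (∏ p ∈ P, c p) * ∏ p ∈ P, (1 - a y p) := by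
    intro y
    rw [← prod_mul_distrib]
    refine prod_congr rfl fun p _ => ?_
    simp only [wt, c, a, zero_add]
    by_cases h1 : p ∣ t
    · simp [h1]
    by_cases h2 : p ∣ x
    · simp [h1, h2]
    by_cases h3 : p ∣ y
    · have h4 : ¬ p ∣ x + y := fun h => h2 ((Nat.dvd_add_left h3).1 h)
      simp [h1, h2, h3, h4]; norm_num
    by_cases h4 : p ∣ x + y
    · simp [h1, h2, h3, h4]; norm_num
    · simp [h1, h2, h3, h4]
  have e2 : ∏ p ∈ P, (if p ∣ x then (if p ∣ t then 1 / 4 else 1 / 2 : ℝ) else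
        (if p ∣ t then 1 / 4 else 1 - 5 / 4 / p)) =
      (∏ p ∈ P, c p) * ∏ p ∈ P, (1 - (∑ y ∈ range p, a y p) / p) := by
    rw [← prod_mul_distrib]
    refine prod_congr rfl fun p hp => ?_
    rw [hs p hp]
    simp only [c]
    by_cases h1 : p ∣ t <;> by_cases h2 : p ∣ x <;> simp [h1, h2]
  simp only [e1]
  rw [← mul_sum, e2]
  have hc : 0 ≤ ∏ p ∈ P, c p := prod_nonneg fun p _ => by simp only [c]; split_ifs <;> norm_num
  calc _ ≤ (∏ p ∈ P, c p) * _ := mul_le_mul_of_nonneg_left key hc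
    _ = _ := by ring

lemma triple (P : Finset ℕ) (μ y0 : ℕ) (hP : ∀ p ∈ P, p.Prime ∧ 4 ≤ p ∧ p ≤ 2 ^ y0)
    (hμ : ∑ p ∈ P, (1 : ℝ) / p ≤ μ) (X Y : ℕ → ℕ) (T L H : ℕ)
    (hL : 2 ^ ((y0 + 1) * (36 * μ + 1)) ≤ L) (hH : 2 ^ ((y0 + 1) * (36 * μ + 1)) ≤ H) :
    ∑ t ∈ Ico T (T + L), ∑ x ∈ Ico (X t) (X t + H), ∑ y ∈ Ico (Y t) (Y t + H),
      ∏ p ∈ P, wt p t x y ≤ 8 * L * H ^ 2 * Real.exp (1 - 5 / 2 * ∑ p ∈ P, (1 : ℝ) / p) := by
  have hi : ∀ p ∈ P, (0 : ℝ) < 1 / p ∧ (1 : ℝ) / p ≤ 1 / 4 := fun p hp => by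
    have h4 : (4 : ℝ) ≤ p := by exact_mod_cast (hP p hp).2.1
    exact ⟨by positivity, one_div_le_one_div_of_le (by norm_num) h4⟩
  let g' : ℕ → ℝ := fun p => (1 - 5 / 4 / p) - ((1 - 5 / 4 / p) - 1 / 2) / p
  have hg' : ∀ p : ℕ, g' p = 1 - 7 / 4 * (1 / p) + 5 / 4 * (1 / p) ^ 2 := fun p => by
    simp only [g']; ring
  have hH0 : (0 : ℝ) ≤ H := Nat.cast_nonneg _
  have mid : ∀ t, ∑ x ∈ Ico (X t) (X t + H), ∑ y ∈ Ico (Y t) (Y t + H), ∏ p ∈ P, wt p t x y ≤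
      4 * H ^ 2 * ∏ p ∈ P, (if p ∣ t then 1 / 4 else g' p) := by
    intro t
    refine (sum_le_sum fun x _ => inner_sum P μ y0 hP hμ t x (Y t) H hH).trans ?_
    rw [← mul_sum]
    have key := sieve2 P μ y0 hP hμ (fun p => if p ∣ t then 1 / 4 else 1 / 2)
      (fun p => if p ∣ t then 1 / 4 else 1 - 5 / 4 / p)
      (fun p _ => by split_ifs <;> norm_num)
      (fun p hp => by
        have := hi p hp
        split_ifs
        · exact le_rfl
        · rw [div_eq_mul_one_div (5 / 4 : ℝ)]; linarith [this.2])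
      (fun p hp => by
        have := hi p hp
        split_ifs
        · norm_num
        · rw [div_eq_mul_one_div (5 / 4 : ℝ)]; linarith [this.2]) (X t) H hH
    have e : ∏ p ∈ P, ((if p ∣ t then 1 / 4 else 1 - 5 / 4 / p : ℝ) -
        ((if p ∣ t then 1 / 4 else 1 - 5 / 4 / p : ℝ) - (if p ∣ t then 1 / 4 else 1 / 2 : ℝ)) / p) =
        ∏ p ∈ P, (if p ∣ t then 1 / 4 else g' p) := by
      refine prod_congr rfl fun p _ => ?_
      split_ifs
      · simp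
      · rfl
    rw [e] at key
    calc _ ≤ 2 * H * (2 * H * ∏ p ∈ P, (if p ∣ t then 1 / 4 else g' p)) :=
          mul_le_mul_of_nonneg_left key (by positivity)
      _ = _ := by ring
  refine (sum_le_sum fun t _ => mid t).trans ?_
  rw [← mul_sum]
  have key := sieve2 P μ y0 hP hμ (fun _ => 1 / 4) g' (fun p _ => by norm_num)
    (fun p hp => by have := hi p hp; rw [hg']; nlinarith [this.1, this.2])
    (fun p hp => by have := hi p hp; rw [hg']; nlinarith [this.1, this.2]) T L hL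
  have fin : ∏ p ∈ P, (g' p - (g' p - 1 / 4) / p) ≤
      Real.exp (1 - 5 / 2 * ∑ p ∈ P, (1 : ℝ) / p) := by
    calc _ ≤ ∏ p ∈ P, Real.exp (3 * (1 / (p : ℝ) ^ 2) - 5 / 2 * (1 / p)) := by
          apply prod_le_prod
          · intro p hp
            have := hi p hp
            rw [div_eq_mul_one_div (g' p - 1 / 4), hg']
            nlinarith [this.1, this.2, mul_pos this.1 this.1]
          · intro p hp
            have := hi p hp
            refine le_trans ?_ (Real.add_one_le_exp _)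
            rw [div_eq_mul_one_div (g' p - 1 / 4), hg', ← one_div_pow]
            nlinarith [this.1, this.2, mul_pos this.1 this.1, mul_pos this.1 (mul_pos this.1 this.1)]
      _ = Real.exp (∑ p ∈ P, (3 * (1 / (p : ℝ) ^ 2) - 5 / 2 * (1 / p))) := (Real.exp_sum _ _).symm
      _ ≤ _ := by
          apply Real.exp_le_exp.2
          rw [sum_sub_distrib, ← mul_sum, ← mul_sum]
          have := sum_inv_sq_le 3 (2 ^ y0) (by norm_num) P fun p hp =>
            ⟨by have := (hP p hp).2.1; omega, (hP p hp).2.2⟩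
          push_cast at this
          linarith
  have hL0 : (0 : ℝ) ≤ L := Nat.cast_nonneg _
  calc _ ≤ 4 * H ^ 2 * (2 * L * Real.exp (1 - 5 / 2 * ∑ p ∈ P, (1 : ℝ) / p)) :=
        mul_le_mul_of_nonneg_left (key.trans (mul_le_mul_of_nonneg_left fin (by positivity)))
          (by positivity)
    _ = _ := by ring

end Pool.Agent.KS6_38.Adm
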