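import Pool.Agent.KS6_38.Adm.Brun2

set_option autoImplicit false

namespace Pool.Agent.KS6_38.Adm
open Finset

noncomputable def yy (i : ℕ) : ℕ := (exists_primes ((i : ℝ) ^ 2) (by positivity)).choose
noncomputable def PP (i : ℕ) : Finset ℕ :=
  (exists_primes ((i : ℝ) ^ 2) (by positivity)).choose_spec.choose
noncomputable def MM (i : ℕ) : ℝ := ∑ p ∈ PP i, (1 : ℝ) / p

lemma PP_spec (i : ℕ) : (yy i : ℝ) ≤ Real.exp ((i : ℝ) ^ 2 + 3) ∧
    (∀ p ∈ PP i, p.Prime ∧ 4 ≤ p ∧ p ≤ 2 ^ yy i) ∧ (i : ℝ) ^ 2 ≤ MM i ∧ MM i ≤ (i : ℝ) ^ 2 + 1 :=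
  (exists_primes ((i : ℝ) ^ 2) (by positivity)).choose_spec.choose_spec

noncomputable def ee (i : ℕ) : ℕ := (yy i + 1) * (36 * (i ^ 2 + 1) + 1)

noncomputable def lev (j : ℕ) : ℕ := Nat.findGreatest (fun i => ee i ≤ j) j

noncomputable def ph (i : ℕ) : ℝ := Real.exp (-(1.04 * (i : ℝ) ^ 2))

lemma ph_pos (i : ℕ) : 0 < ph i := Real.exp_pos _

lemma le_ee (i : ℕ) : i ≤ ee i := by unfold ee; nlinarith [Nat.zero_le (yy i), Nat.zero_le (yy i * i ^ 2)]

lemma lt_ee_lev (j : ℕ) : j < ee (lev j + 1) := by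
  by_cases h : lev j + 1 ≤ j
  · have := Nat.findGreatest_is_greatest (P := fun i => ee i ≤ j) (n := j) (k := lev j + 1)
      (by unfold lev; omega) h
    omega
  · have := le_ee (lev j + 1); omega

lemma ee_ph (i : ℕ) : (ee (i + 1) : ℝ) * ph i ≤ 146 * Real.exp 161 * (1 / 2) ^ i := by
  have h1 := (PP_spec (i + 1)).1
  have hi : (0 : ℝ) ≤ i := Nat.cast_nonneg _
  have h2 : (1 : ℝ) ≤ Real.exp (((i + 1 : ℕ) : ℝ) ^ 2 + 3) := Real.one_le_exp (by positivity)
  have h3 : (i : ℝ) + 1 ≤ Real.exp i := Real.add_one_le_exp _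
  have h4 : ((i : ℝ) + 1) ^ 2 ≤ Real.exp (2 * i) := by
    rw [show 2 * (i : ℝ) = i + i by ring, Real.exp_add, sq]
    exact mul_le_mul h3 h3 (by positivity) (Real.exp_pos _).le
  have h5 : (ee (i + 1) : ℝ) ≤ (2 * Real.exp (((i + 1 : ℕ) : ℝ) ^ 2 + 3)) * (73 * Real.exp (2 * i)) := by
    unfold ee
    push_cast at h1 h2 ⊢
    apply mul_le_mul (by linarith) (by nlinarith) (by positivity) (by positivity)
  have h6 : Real.exp (-(i : ℝ)) ≤ (1 / 2) ^ i := by
    have he : (2 : ℝ) ≤ Real.exp 1 := by have := Real.add_one_le_exp (1 : ℝ); linarith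
    rw [show -(i : ℝ) = i * (-1) by ring, Real.exp_nat_mul]
    apply pow_le_pow_left₀ (Real.exp_pos _).le
    rw [Real.exp_neg, one_div]
    exact inv_anti₀ (by norm_num) he
  calc (ee (i + 1) : ℝ) * ph i ≤
        (2 * Real.exp (((i + 1 : ℕ) : ℝ) ^ 2 + 3)) * (73 * Real.exp (2 * i)) * ph i :=
        mul_le_mul_of_nonneg_right h5 (ph_pos i).le
    _ = 146 * Real.exp ((((i + 1 : ℕ) : ℝ) ^ 2 + 3) + 2 * i + -(1.04 * (i : ℝ) ^ 2)) := by
        unfold ph; rw [Real.exp_add _ (-(1.04 * (i : ℝ) ^ 2)), Real.exp_add _ (2 * (i : ℝ))]; ring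
    _ ≤ 146 * Real.exp (161 + -(i : ℝ)) := by
        apply mul_le_mul_of_nonneg_left _ (by norm_num)
        apply Real.exp_le_exp.2
        push_cast
        nlinarith [sq_nonneg ((i : ℝ) - 62.5)]
    _ ≤ _ := by
        rw [Real.exp_add, mul_assoc]
        exact mul_le_mul_of_nonneg_left (mul_le_mul_of_nonneg_left h6 (Real.exp_pos _).le)
          (by norm_num)

lemma sum_lev (J : ℕ) : ∑ j ∈ range J, ph (lev j) ≤ 292 * Real.exp 161 := by
  have h1 : ∀ j ∈ range J, lev j ∈ range J := fun j hj =>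
    mem_range.2 (lt_of_le_of_lt (Nat.findGreatest_le j) (mem_range.1 hj))
  rw [← sum_fiberwise_of_maps_to h1]
  calc _ ≤ ∑ i ∈ range J, 146 * Real.exp 161 * (1 / 2) ^ i := by
        refine sum_le_sum fun i _ => le_trans ?_ (ee_ph i)
        rw [sum_congr rfl (g := fun _ => ph i) (fun j hj => by rw [(mem_filter.1 hj).2]),
          sum_const, nsmul_eq_mul]
        apply mul_le_mul_of_nonneg_right _ (ph_pos i).le
        have : (range J).filter (fun j => lev j = i) ⊆ range (ee (i + 1)) := fun j hj => by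
          have := lt_ee_lev j
          rw [(mem_filter.1 hj).2] at this
          exact mem_range.2 this
        have := card_le_card this
        rw [card_range] at this
        exact_mod_cast this
    _ ≤ _ := by
        rw [← mul_sum]
        have := sum_geometric_two_le J
        have h2 : 0 < 146 * Real.exp 161 := by positivity
        nlinarith

def Good (h n : ℕ) : Prop :=
  ∀ i, 20000 < i → i ≤ h → 2 ^ (4 * yy i) ≤ h → ∑ p ∈ PP i, ind p n ≤ 21 / 20 * MM i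

open Classical in
lemma bad_card (h Y c : ℕ) :
    (((Ico Y (Y + c * h)).filter fun n => ¬ Good h n).card : ℝ) ≤ (c + 3) / 50 * h := by
  obtain ⟨Λ, hΛ⟩ : ∃ Λ : Finset ℕ, ∀ i, i ∈ Λ ↔ 20000 < i ∧ i ≤ h ∧ 2 ^ (4 * yy i) ≤ h :=
    ⟨(range (h + 1)).filter fun i => 20000 < i ∧ 2 ^ (4 * yy i) ≤ h, fun i => by
      rw [mem_filter, mem_range, Nat.lt_succ_iff]; tauto⟩
  have h1 : (Ico Y (Y + c * h)).filter (fun n => ¬ Good h n) ⊆ Λ.biUnion fun i =>
      (Ico Y (Y + c * h)).filter fun y => 21 / 20 * MM i < ∑ p ∈ PP i, ind p y := by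
    intro n hn
    obtain ⟨h2, h3⟩ := mem_filter.1 hn
    unfold Good at h3
    push Not at h3
    obtain ⟨i, hi, hi', h4, h5⟩ := h3
    exact mem_biUnion.2 ⟨i, (hΛ i).2 ⟨hi, hi', h4⟩, mem_filter.2 ⟨h2, h5⟩⟩
  have h2 := (card_le_card h1).trans card_biUnion_le
  have h3 : ∀ i ∈ Λ, (((Ico Y (Y + c * h)).filter fun y =>
      21 / 20 * MM i < ∑ p ∈ PP i, ind p y).card : ℝ) ≤ 400 * (c + 3) * h * (1 / (i : ℝ) ^ 2) := by
    intro i hi
    obtain ⟨h4, -, h5⟩ := (hΛ i).1 hi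
    have h6 : (20000 : ℝ) < i := by exact_mod_cast h4
    obtain ⟨-, s2, s3, -⟩ := PP_spec i
    have hM1 : 1 ≤ MM i := by nlinarith
    have h7 := cheb (PP i) (2 ^ yy i) (fun p hp => ⟨(s2 p hp).1, (s2 p hp).2.2⟩) Y (c * h) (MM i) rfl
      (by linarith)
    refine h7.trans ?_
    have h8 : (((2 ^ yy i : ℕ) : ℝ)) ^ 4 ≤ h := by
      have : (2 ^ yy i) ^ 4 ≤ h := by rw [← pow_mul, mul_comm]; exact h5
      exact_mod_cast this
    have hh : (0 : ℝ) ≤ h := Nat.cast_nonneg _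
    have hc : (0 : ℝ) ≤ c := Nat.cast_nonneg _
    rw [div_le_iff₀ (by positivity)]
    have h9 : 1 ≤ 1 / (i : ℝ) ^ 2 * MM i := by
      rw [one_div_mul_eq_div, le_div_iff₀ (by positivity)]; linarith
    have h10 : ((c * h : ℕ) : ℝ) * MM i + 3 * ((2 ^ yy i : ℕ) : ℝ) ^ 4 ≤ (c + 3) * h * MM i := by
      push_cast at h8 ⊢; nlinarith
    have h11 : (0 : ℝ) ≤ (c + 3) * h * MM i := by positivity
    nlinarith
  have h4 : ∑ i ∈ Λ, (1 : ℝ) / (i : ℝ) ^ 2 ≤ 1 / (20000 : ℕ) :=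
    sum_inv_sq_le 20000 h (by norm_num) Λ fun i hi => ⟨((hΛ i).1 hi).1, ((hΛ i).1 hi).2.1⟩
  calc _ ≤ ((∑ i ∈ Λ, ((Ico Y (Y + c * h)).filter fun y =>
        21 / 20 * MM i < ∑ p ∈ PP i, ind p y).card : ℕ) : ℝ) := by exact_mod_cast h2
    _ ≤ ∑ i ∈ Λ, 400 * (c + 3) * h * (1 / (i : ℝ) ^ 2) := by
        rw [Nat.cast_sum]; exact sum_le_sum h3
    _ ≤ _ := by
        rw [← mul_sum]
        have : (0 : ℝ) ≤ 400 * (c + 3) * h := by positivity
        have := mul_le_mul_of_nonneg_left h4 this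
        push_cast at this
        linarith

lemma wt_ge (p t x y : ℕ) :
    Real.exp (-(Real.log 2 * (ind p (t * x * (x + y)) + ind p (t * y * (x + y))))) ≤ wt p t x y := by
  have e : ∀ n, Real.exp (-(Real.log 2 * ind p n)) = 1 - ind p n / 2 := by
    intro n
    unfold ind
    split_ifs
    · rw [mul_one, Real.exp_neg, Real.exp_log (by norm_num)]; norm_num
    · simp
  rw [mul_add, neg_add, Real.exp_add, e, e]
  unfold wt ind
  by_cases h1 : p ∣ t
  · rw [if_pos h1, if_pos ((h1.mul_right _).mul_right _), if_pos ((h1.mul_right _).mul_right _)]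
    norm_num
  rw [if_neg h1]
  by_cases h2 : p ∣ x
  · rw [if_pos h2, if_pos ((h2.mul_left _).mul_right _)]
    split_ifs <;> norm_num
  rw [if_neg h2]
  by_cases h3 : p ∣ y
  · rw [if_pos h3, if_pos ((h3.mul_left t).mul_right _)]
    split_ifs <;> norm_num
  rw [if_neg h3]
  by_cases h4 : p ∣ x + y
  · rw [if_pos h4, if_pos (h4.mul_left _), if_pos (h4.mul_left _)]
    norm_num
  rw [if_neg h4]
  split_ifs <;> norm_num

noncomputable def C1 : ℝ := 8 * Real.exp 1 * Real.exp (1.04 * 20000 ^ 2)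

open Classical in
lemma box_count (h j L H : ℕ) (X : ℕ → ℕ) (hL : 2 ^ j ≤ L) (hH : 2 ^ j ≤ H) (hh : 2 ^ j ≤ h) :
    ∑ t ∈ Ico 1 (1 + L), ∑ x ∈ Ico (X t) (X t + H), ∑ y ∈ Ico (X t) (X t + H),
      (if Good h (t * x * (x + y)) ∧ Good h (t * y * (x + y)) then (1 : ℝ) else 0) ≤
      L * H ^ 2 * C1 * ph (lev j) := by
  have he : (1 : ℝ) ≤ Real.exp 1 := Real.one_le_exp (by norm_num)
  by_cases hl : lev j ≤ 20000
  · have h1 : 1 ≤ C1 * ph (lev j) := by
      unfold C1 ph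
      rw [mul_assoc, ← Real.exp_add]
      have h2 : ((lev j : ℕ) : ℝ) ≤ 20000 := by exact_mod_cast hl
      have h3 : (0 : ℝ) ≤ lev j := Nat.cast_nonneg _
      have : 1 ≤ Real.exp (1.04 * 20000 ^ 2 + -(1.04 * ((lev j : ℕ) : ℝ) ^ 2)) :=
        Real.one_le_exp (by nlinarith)
      nlinarith
    calc _ ≤ ∑ t ∈ Ico 1 (1 + L), ∑ x ∈ Ico (X t) (X t + H), ∑ y ∈ Ico (X t) (X t + H), (1 : ℝ) :=
          sum_le_sum fun t _ => sum_le_sum fun x _ => sum_le_sum fun y _ => by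
            split_ifs <;> norm_num
      _ = L * H ^ 2 * 1 := by simp [sq]
      _ ≤ _ := by
          rw [mul_assoc _ C1]
          exact mul_le_mul_of_nonneg_left h1 (by positivity)
  · set i := lev j with hi
    have h1 : ee i ≤ j := Nat.findGreatest_of_ne_zero (P := fun i => ee i ≤ j) hi.symm (by omega)
    have h2 : 2 ^ ee i ≤ 2 ^ j := Nat.pow_le_pow_right (by norm_num) h1
    obtain ⟨-, s2, s3, s4⟩ := PP_spec i
    have h3 := triple (PP i) (i ^ 2 + 1) (yy i) s2 (by push_cast; exact s4) X X 1 L H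
      (h2.trans hL) (h2.trans hH)
    have h4 : 20000 < i ∧ i ≤ h := by
      have := le_ee i
      have := Nat.lt_two_pow_self (n := j)
      exact ⟨by omega, by omega⟩
    have h5 : 2 ^ (4 * yy i) ≤ h := by
      refine le_trans (Nat.pow_le_pow_right (by norm_num) ?_) (h2.trans hh)
      unfold ee; nlinarith [Nat.zero_le (yy i * i ^ 2)]
    have h6 : ∀ t x y, (if Good h (t * x * (x + y)) ∧ Good h (t * y * (x + y)) then (1 : ℝ) else 0)
        ≤ Real.exp (Real.log 2 * (21 / 10 * MM i)) * ∏ p ∈ PP i, wt p t x y := by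
      intro t x y
      split_ifs with hg
      · have g1 := hg.1 i h4.1 h4.2 h5
        have g2 := hg.2 i h4.1 h4.2 h5
        have g3 : ∏ p ∈ PP i, Real.exp (-(Real.log 2 * (ind p (t * x * (x + y)) +
            ind p (t * y * (x + y))))) ≤ ∏ p ∈ PP i, wt p t x y :=
          prod_le_prod (fun p _ => (Real.exp_pos _).le) fun p _ => wt_ge p t x y
        rw [← Real.exp_sum, sum_neg_distrib, ← mul_sum, sum_add_distrib] at g3
        refine le_trans ?_ (mul_le_mul_of_nonneg_left g3 (Real.exp_pos _).le)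
        rw [← Real.exp_add]
        apply Real.one_le_exp
        have := Real.log_pos (show (1 : ℝ) < 2 by norm_num)
        nlinarith
      · exact mul_nonneg (Real.exp_pos _).le (prod_nonneg fun p _ => wt_nonneg p t x y)
    calc _ ≤ ∑ t ∈ Ico 1 (1 + L), ∑ x ∈ Ico (X t) (X t + H), ∑ y ∈ Ico (X t) (X t + H),
          Real.exp (Real.log 2 * (21 / 10 * MM i)) * ∏ p ∈ PP i, wt p t x y :=
          sum_le_sum fun t _ => sum_le_sum fun x _ => sum_le_sum fun y _ => h6 t x y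
      _ = Real.exp (Real.log 2 * (21 / 10 * MM i)) * ∑ t ∈ Ico 1 (1 + L),
          ∑ x ∈ Ico (X t) (X t + H), ∑ y ∈ Ico (X t) (X t + H), ∏ p ∈ PP i, wt p t x y := by
          simp only [mul_sum]
      _ ≤ Real.exp (Real.log 2 * (21 / 10 * MM i)) * (8 * L * H ^ 2 * Real.exp (1 - 5 / 2 * MM i)) :=
          mul_le_mul_of_nonneg_left h3 (Real.exp_pos _).le
      _ = L * H ^ 2 * (8 * Real.exp 1 * Real.exp (Real.log 2 * (21 / 10 * MM i) - 5 / 2 * MM i)) := by
          rw [Real.exp_sub, Real.exp_sub]; field_simp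
      _ ≤ _ := by
          rw [mul_assoc _ C1]
          apply mul_le_mul_of_nonneg_left _ (by positivity)
          unfold C1 ph
          rw [mul_assoc (8 * Real.exp 1), ← Real.exp_add]
          apply mul_le_mul_of_nonneg_left _ (by positivity)
          apply Real.exp_le_exp.2
          have := Real.log_two_lt_d9
          have h7 : 0 ≤ MM i := le_trans (by positivity) s3
          nlinarith

lemma param (a b c : ℕ) (hb : 0 < b) (h : a * (b + c) = b * c) :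
    ∃ t x y : ℕ, a = t * x * y ∧ b = t * x * (x + y) ∧ c = t * y * (x + y) := by
  obtain ⟨g, x, y, hg, co, rfl, rfl⟩ := Nat.exists_coprime' (Nat.gcd_pos_of_pos_left c hb)
  have h1 : a * (x + y) = g * (x * y) := by
    apply Nat.eq_of_mul_eq_mul_left hg; nlinarith
  have co2 : (x + y).Coprime (x * y) := by
    apply Nat.Coprime.mul_right
    · simpa using co.symm
    · simpa using co
  obtain ⟨t, rfl⟩ : x + y ∣ g := co2.dvd_of_dvd_mul_right ⟨a, by rw [← h1]; ring⟩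
  have hx : 0 < x := Nat.pos_of_mul_pos_right hb
  refine ⟨t, x, y, ?_, by ring, by ring⟩
  apply Nat.eq_of_mul_eq_mul_right (show 0 < x + y by omega)
  rw [h1]; ring

lemma box_real (n r t x s b c : ℝ) (hn : 0 < n) (hr : 0 < r) (hr1 : r ≤ 1) (ht : 0 < t) (hx : 0 ≤ x)
    (hb : b = t * x * s) (hs : b + c = t * s ^ 2) (b1 : 2 * n * r < b) (b2 : b ≤ 2 * n)
    (c1 : 2 * n * r < c) (c2 : c ≤ 2 * n) :
    r * Real.sqrt (n / t) < x ∧ x < Real.sqrt (n / t) / r := by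
  have hZ : Real.sqrt (n / t) ^ 2 = n / t := Real.sq_sqrt (by positivity)
  have hZ0 : 0 ≤ Real.sqrt (n / t) := Real.sqrt_nonneg _
  have e : t * x ^ 2 * (b + c) = b ^ 2 := by rw [hs, hb]; ring
  have hw : 0 ≤ t * x ^ 2 := by positivity
  have hnr : 0 < 2 * n * r := by positivity
  have h1 : n * r ^ 2 < t * x ^ 2 := by
    have : (2 * n * r) ^ 2 < b ^ 2 := pow_lt_pow_left₀ b1 hnr.le two_ne_zero
    have h2 : t * x ^ 2 * (b + c) ≤ t * x ^ 2 * (4 * n) := mul_le_mul_of_nonneg_left (by linarith) hw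
    nlinarith
  have h2 : t * x ^ 2 * r < n := by
    have h3 : b ^ 2 ≤ (2 * n) ^ 2 := pow_le_pow_left₀ (by linarith) b2 2
    have hw' : 0 < t * x ^ 2 := lt_trans (by positivity) h1
    have h4 : t * x ^ 2 * (4 * n * r) < t * x ^ 2 * (b + c) := mul_lt_mul_of_pos_left (by linarith) hw'
    nlinarith
  constructor
  · apply lt_of_pow_lt_pow_left₀ 2 hx
    rw [mul_pow, hZ, ← mul_div_assoc, div_lt_iff₀ ht]; linarith
  · apply lt_of_pow_lt_pow_left₀ 2 (by positivity)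
    rw [div_pow, hZ, lt_div_iff₀ (by positivity), lt_div_iff₀ ht]
    have : t * x ^ 2 * r * r ≤ t * x ^ 2 * r := mul_le_of_le_one_right (by positivity) hr1
    nlinarith

noncomputable def XX (K h t : ℕ) : ℕ := ⌊(1 - 2 / (K : ℝ)) * Real.sqrt ((K * h : ℕ) / t)⌋₊

lemma box_nat (K h t x y : ℕ) (hK : 400 ≤ K) (hh : 0 < h) (hxy : x ≠ y)
    (hb : t * x * (x + y) ∈ Ioc (2 * (K * h) - 4 * h) (2 * (K * h)))
    (hc : t * y * (x + y) ∈ Ioc (2 * (K * h) - 4 * h) (2 * (K * h))) :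
    ∃ j, t * 4 ^ j * K ≤ 400 * h ∧ 0 < t ∧ x ∈ Ico (XX K h t) (XX K h t + 2 ^ j) ∧
      y ∈ Ico (XX K h t) (XX K h t + 2 ^ j) := by
  obtain ⟨b1, b2⟩ := mem_Ioc.1 hb
  obtain ⟨c1, c2⟩ := mem_Ioc.1 hc
  have ht : 0 < t := by
    rcases Nat.eq_zero_or_pos t with rfl | ht
    · simp at b1
    · exact ht
  have hK' : (400 : ℝ) ≤ K := by exact_mod_cast hK
  have hh' : (0 : ℝ) < h := by exact_mod_cast hh
  have ht' : (0 : ℝ) < t := by exact_mod_cast ht
  have h4 : 4 * h ≤ 2 * (K * h) := by nlinarith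
  set r : ℝ := 1 - 2 / (K : ℝ) with hr
  have hd : 2 / (K : ℝ) ≤ 2 / 400 := div_le_div_of_nonneg_left (by norm_num) (by norm_num) hK'
  have hd0 : 0 < 2 / (K : ℝ) := by positivity
  have hr0 : 0 < r := by rw [hr]; linarith
  have hr1 : r ≤ 1 := by rw [hr]; linarith
  have hnr : 2 * ((K * h : ℕ) : ℝ) * r = ((2 * (K * h) - 4 * h : ℕ) : ℝ) := by
    rw [Nat.cast_sub h4, hr]; push_cast; field_simp; ring
  have hn : (0 : ℝ) < (K * h : ℕ) := by push_cast; positivity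
  have bx := box_real (K * h : ℕ) r t x (x + y) (t * x * (x + y) : ℕ) (t * y * (x + y) : ℕ) hn hr0 hr1
    ht' (Nat.cast_nonneg _) (by push_cast; ring) (by push_cast; ring)
    (by rw [hnr]; exact_mod_cast b1) (by exact_mod_cast b2) (by rw [hnr]; exact_mod_cast c1)
    (by exact_mod_cast c2)
  have by' := box_real (K * h : ℕ) r t y (x + y) (t * y * (x + y) : ℕ) (t * x * (x + y) : ℕ) hn hr0 hr1
    ht' (Nat.cast_nonneg _) (by push_cast; ring) (by push_cast; ring)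
    (by rw [hnr]; exact_mod_cast c1) (by exact_mod_cast c2) (by rw [hnr]; exact_mod_cast b1)
    (by exact_mod_cast b2)
  set Z := Real.sqrt (((K * h : ℕ) : ℝ) / t) with hZ
  have hZ2 : Z ^ 2 = ((K * h : ℕ) : ℝ) / t := Real.sq_sqrt (by positivity)
  have hZ0 : 0 ≤ Z := Real.sqrt_nonneg _
  set u : ℝ := 5 * Z / K with hu
  have hZu : Z / r ≤ r * Z + u := by
    rw [div_le_iff₀ hr0]
    have e1 : u = 5 / 2 * (2 / K) * Z := by rw [hu]; field_simp
    rw [e1, hr]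
    set d := 2 / (K : ℝ)
    have : 0 ≤ d * (1 / 2 - 3 / 2 * d) := mul_nonneg hd0.le (by linarith)
    nlinarith
  have hu1 : 1 ≤ u := by
    rcases lt_or_gt_of_ne hxy with h | h
    · have : (x : ℝ) + 1 ≤ y := by exact_mod_cast h
      linarith [bx.1, by'.2]
    · have : (y : ℝ) + 1 ≤ x := by exact_mod_cast h
      linarith [bx.2, by'.1]
  have hf : 0 < ⌊u⌋₊ := Nat.floor_pos.2 hu1
  set k := Nat.log 2 ⌊u⌋₊ with hk
  have k1 : (2 : ℝ) ^ k ≤ u := by
    have : 2 ^ k ≤ ⌊u⌋₊ := Nat.pow_log_le_self 2 hf.ne'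
    have h2 : ((2 ^ k : ℕ) : ℝ) ≤ u := (Nat.cast_le.2 this).trans (Nat.floor_le (by linarith))
    exact_mod_cast h2
  have k2 : u < (2 : ℝ) ^ (k + 1) := by
    have : ⌊u⌋₊ < 2 ^ (k + 1) := Nat.lt_pow_succ_log_self (by norm_num) _
    have h2 : u < ((2 ^ (k + 1) : ℕ) : ℝ) := (Nat.floor_lt (by linarith)).1 this
    exact_mod_cast h2
  have k3 : (1 : ℝ) ≤ 2 ^ (k + 1) := one_le_pow₀ (by norm_num)
  have f1 : (XX K h t : ℝ) ≤ r * Z := Nat.floor_le (by positivity)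
  have f2 : r * Z < XX K h t + 1 := Nat.lt_floor_add_one _
  have mem : ∀ v : ℕ, r * Z < v → v < Z / r → v ∈ Ico (XX K h t) (XX K h t + 2 ^ (k + 2)) := by
    intro v v1 v2
    have g1 : (XX K h t : ℝ) < v := by linarith
    have g2 : (v : ℝ) < XX K h t + 2 ^ (k + 2) := by rw [pow_succ]; linarith
    exact mem_Ico.2 ⟨by exact_mod_cast g1.le, by exact_mod_cast g2⟩
  refine ⟨k + 2, ?_, ht, mem x bx.1 bx.2, mem y by'.1 by'.2⟩
  have g1 : ((2 : ℝ) ^ k) ^ 2 ≤ u ^ 2 := pow_le_pow_left₀ (by positivity) k1 2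
  have g2 : u ^ 2 * (t * K) = 25 * h := by
    rw [hu, div_pow, mul_pow, hZ2]; push_cast; field_simp; ring
  have g3 : (4 : ℝ) ^ (k + 2) = 16 * ((2 : ℝ) ^ k) ^ 2 := by
    rw [← pow_mul, mul_comm k 2, pow_mul, pow_add]; norm_num; ring
  have g4 : (t : ℝ) * 4 ^ (k + 2) * K ≤ 400 * h := by
    rw [g3]
    have := mul_le_mul_of_nonneg_right g1 (show (0 : ℝ) ≤ t * K by positivity)
    nlinarith
  exact_mod_cast g4

open Classical in
/-- few numbers `a` have a representation `1/a = 1/b + 1/c` with good `b ≠ c` in the top window -/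
lemma edge_card (K h : ℕ) (hK : 400 ≤ K) (hh : 0 < h) (E : Finset ℕ)
    (hE : ∀ a ∈ E, ∃ b ∈ Ioc (2 * (K * h) - 4 * h) (2 * (K * h)),
      ∃ c ∈ Ioc (2 * (K * h) - 4 * h) (2 * (K * h)), b ≠ c ∧ Good h b ∧ Good h c ∧
        a * (b + c) = b * c) :
    (E.card : ℝ) * K ≤ 400 * h * C1 * (584 * Real.exp 161) := by
  set Bn := 400 * h / K with hBn
  set J0 := Nat.log 4 Bn with hJ0
  let T : ℕ → Finset (Σ _ : ℕ, Σ _ : ℕ, ℕ) := fun j =>
    ((Ico 1 (1 + Bn / 4 ^ j)).sigma fun t => (Ico (XX K h t) (XX K h t + 2 ^ j)).sigma fun _ =>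
      Ico (XX K h t) (XX K h t + 2 ^ j)).filter fun w =>
        Good h (w.1 * w.2.1 * (w.2.1 + w.2.2)) ∧ Good h (w.1 * w.2.2 * (w.2.1 + w.2.2))
  have hC1 : 0 < C1 := by unfold C1; positivity
  rcases E.eq_empty_or_nonempty with rfl | ⟨a0, ha0⟩
  · simp only [card_empty, Nat.cast_zero, zero_mul]; positivity
  have hsub : ∀ a ∈ E, ∃ j, 4 ^ j ≤ Bn ∧ a ∈ (T j).image fun w => w.1 * w.2.1 * w.2.2 := by
    intro a ha
    obtain ⟨b, hb, c, hc, hbc, gb, gc, he⟩ := hE a ha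
    have hb0 : 0 < b := by have := (mem_Ioc.1 hb).1; omega
    obtain ⟨t, x, y, rfl, rfl, rfl⟩ := param a b c hb0 he
    obtain ⟨j, j1, j2, j3, j4⟩ := box_nat K h t x y hK hh (by rintro rfl; exact hbc rfl) hb hc
    have j5 : t * 4 ^ j ≤ Bn := (Nat.le_div_iff_mul_le (by omega)).2 j1
    refine ⟨j, le_trans (Nat.le_mul_of_pos_left _ j2) j5, mem_image.2 ⟨⟨t, x, y⟩, ?_, rfl⟩⟩
    refine mem_filter.2 ⟨mem_sigma.2 ⟨mem_Ico.2 ⟨j2, ?_⟩, mem_sigma.2 ⟨j3, j4⟩⟩, gb, gc⟩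
    have : t ≤ Bn / 4 ^ j := (Nat.le_div_iff_mul_le (by positivity)).2 j5
    simp only; omega
  have hB0 : Bn ≠ 0 := by
    obtain ⟨j, hj, -⟩ := hsub a0 ha0
    have : 0 < 4 ^ j := by positivity
    omega
  have hJ : 4 ^ J0 ≤ Bn := Nat.pow_log_le_self 4 hB0
  have hBh : Bn ≤ h := by
    rw [hBn]; apply Nat.div_le_of_le_mul; nlinarith
  have h1 : E ⊆ (range (J0 + 1)).biUnion fun j => (T j).image fun w => w.1 * w.2.1 * w.2.2 := by
    intro a ha
    obtain ⟨j, hj, hj2⟩ := hsub a ha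
    exact mem_biUnion.2 ⟨j, mem_range.2 (Nat.lt_succ_of_le
      (Nat.le_log_of_pow_le (by norm_num) hj)), hj2⟩
  have h2 : E.card ≤ ∑ j ∈ range (J0 + 1), (T j).card :=
    (card_le_card h1).trans (card_biUnion_le.trans (sum_le_sum fun j _ => card_image_le))
  have h3 : ∀ j ∈ range (J0 + 1), ((T j).card : ℝ) ≤
      Bn * C1 * (ph (lev j) + ph (lev (J0 - j))) := by
    intro j hj
    have hj' : j ≤ J0 := Nat.lt_succ_iff.1 (mem_range.1 hj)
    have b1 : 2 ^ min j (J0 - j) ≤ Bn / 4 ^ j := by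
      rw [Nat.le_div_iff_mul_le (by positivity)]
      calc 2 ^ min j (J0 - j) * 4 ^ j ≤ 4 ^ (J0 - j) * 4 ^ j :=
            Nat.mul_le_mul_right _ ((Nat.pow_le_pow_right (by norm_num) (min_le_right _ _)).trans
              (Nat.pow_le_pow_left (by norm_num) _))
        _ = 4 ^ J0 := by rw [← pow_add, Nat.sub_add_cancel hj']
        _ ≤ Bn := hJ
    have b2 := box_count h (min j (J0 - j)) (Bn / 4 ^ j) (2 ^ j) (XX K h) b1
      (Nat.pow_le_pow_right (by norm_num) (min_le_left _ _))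
      (b1.trans ((Nat.div_le_self _ _).trans hBh))
    have b3 : ((T j).card : ℝ) = ∑ t ∈ Ico 1 (1 + Bn / 4 ^ j),
        ∑ x ∈ Ico (XX K h t) (XX K h t + 2 ^ j), ∑ y ∈ Ico (XX K h t) (XX K h t + 2 ^ j),
        (if Good h (t * x * (x + y)) ∧ Good h (t * y * (x + y)) then (1 : ℝ) else 0) := by
      simp only [T]
      rw [card_filter, sum_sigma]
      push_cast
      refine sum_congr rfl fun t _ => ?_
      rw [sum_sigma]
    rw [b3]
    refine b2.trans ?_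
    have b4 : ((Bn / 4 ^ j : ℕ) : ℝ) * ((2 ^ j : ℕ) : ℝ) ^ 2 ≤ Bn := by
      have : Bn / 4 ^ j * (2 ^ j) ^ 2 ≤ Bn := by
        rw [← pow_mul, mul_comm j 2, pow_mul]; exact Nat.div_mul_le_self _ _
      exact_mod_cast this
    have b5 : ph (lev (min j (J0 - j))) ≤ ph (lev j) + ph (lev (J0 - j)) := by
      have := ph_pos (lev j); have := ph_pos (lev (J0 - j))
      rcases min_choice j (J0 - j) with h | h <;> rw [h] <;> linarith
    exact mul_le_mul (mul_le_mul_of_nonneg_right b4 hC1.le) b5 (ph_pos _).le (by positivity)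
  have h4 : (E.card : ℝ) ≤ Bn * C1 * (584 * Real.exp 161) := by
    calc (E.card : ℝ) ≤ ((∑ j ∈ range (J0 + 1), (T j).card : ℕ) : ℝ) := by exact_mod_cast h2
      _ ≤ ∑ j ∈ range (J0 + 1), Bn * C1 * (ph (lev j) + ph (lev (J0 - j))) := by
          rw [Nat.cast_sum]; exact sum_le_sum h3
      _ ≤ _ := by
          rw [← mul_sum, sum_add_distrib, sum_flip (fun j => ph (lev j))]
          apply mul_le_mul_of_nonneg_left _ (by positivity)
          linarith [sum_lev (J0 + 1)]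
  have h5 : (Bn : ℝ) * K ≤ 400 * h := by
    have : Bn * K ≤ 400 * h := Nat.div_mul_le_self _ _
    exact_mod_cast this
  have h6 : 0 ≤ C1 * (584 * Real.exp 161) := by positivity
  calc (E.card : ℝ) * K ≤ Bn * C1 * (584 * Real.exp 161) * K :=
        mul_le_mul_of_nonneg_right h4 (Nat.cast_nonneg _)
    _ = (Bn * K) * (C1 * (584 * Real.exp 161)) := by ring
    _ ≤ (400 * h) * (C1 * (584 * Real.exp 161)) := mul_le_mul_of_nonneg_right h5 h6
    _ = _ := by ring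

end Pool.Agent.KS6_38.Adm
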