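import Pool.Agent.KS6_38.Adm.Brun3

set_option autoImplicit false

namespace Pool.Agent.KS6_38.Adm
open Finset

noncomputable def wg (α β γ δ : ℕ → ℝ) (p t x y : ℕ) : ℝ :=
  if p ∣ t then α p else if p ∣ x then β p else if p ∣ y then γ p else
    if p ∣ x + y then δ p else 1

lemma inner2 (P : Finset ℕ) (μ y0 : ℕ) (hP : ∀ p ∈ P, p.Prime ∧ 4 ≤ p ∧ p ≤ 2 ^ y0)
    (hμ : ∑ p ∈ P, (1 : ℝ) / p ≤ μ) (α β γ δ : ℕ → ℝ) (hα : ∀ p, 0 ≤ α p) (hβ : ∀ p, 0 ≤ β p)
    (hγ : ∀ p, 0 ≤ γ p ∧ γ p ≤ 1) (hδ : ∀ p, 0 ≤ δ p ∧ δ p ≤ 1)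
    (t x Y H : ℕ) (hH : 2 ^ ((y0 + 1) * (36 * μ + 1)) ≤ H) :
    ∑ y ∈ Ico Y (Y + H), ∏ p ∈ P, wg α β γ δ p t x y ≤
      2 * H * ∏ p ∈ P, (if p ∣ x then (if p ∣ t then α p else β p) else
        (if p ∣ t then α p else 1 - (2 - γ p - δ p) / p)) := by
  let a : ℕ → ℕ → ℝ := fun y p => if p ∣ t ∨ p ∣ x then 0 else
    (if p ∣ 0 + y then 1 - γ p else 0) + (if p ∣ x + y then 1 - δ p else 0)
  have hs : ∀ p ∈ P, ∑ y ∈ range p, a y p = if p ∣ t ∨ p ∣ x then 0 else 2 - γ p - δ p := by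
    intro p hp
    simp only [a]
    split_ifs with h
    · simp
    · rw [sum_add_distrib, sum_range_dvd p (hP p hp).1.pos, sum_range_dvd p (hP p hp).1.pos]
      ring
  have key := sieve1 P μ y0 hP hμ a
    (fun y p => by
      have := hγ p; have := hδ p
      simp only [a]; split_ifs <;> linarith)
    (fun y p => by
      have := hγ p; have := hδ p
      simp only [a]
      split_ifs with h1 h2 h3 <;> try linarith
      rw [zero_add] at h2
      exact absurd (Or.inr ((Nat.dvd_add_left h2).1 h3)) h1)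
    (fun p _ y => by simp [a, ← add_assoc])
    (fun p hp => by
      have := hγ p; have := hδ p
      rw [hs p hp]; split_ifs <;> linarith) Y H hH
  let c : ℕ → ℝ := fun p => if p ∣ t then α p else if p ∣ x then β p else 1
  have e1 : ∀ y, ∏ p ∈ P, wg α β γ δ p t x y = (∏ p ∈ P, c p) * ∏ p ∈ P, (1 - a y p) := by
    intro y
    rw [← prod_mul_distrib]
    refine prod_congr rfl fun p _ => ?_
    simp only [wg, c, a, zero_add]
    by_cases h1 : p ∣ t
    · simp [h1]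
    by_cases h2 : p ∣ x
    · simp [h1, h2]
    by_cases h3 : p ∣ y
    · have h4 : ¬ p ∣ x + y := fun h => h2 ((Nat.dvd_add_left h3).1 h)
      simp [h1, h2, h3, h4]
    by_cases h4 : p ∣ x + y
    · simp [h1, h2, h3, h4]
    · simp [h1, h2, h3, h4]
  have e2 : ∏ p ∈ P, (if p ∣ x then (if p ∣ t then α p else β p) else
        (if p ∣ t then α p else 1 - (2 - γ p - δ p) / p)) =
      (∏ p ∈ P, c p) * ∏ p ∈ P, (1 - (∑ y ∈ range p, a y p) / p) := by
    rw [← prod_mul_distrib]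
    refine prod_congr rfl fun p hp => ?_
    rw [hs p hp]
    simp only [c]
    by_cases h1 : p ∣ t <;> by_cases h2 : p ∣ x <;> simp [h1, h2]
  simp only [e1]
  rw [← mul_sum, e2]
  have hc : 0 ≤ ∏ p ∈ P, c p := prod_nonneg fun p _ => by
    have := hα p; have := hβ p
    simp only [c]; split_ifs <;> linarith
  calc _ ≤ (∏ p ∈ P, c p) * _ := mul_le_mul_of_nonneg_left key hc
    _ = _ := by ring

lemma triple2 (P Q : Finset ℕ) (μ y0 μ' y0' : ℕ) (hP : ∀ p ∈ P, p.Prime ∧ 4 ≤ p ∧ p ≤ 2 ^ y0)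
    (hμ : ∑ p ∈ P, (1 : ℝ) / p ≤ μ) (hQ : ∀ p ∈ Q, p.Prime ∧ 4 ≤ p ∧ p ≤ 2 ^ y0')
    (hμ' : ∑ p ∈ Q, (1 : ℝ) / p ≤ μ') (α β γ δ : ℕ → ℝ) (hα : ∀ p, 0 ≤ α p ∧ α p ≤ 1)
    (hα' : ∀ p ∈ P, α p ≤ 1 / 3) (hβ : ∀ p, 0 ≤ β p ∧ β p ≤ 1 / 2)
    (hγ : ∀ p, 0 ≤ γ p ∧ γ p ≤ 1) (hδ : ∀ p, 0 ≤ δ p ∧ δ p ≤ 1) (T X Y L H1 H2 : ℕ)
    (hL : Q = ∅ ∨ 2 ^ ((y0' + 1) * (36 * μ' + 1)) ≤ L)
    (hH1 : 2 ^ ((y0 + 1) * (36 * μ + 1)) ≤ H1) (hH2 : 2 ^ ((y0 + 1) * (36 * μ + 1)) ≤ H2) :
    ∑ t ∈ Ico T (T + L), ∑ x ∈ Ico X (X + H1), ∑ y ∈ Ico Y (Y + H2),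
      (∏ p ∈ Q \ P, (if p ∣ t then α p else 1)) * ∏ p ∈ P, wg α β γ δ p t x y ≤
      8 * L * H1 * H2 * Real.exp (2 - ∑ p ∈ P, (3 - β p - γ p - δ p) * (1 / p) -
        ∑ p ∈ Q, (1 - α p) * (1 / p)) := by
  have hi : ∀ p ∈ P, (0 : ℝ) < 1 / p ∧ (1 : ℝ) / p ≤ 1 / 4 := fun p hp => by
    have h4 : (4 : ℝ) ≤ p := by exact_mod_cast (hP p hp).2.1
    exact ⟨by positivity, one_div_le_one_div_of_le (by norm_num) h4⟩
  have hiQ : ∀ p ∈ Q, (0 : ℝ) < 1 / p ∧ (1 : ℝ) / p ≤ 1 / 4 := fun p hp => by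
    have h4 : (4 : ℝ) ≤ p := by exact_mod_cast (hQ p hp).2.1
    exact ⟨by positivity, one_div_le_one_div_of_le (by norm_num) h4⟩
  let g : ℕ → ℝ := fun p => 1 - (2 - γ p - δ p) / p
  let g' : ℕ → ℝ := fun p => g p - (g p - β p) / p
  have hg : ∀ p ∈ P, 1 / 2 ≤ g p ∧ g p ≤ 1 := fun p hp => by
    have := hi p hp; have := hγ p; have := hδ p
    simp only [g]; rw [div_eq_mul_one_div (2 - γ p - δ p)]
    constructor <;> nlinarith
  have hg' : ∀ p ∈ P, 3 / 8 ≤ g' p ∧ g' p ≤ 1 := fun p hp => by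
    have := hi p hp; have := hg p hp; have := hβ p
    simp only [g']; rw [div_eq_mul_one_div (g p - β p)]
    constructor <;> nlinarith
  have hg'e : ∀ p : ℕ, g' p = 1 - (3 - β p - γ p - δ p) * (1 / p) +
      (2 - γ p - δ p) * (1 / p) ^ 2 := fun p => by simp only [g', g]; ring
  have hH10 : (0 : ℝ) ≤ H1 := Nat.cast_nonneg _
  have hH20 : (0 : ℝ) ≤ H2 := Nat.cast_nonneg _
  have hL0 : (0 : ℝ) ≤ L := Nat.cast_nonneg _
  have mid : ∀ t, ∑ x ∈ Ico X (X + H1), ∑ y ∈ Ico Y (Y + H2), ∏ p ∈ P, wg α β γ δ p t x y ≤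
      4 * H1 * H2 * ∏ p ∈ P, (if p ∣ t then α p else g' p) := by
    intro t
    refine (sum_le_sum fun x _ => inner2 P μ y0 hP hμ α β γ δ (fun p => (hα p).1)
      (fun p => (hβ p).1) hγ hδ t x Y H2 hH2).trans ?_
    rw [← mul_sum]
    -- primes dividing `t` carry a constant weight
    have e0 : ∀ x, ∏ p ∈ P, (if p ∣ x then (if p ∣ t then α p else β p) else
        (if p ∣ t then α p else 1 - (2 - γ p - δ p) / p)) =
        (∏ p ∈ P, (if p ∣ t then α p else 1)) *
          ∏ p ∈ P, (if p ∣ x then (if p ∣ t then 1 else β p) else (if p ∣ t then 1 else g p)) := by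
      intro x
      rw [← prod_mul_distrib]
      refine prod_congr rfl fun p _ => ?_
      split_ifs <;> simp [g]
    simp only [e0]
    rw [← mul_sum]
    have key := sieve2 P μ y0 hP hμ (fun p => if p ∣ t then 1 else β p)
      (fun p => if p ∣ t then 1 else g p)
      (fun p _ => by have := hβ p; split_ifs <;> linarith)
      (fun p hp => by have := hβ p; have := hg p hp; split_ifs <;> linarith)
      (fun p hp => by have := hg p hp; split_ifs <;> linarith) X H1 hH1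
    have e : (∏ p ∈ P, (if p ∣ t then α p else 1)) * ∏ p ∈ P, ((if p ∣ t then 1 else g p : ℝ) -
        ((if p ∣ t then 1 else g p : ℝ) - (if p ∣ t then 1 else β p : ℝ)) / p) =
        ∏ p ∈ P, (if p ∣ t then α p else g' p) := by
      rw [← prod_mul_distrib]
      refine prod_congr rfl fun p _ => ?_
      split_ifs <;> simp [g']
    have hc : 0 ≤ ∏ p ∈ P, (if p ∣ t then α p else 1) :=
      prod_nonneg fun p _ => by have := hα p; split_ifs <;> linarith
    rw [← e]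
    calc _ ≤ 2 * H2 * ((∏ p ∈ P, (if p ∣ t then α p else 1)) * _) :=
          mul_le_mul_of_nonneg_left (mul_le_mul_of_nonneg_left key hc) (by positivity)
      _ = _ := by ring
  let gh : ℕ → ℝ := fun p => if p ∈ P then g' p else 1
  have hgh : ∀ p, 3 / 8 ≤ gh p ∧ α p ≤ gh p ∧ gh p ≤ 1 := fun p => by
    simp only [gh]
    split_ifs with h
    · have := hg' p h; have := hα' p h; exact ⟨by linarith, by linarith, by linarith⟩
    · exact ⟨by norm_num, (hα p).2, le_rfl⟩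
  have step : ∀ t, (∏ p ∈ Q \ P, (if p ∣ t then α p else 1)) *
      ∏ p ∈ P, (if p ∣ t then α p else g' p) ≤
      (∏ p ∈ P \ Q, g' p) * ∏ p ∈ Q, (if p ∣ t then α p else gh p) := by
    intro t
    rw [← prod_inter_mul_prod_sdiff P Q, ← prod_inter_mul_prod_sdiff Q P, inter_comm Q P]
    have a1 : ∏ p ∈ Q \ P, (if p ∣ t then α p else gh p) =
        ∏ p ∈ Q \ P, (if p ∣ t then α p else 1) :=
      prod_congr rfl fun p hp => by simp only [gh, if_neg (mem_sdiff.1 hp).2]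
    have a2 : ∏ p ∈ P ∩ Q, (if p ∣ t then α p else gh p) =
        ∏ p ∈ P ∩ Q, (if p ∣ t then α p else g' p) :=
      prod_congr rfl fun p hp => by simp only [gh, if_pos (mem_inter.1 hp).1]
    have a3 : ∏ p ∈ P \ Q, (if p ∣ t then α p else g' p) ≤ ∏ p ∈ P \ Q, g' p := by
      apply prod_le_prod
      · intro p hp
        have := hα p; have := hg' p (mem_sdiff.1 hp).1
        split_ifs <;> linarith
      · intro p hp
        have := hα' p (mem_sdiff.1 hp).1; have := hg' p (mem_sdiff.1 hp).1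
        split_ifs <;> linarith
    have a4 : 0 ≤ ∏ p ∈ Q \ P, (if p ∣ t then α p else 1) :=
      prod_nonneg fun p _ => by have := hα p; split_ifs <;> linarith
    have a5 : 0 ≤ ∏ p ∈ P ∩ Q, (if p ∣ t then α p else g' p) :=
      prod_nonneg fun p hp => by
        have := hα p; have := hg' p (mem_inter.1 hp).1
        split_ifs <;> linarith
    rw [a1, a2]
    have := mul_le_mul_of_nonneg_left a3 (mul_nonneg a4 a5)
    linarith
  have key : ∑ t ∈ Ico T (T + L), ∏ p ∈ Q, (if p ∣ t then α p else gh p) ≤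
      2 * L * ∏ p ∈ Q, (gh p - (gh p - α p) / p) := by
    rcases hL with rfl | hL
    · simp; linarith
    · exact sieve2 Q μ' y0' hQ hμ' α gh (fun p _ => (hα p).1) (fun p _ => (hgh p).2.1)
        (fun p _ => by linarith [(hgh p).1]) T L hL
  have fin : (∏ p ∈ P \ Q, g' p) * ∏ p ∈ Q, (gh p - (gh p - α p) / p) ≤
      Real.exp (2 - ∑ p ∈ P, (3 - β p - γ p - δ p) * (1 / p) - ∑ p ∈ Q, (1 - α p) * (1 / p)) := by
    let c : ℕ → ℝ := fun p => 5 * (1 / (p : ℝ) ^ 2) - (3 - β p - γ p - δ p) * (1 / p)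
    have b1 : ∏ p ∈ P \ Q, g' p ≤ Real.exp (∑ p ∈ P \ Q, c p) := by
      rw [Real.exp_sum]
      apply prod_le_prod
      · intro p hp; linarith [(hg' p (mem_sdiff.1 hp).1).1]
      · intro p hp
        refine le_trans ?_ (Real.add_one_le_exp _)
        have := hγ p; have := hδ p
        have h2 : 0 ≤ (1 / (p : ℝ)) ^ 2 := by positivity
        simp only [c]
        rw [hg'e, ← one_div_pow]
        nlinarith
    have b2 : ∏ p ∈ Q, (gh p - (gh p - α p) / p) ≤
        Real.exp (∑ p ∈ Q, ((if p ∈ P then c p else 0) - (1 - α p) * (1 / p))) := by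
      rw [Real.exp_sum]
      apply prod_le_prod
      · intro p hp
        have := hiQ p hp; have := hgh p; have := hα p
        rw [div_eq_mul_one_div (gh p - α p)]
        nlinarith
      · intro p hp
        refine le_trans ?_ (Real.add_one_le_exp _)
        have h1 := hiQ p hp; have := hγ p; have := hδ p; have := hβ p
        rw [div_eq_mul_one_div (gh p - α p)]
        simp only [gh, c]
        split_ifs with h
        · rw [hg'e, ← one_div_pow]
          set u := 1 / (p : ℝ)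
          have h2 : 0 ≤ u ^ 2 := by positivity
          have h3 : 0 ≤ (2 - γ p - δ p) * u ^ 3 := mul_nonneg (by linarith) (by positivity)
          have h4 : 0 ≤ (β p + 2 * γ p + 2 * δ p) * u ^ 2 := mul_nonneg (by linarith) h2
          nlinarith
        · linarith
    have b3 : 0 ≤ ∏ p ∈ Q, (gh p - (gh p - α p) / p) := prod_nonneg fun p hp => by
      have := hiQ p hp; have := hgh p; have := hα p
      rw [div_eq_mul_one_div (gh p - α p)]
      nlinarith
    refine (mul_le_mul b1 b2 b3 (Real.exp_pos _).le).trans ?_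
    rw [← Real.exp_add]
    apply Real.exp_le_exp.2
    rw [sum_sub_distrib (s := Q), sum_ite_mem, inter_comm Q P]
    have b4 := sum_inter_add_sum_sdiff P Q c
    have b5 : ∑ p ∈ P, c p ≤ 2 - ∑ p ∈ P, (3 - β p - γ p - δ p) * (1 / p) := by
      simp only [c]
      rw [sum_sub_distrib, ← mul_sum]
      have := sum_inv_sq_le 3 (2 ^ y0) (by norm_num) P fun p hp =>
        ⟨by have := (hP p hp).2.1; omega, (hP p hp).2.2⟩
      push_cast at this
      linarith
    linarith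
  have hc : ∀ t, 0 ≤ ∏ p ∈ Q \ P, (if p ∣ t then α p else 1) := fun t =>
    prod_nonneg fun p _ => by have := hα p; split_ifs <;> linarith
  have hg0 : 0 ≤ ∏ p ∈ P \ Q, g' p := prod_nonneg fun p hp => by
    linarith [(hg' p (mem_sdiff.1 hp).1).1]
  calc _ ≤ ∑ t ∈ Ico T (T + L), 4 * H1 * H2 *
        ((∏ p ∈ P \ Q, g' p) * ∏ p ∈ Q, (if p ∣ t then α p else gh p)) := by
        refine sum_le_sum fun t _ => ?_
        simp only [← mul_sum]
        refine (mul_le_mul_of_nonneg_left (mid t) (hc t)).trans ?_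
        have := mul_le_mul_of_nonneg_left (step t) (show (0 : ℝ) ≤ 4 * H1 * H2 by positivity)
        linarith
    _ ≤ 4 * H1 * H2 * ((∏ p ∈ P \ Q, g' p) * (2 * L * ∏ p ∈ Q, (gh p - (gh p - α p) / p))) := by
        rw [← mul_sum, ← mul_sum]
        exact mul_le_mul_of_nonneg_left (mul_le_mul_of_nonneg_left key hg0) (by positivity)
    _ = 8 * L * H1 * H2 * ((∏ p ∈ P \ Q, g' p) * ∏ p ∈ Q, (gh p - (gh p - α p) / p)) := by ring
    _ ≤ _ := mul_le_mul_of_nonneg_left fin (by positivity)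

/-- indicator of the class `2 mod 12` -/
noncomputable def chi (a : ℕ) : ℝ := if a % 12 = 2 then 1 else 0

lemma chi_mem (a : ℕ) : 0 ≤ chi a ∧ chi a ≤ 1 := by unfold chi; split_ifs <;> norm_num

/-- averages of divisibility weights on the class `2 mod 12` -/
lemma avg (U : Finset ℕ) (hU : ∀ p ∈ U, p.Prime ∧ 4 ≤ p) (u g : ℕ → ℝ)
    (hu : ∀ p, 0 ≤ u p ∧ u p ≤ 1) (hg : ∀ p, 0 ≤ g p ∧ g p ≤ 1) (Y H : ℕ) :
    |∑ a ∈ Ico Y (Y + H), chi a * ∏ p ∈ U, (if p ∣ a then u p else g p) -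
      H / 12 * ∏ p ∈ U, (g p - (g p - u p) / p)| ≤ 12 * ∏ p ∈ U, (p : ℝ) := by
  obtain ⟨c1, c2⟩ := sum_crt_prod (fun a p => if p ∣ a then u p else g p) U
    (fun p hp => (hU p hp).1) (fun p _ y => by simp)
  have hpos : 0 < ∏ p ∈ U, p := prod_pos fun p hp => (hU p hp).1.pos
  have co : Nat.Coprime 12 (∏ p ∈ U, p) := by
    apply Nat.Coprime.prod_right
    intro p hp
    have h2 : Nat.Coprime 2 p := (Nat.coprime_primes Nat.prime_two (hU p hp).1).2
      (by have := (hU p hp).2; omega)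
    have h3 : Nat.Coprime 3 p := (Nat.coprime_primes Nat.prime_three (hU p hp).1).2
      (by have := (hU p hp).2; omega)
    exact Nat.Coprime.mul_left (Nat.Coprime.mul_left h2 h2) h3
  have c0 : Function.Periodic chi 12 := fun a => by simp [chi]
  have c3 := sum_crt chi _ 12 _ (by norm_num) hpos co c0 c1
  have c4 : ∑ y ∈ range 12, chi y = 1 := by simp only [sum_range_succ, chi]; norm_num
  have c5 : Function.Periodic (fun a => chi a * ∏ p ∈ U, (if p ∣ a then u p else g p))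
      (12 * ∏ p ∈ U, p) := by
    intro y
    have h1 := (c0.nat_mul (∏ p ∈ U, p)) y
    have h2 := (c1.nat_mul 12) y
    simp only [Nat.cast_id] at h1 h2
    simp only
    rw [h2, mul_comm 12, h1]
  have hw : ∀ a p, 0 ≤ (if p ∣ a then u p else g p) ∧ (if p ∣ a then u p else g p) ≤ 1 := by
    intro a p; split_ifs
    · exact hu p
    · exact hg p
  have c6 := sum_interval _ _ (by positivity) c5
    (fun a => mul_nonneg (chi_mem a).1 (prod_nonneg fun p _ => (hw a p).1))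
    (fun a => mul_le_one₀ (chi_mem a).2 (prod_nonneg fun p _ => (hw a p).1)
      (prod_le_one (fun p _ => (hw a p).1) fun p _ => (hw a p).2)) Y H
  rw [c3, c4, c2, one_mul] at c6
  have c7 : ∏ p ∈ U, (g p - (g p - u p) / p) =
      (∏ p ∈ U, ∑ y ∈ range p, if p ∣ y then u p else g p) / ∏ p ∈ U, (p : ℝ) := by
    rw [← prod_div_distrib]
    refine prod_congr rfl fun p hp => ?_
    have h1 := sum_range_dvd p (hU p hp).1.pos (u p - g p) 0
    have h2 : ∑ y ∈ range p, (if p ∣ y then u p else g p) =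
        ∑ y ∈ range p, ((if p ∣ 0 + y then u p - g p else 0) + g p) :=
      sum_congr rfl fun y _ => by rw [zero_add]; split_ifs <;> ring
    have h3 : (p : ℝ) ≠ 0 := by exact_mod_cast (hU p hp).1.pos.ne'
    rw [h2, sum_add_distrib, h1, sum_const, card_range, nsmul_eq_mul]
    field_simp; ring
  rw [c7]
  push_cast at c6
  convert c6 using 3
  ring

end Pool.Agent.KS6_38.Adm
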