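import Pool.Agent.KS6_38.Adm.Brun4

set_option autoImplicit false

namespace Pool.Agent.KS6_38.Adm
open Finset

noncomputable def WW (P0 : Finset ℕ) (w : ℕ → ℝ) (a : ℕ) : ℝ :=
  ∏ p ∈ P0, (if p ∣ a then w p else 1)
noncomputable def rho (w : ℕ → ℝ) (p : ℕ) : ℝ := 1 - (1 - w p) / p
noncomputable def piw (w : ℕ → ℝ) (p : ℕ) : ℝ := w p / p / rho w p

lemma WW_mem (P0 : Finset ℕ) (w : ℕ → ℝ) (hw : ∀ p, 0 ≤ w p ∧ w p ≤ 1) (a : ℕ) :
    0 ≤ WW P0 w a ∧ WW P0 w a ≤ 1 := by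
  have h : ∀ p, 0 ≤ (if p ∣ a then w p else 1) ∧ (if p ∣ a then w p else 1) ≤ 1 := fun p => by
    split_ifs
    · exact hw p
    · norm_num
  exact ⟨prod_nonneg fun p _ => (h p).1, prod_le_one (fun p _ => (h p).1) fun p _ => (h p).2⟩

lemma rho_ge (w : ℕ → ℝ) (hw : ∀ p, 0 ≤ w p ∧ w p ≤ 1) (p : ℕ) (hp : 4 ≤ p) :
    3 / 4 ≤ rho w p ∧ rho w p ≤ 1 := by
  have h4 : (4 : ℝ) ≤ p := by exact_mod_cast hp
  have h1 : (1 : ℝ) / p ≤ 1 / 4 := one_div_le_one_div_of_le (by norm_num) h4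
  have h0 : (0 : ℝ) < 1 / p := by positivity
  have := hw p
  unfold rho
  rw [div_eq_mul_one_div (1 - w p)]
  constructor <;> nlinarith

lemma piw_le (w : ℕ → ℝ) (hw : ∀ p, 0 ≤ w p ∧ w p ≤ 1) (p : ℕ) (hp : 4 ≤ p) :
    0 ≤ piw w p ∧ piw w p ≤ 1 / p ∧ piw w p ≤ w p * (1 / p) + 2 * (1 / (p : ℝ) ^ 2) := by
  have h4 : (4 : ℝ) ≤ p := by exact_mod_cast hp
  have h1 : (1 : ℝ) / p ≤ 1 / 4 := one_div_le_one_div_of_le (by norm_num) h4
  have h0 : (0 : ℝ) < 1 / p := by positivity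
  have h2 := hw p
  have h3 := rho_ge w hw p hp
  have h5 : 0 < rho w p := by linarith
  unfold piw
  refine ⟨div_nonneg (div_nonneg h2.1 (by linarith)) h5.le, ?_, ?_⟩
  · rw [div_le_iff₀ h5, div_eq_mul_one_div (w p)]
    unfold rho
    rw [div_eq_mul_one_div (1 - w p)]
    have : 0 ≤ (1 - w p) * (1 - 1 / (p : ℝ)) := mul_nonneg (by linarith) (by linarith)
    nlinarith
  · rw [div_le_iff₀ h5, div_eq_mul_one_div (w p), ← one_div_pow]
    have h6 : rho w p = 1 - (1 - w p) * (1 / p) := by unfold rho; ring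
    set u := 1 / (p : ℝ)
    have h7 : w p * (1 - w p) ≤ 1 := by nlinarith
    have h8 : 0 ≤ u ^ 2 := by positivity
    have h9 : w p * u * rho w p = w p * u - w p * (1 - w p) * u ^ 2 := by rw [h6]; ring
    nlinarith

lemma avgT (P0 T : Finset ℕ) (hP0 : ∀ p ∈ P0, p.Prime ∧ 4 ≤ p) (hT : ∀ p ∈ T, p.Prime ∧ 4 ≤ p)
    (w : ℕ → ℝ) (hw : ∀ p, 0 ≤ w p ∧ w p ≤ 1) (hw1 : ∀ p, p ∉ P0 → w p = 1) (Y H : ℕ) :
    |∑ a ∈ Ico Y (Y + H), chi a * WW P0 w a * ∏ p ∈ T, ind p a -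
      H / 12 * (∏ p ∈ P0, rho w p) * ∏ p ∈ T, piw w p| ≤
      12 * (∏ p ∈ P0, (p : ℝ)) * ∏ p ∈ T, (p : ℝ) := by
  have hU : ∀ p ∈ P0 ∪ T, p.Prime ∧ 4 ≤ p := fun p hp => by
    rcases mem_union.1 hp with h | h
    · exact hP0 p h
    · exact hT p h
  have key := avg (P0 ∪ T) hU w (fun p => if p ∈ T then 0 else 1) hw
    (fun p => by split_ifs <;> norm_num) Y H
  have hi : (P0 ∪ T) ∩ T = T := union_inter_cancel_right
  have e1 : ∀ a, ∏ p ∈ P0 ∪ T, (if p ∣ a then w p else if p ∈ T then 0 else 1) =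
      WW P0 w a * ∏ p ∈ T, ind p a := by
    intro a
    have h1 : WW P0 w a = ∏ p ∈ P0 ∪ T, (if p ∣ a then w p else 1) :=
      prod_subset subset_union_left fun p _ hp => by rw [hw1 p hp]; simp
    have h2 : ∏ p ∈ T, ind p a = ∏ p ∈ P0 ∪ T, (if p ∈ T then ind p a else 1) := by
      rw [prod_ite_mem, hi]
    rw [h1, h2, ← prod_mul_distrib]
    refine prod_congr rfl fun p _ => ?_
    unfold ind
    split_ifs <;> simp
  have e2 : ∏ p ∈ P0 ∪ T, ((if p ∈ T then 0 else 1 : ℝ) - ((if p ∈ T then 0 else 1 : ℝ) - w p) / p) =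
      (∏ p ∈ P0, rho w p) * ∏ p ∈ T, piw w p := by
    have h1 : ∏ p ∈ P0, rho w p = ∏ p ∈ P0 ∪ T, rho w p :=
      prod_subset subset_union_left fun p _ hp => by unfold rho; rw [hw1 p hp]; simp
    have h2 : ∏ p ∈ T, piw w p = ∏ p ∈ P0 ∪ T, (if p ∈ T then piw w p else 1) := by
      rw [prod_ite_mem, hi]
    rw [h1, h2, ← prod_mul_distrib]
    refine prod_congr rfl fun p hp => ?_
    have h3 : rho w p ≠ 0 := by have := (rho_ge w hw p (hU p hp).2).1; linarith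
    split_ifs
    · unfold piw; field_simp; ring
    · unfold rho; ring
  simp only [e1, e2, ← mul_assoc] at key
  refine key.trans ?_
  rw [mul_assoc]
  apply mul_le_mul_of_nonneg_left _ (by norm_num)
  rw [← union_sdiff_self_eq_union, prod_union disjoint_sdiff]
  apply mul_le_mul_of_nonneg_left _ (by positivity)
  have h1 : ∏ p ∈ T \ P0, p ≤ ∏ p ∈ T, p :=
    prod_le_prod_of_subset_of_one_le' sdiff_subset fun p hp _ => (hT p hp).1.one_le
  have h2 : ((∏ p ∈ T \ P0, p : ℕ) : ℝ) ≤ ((∏ p ∈ T, p : ℕ) : ℝ) := Nat.cast_le.2 h1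
  rw [Nat.cast_prod, Nat.cast_prod] at h2
  exact h2

lemma wcheb (P0 P : Finset ℕ) (z : ℕ) (hP0 : ∀ p ∈ P0, p.Prime ∧ 4 ≤ p)
    (hP : ∀ p ∈ P, p.Prime ∧ 4 ≤ p ∧ p ≤ z) (hz : 1 ≤ z)
    (w : ℕ → ℝ) (hw : ∀ p, 0 ≤ w p ∧ w p ≤ 1) (hw1 : ∀ p, p ∉ P0 → w p = 1) (Y H : ℕ)
    (τ T : ℝ) (hτ : 0 < τ) (hT : ∑ p ∈ P, piw w p + τ ≤ T) :
    ∑ a ∈ (Ico Y (Y + H)).filter (fun a => T < ∑ p ∈ P, ind p a), chi a * WW P0 w a ≤
      (H / 12 * (∏ p ∈ P0, rho w p) * ∑ p ∈ P, (1 : ℝ) / p +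
        48 * (∏ p ∈ P0, (p : ℝ)) * (z : ℝ) ^ 4) / τ ^ 2 := by
  set Zm : ℝ := H / 12 * (∏ p ∈ P0, rho w p) with hZm
  set D : ℝ := ∏ p ∈ P0, (p : ℝ) with hD
  have hD0 : 0 ≤ D := by positivity
  have hZ0 : 0 ≤ Zm := mul_nonneg (by positivity)
    (prod_nonneg fun p hp => by linarith [(rho_ge w hw p (hP0 p hp).2).1])
  have hz' : (1 : ℝ) ≤ z := by exact_mod_cast hz
  set F : ℕ → ℝ := fun a => chi a * WW P0 w a with hF
  have F0 : ∀ a, 0 ≤ F a := fun a => mul_nonneg (chi_mem a).1 (WW_mem P0 w hw a).1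
  set E : ℝ := 12 * D * (z : ℝ) ^ 2 with hE
  have hE0 : 0 ≤ E := by positivity
  have s0 : |∑ a ∈ Ico Y (Y + H), F a - Zm| ≤ E := by
    have := avgT P0 ∅ hP0 (by simp) w hw hw1 Y H
    simp only [prod_empty, mul_one] at this
    refine this.trans ?_
    have : (1 : ℝ) ≤ (z : ℝ) ^ 2 := one_le_pow₀ hz'
    nlinarith
  have s1 : ∀ p ∈ P, |∑ a ∈ Ico Y (Y + H), F a * ind p a - Zm * piw w p| ≤ E := by
    intro p hp
    have := avgT P0 {p} hP0 (fun q hq => by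
      rw [mem_singleton.1 hq]; exact ⟨(hP p hp).1, (hP p hp).2.1⟩) w hw hw1 Y H
    simp only [prod_singleton] at this
    refine this.trans (mul_le_mul_of_nonneg_left ?_ (by positivity))
    have : (p : ℝ) ≤ z := by exact_mod_cast (hP p hp).2.2
    nlinarith
  have s2 : ∀ p ∈ P, ∀ q ∈ P, p ≠ q →
      |∑ a ∈ Ico Y (Y + H), F a * (ind p a * ind q a) - Zm * (piw w p * piw w q)| ≤ E := by
    intro p hp q hq hpq
    have := avgT P0 {p, q} hP0 (fun r hr => by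
      rcases mem_insert.1 hr with h | h
      · rw [h]; exact ⟨(hP p hp).1, (hP p hp).2.1⟩
      · rw [mem_singleton.1 h]; exact ⟨(hP q hq).1, (hP q hq).2.1⟩) w hw hw1 Y H
    simp only [prod_pair hpq] at this
    refine this.trans (mul_le_mul_of_nonneg_left ?_ (by positivity))
    have h1 : (p : ℝ) ≤ z := by exact_mod_cast (hP p hp).2.2
    have h2 : (q : ℝ) ≤ z := by exact_mod_cast (hP q hq).2.2
    rw [sq]
    exact mul_le_mul h1 h2 (Nat.cast_nonneg _) (by linarith)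
  have hpi : ∀ p ∈ P, 0 ≤ piw w p ∧ piw w p ≤ 1 ∧ piw w p ≤ 1 / p := fun p hp => by
    have h := piw_le w hw p (hP p hp).2.1
    have h4 : (4 : ℝ) ≤ p := by exact_mod_cast (hP p hp).2.1
    have h1 : (1 : ℝ) / p ≤ 1 / 4 := one_div_le_one_div_of_le (by norm_num) h4
    exact ⟨h.1, by linarith [h.2.1], h.2.1⟩
  have var : ∑ a ∈ Ico Y (Y + H), F a * (∑ p ∈ P, ind p a - ∑ p ∈ P, piw w p) ^ 2 ≤
      Zm * ∑ p ∈ P, (1 : ℝ) / p + 48 * D * (z : ℝ) ^ 4 := by
    have e1 : ∀ a, F a * (∑ p ∈ P, ind p a - ∑ p ∈ P, piw w p) ^ 2 =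
        ∑ p ∈ P, ∑ q ∈ P, F a * ((ind p a - piw w p) * (ind q a - piw w q)) := by
      intro a; rw [← sum_sub_distrib, sq, sum_mul_sum, mul_sum]
      exact sum_congr rfl fun p _ => mul_sum _ _ _
    simp only [e1]
    rw [sum_comm]
    have hc : (P.card : ℝ) ≤ z := by
      have : P ⊆ Ioc 0 z := fun p hp => mem_Ioc.2 ⟨(hP p hp).1.pos, (hP p hp).2.2⟩
      have := card_le_card this
      simp only [Nat.card_Ioc, tsub_zero] at this
      exact_mod_cast this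
    have e2 : ∀ p ∈ P, ∑ a ∈ Ico Y (Y + H), ∑ q ∈ P,
        F a * ((ind p a - piw w p) * (ind q a - piw w q)) ≤ Zm * (1 / p) + z * (4 * E) := by
      intro p hp
      rw [sum_comm]
      have e3 : ∀ q ∈ P, ∑ a ∈ Ico Y (Y + H), F a * ((ind p a - piw w p) * (ind q a - piw w q)) ≤
          (if p = q then Zm * (1 / (p : ℝ)) else 0) + 4 * E := by
        intro q hq
        have e4 : ∑ a ∈ Ico Y (Y + H), F a * ((ind p a - piw w p) * (ind q a - piw w q)) =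
            ∑ a ∈ Ico Y (Y + H), F a * (ind p a * ind q a) -
              piw w q * ∑ a ∈ Ico Y (Y + H), F a * ind p a -
              piw w p * ∑ a ∈ Ico Y (Y + H), F a * ind q a +
              piw w p * piw w q * ∑ a ∈ Ico Y (Y + H), F a := by
          rw [mul_sum, mul_sum, mul_sum, ← sum_sub_distrib, ← sum_sub_distrib, ← sum_add_distrib]
          exact sum_congr rfl fun y _ => by ring
        rw [e4]
        obtain ⟨p0, p1, p2⟩ := hpi p hp
        obtain ⟨q0, q1, q2⟩ := hpi q hq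
        have b1 := mul_le_mul_of_nonneg_left (abs_le.1 (s1 p hp)).1 q0
        have b2 := mul_le_mul_of_nonneg_left (abs_le.1 (s1 q hq)).1 p0
        have b3 := mul_le_mul_of_nonneg_left (abs_le.1 s0).2 (mul_nonneg p0 q0)
        have b4 : piw w q * E ≤ E := mul_le_of_le_one_left hE0 q1
        have b5 : piw w p * E ≤ E := mul_le_of_le_one_left hE0 p1
        have b6 : piw w p * piw w q * E ≤ E := mul_le_of_le_one_left hE0 (mul_le_one₀ p1 q0 q1)
        split_ifs with hpq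
        · subst hpq
          have e5 : ∑ a ∈ Ico Y (Y + H), F a * (ind p a * ind p a) =
              ∑ a ∈ Ico Y (Y + H), F a * ind p a :=
            sum_congr rfl fun y _ => by unfold ind; split_ifs <;> norm_num
          rw [e5]
          have b7 := (abs_le.1 (s1 p hp)).2
          have b8 := mul_le_mul_of_nonneg_left p2 hZ0
          have b9 : 0 ≤ piw w p * piw w p * Zm := by positivity
          nlinarith
        · have b7 := (abs_le.1 (s2 p hp q hq hpq)).2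
          nlinarith
      refine (sum_le_sum e3).trans ?_
      rw [sum_add_distrib, sum_ite_eq, if_pos hp, sum_const, nsmul_eq_mul]
      nlinarith
    refine (sum_le_sum e2).trans ?_
    rw [sum_add_distrib, ← mul_sum, sum_const, nsmul_eq_mul]
    have : (0 : ℝ) ≤ z * (4 * E) := by positivity
    have h2 : (z : ℝ) * (z * (4 * E)) = 48 * D * (z : ℝ) ^ 4 := by rw [hE]; ring
    nlinarith
  rw [le_div_iff₀ (by positivity), sum_mul]
  refine le_trans ?_ var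
  refine le_trans (sum_le_sum fun a ha => ?_) (sum_le_sum_of_subset_of_nonneg (filter_subset _ _)
    fun a _ _ => mul_nonneg (F0 a) (sq_nonneg _))
  have := (mem_filter.1 ha).2
  exact mul_le_mul_of_nonneg_left (pow_le_pow_left₀ hτ.le (by linarith) 2) (F0 a)

lemma exp_moment (P : Finset ℕ) (hP : ∀ p ∈ P, p.Prime) (N : ℕ) (T : ℝ) :
    (((Ioc 0 N).filter fun b => T < ∑ p ∈ P, ind p b).card : ℝ) ≤
      N * Real.exp (0.1 * ∑ p ∈ P, (1 : ℝ) / p - 0.095 * T) := by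
  have h1 : Real.exp 0.095 ≤ 1.1 := by
    have := Real.exp_bound' (x := 0.095) (by norm_num) (by norm_num) (n := 3) (by norm_num)
    simp only [sum_range_succ, Nat.factorial] at this
    norm_num at this ⊢
    linarith
  have h2 : ∀ b, Real.exp (0.095 * ∑ p ∈ P, ind p b) ≤ ∏ p ∈ P, (1 + 0.1 * ind p b) := by
    intro b
    rw [mul_sum, Real.exp_sum]
    refine prod_le_prod (fun p _ => (Real.exp_pos _).le) fun p _ => ?_
    unfold ind
    split_ifs
    · rw [mul_one]; linarith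
    · simp
  have h3 : ∑ b ∈ Ioc 0 N, ∏ p ∈ P, (1 + 0.1 * ind p b) ≤ N * ∏ p ∈ P, (1 + 0.1 * ((1 : ℝ) / p)) := by
    simp only [prod_one_add]
    rw [sum_comm, mul_sum]
    refine sum_le_sum fun S hS => ?_
    have hS' := mem_powerset.1 hS
    simp only [prod_mul_distrib]
    rw [← mul_sum, mul_left_comm]
    apply mul_le_mul_of_nonneg_left _ (by positivity)
    have h4 : ∀ b, ∏ p ∈ S, ind p b ≤ ind (∏ p ∈ S, p) b := by
      intro b
      by_cases h : ∀ p ∈ S, p ∣ b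
      · have : ∏ p ∈ S, p ∣ b := prod_primes_dvd b (fun p hp => (hP p (hS' hp)).prime) h
        unfold ind
        rw [if_pos this]
        exact prod_le_one (fun p _ => by split_ifs <;> norm_num) fun p _ => by
          split_ifs <;> norm_num
      · push Not at h
        obtain ⟨p, hp, hpb⟩ := h
        rw [prod_eq_zero hp (by unfold ind; rw [if_neg hpb])]
        unfold ind; split_ifs <;> norm_num
    refine (sum_le_sum fun b _ => h4 b).trans ?_
    unfold ind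
    rw [sum_boole, Nat.Ioc_filter_dvd_card_eq_div, prod_div_distrib, prod_const_one, mul_one_div]
    have := @Nat.cast_div_le ℝ _ _ _ N (∏ p ∈ S, p)
    push_cast at this
    exact this
  have h4 : ∏ p ∈ P, (1 + 0.1 * ((1 : ℝ) / p)) ≤ Real.exp (0.1 * ∑ p ∈ P, (1 : ℝ) / p) := by
    rw [mul_sum]
    exact Real.prod_one_add_le_exp_sum P fun p => by positivity
  have h5 : (((Ioc 0 N).filter fun b => T < ∑ p ∈ P, ind p b).card : ℝ) * Real.exp (0.095 * T) ≤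
      ∑ b ∈ Ioc 0 N, ∏ p ∈ P, (1 + 0.1 * ind p b) := by
    rw [← nsmul_eq_mul]
    refine (card_nsmul_le_sum _ (fun b => ∏ p ∈ P, (1 + 0.1 * ind p b)) _ ?_).trans
      (sum_le_sum_of_subset_of_nonneg (filter_subset _ _) fun b _ _ =>
        (Real.exp_pos _).le.trans (h2 b))
    intro b hb
    have := (mem_filter.1 hb).2
    exact (Real.exp_le_exp.2 (by linarith)).trans (h2 b)
  rw [Real.exp_sub, ← mul_div_assoc, le_div_iff₀ (Real.exp_pos _)]
  exact h5.trans (h3.trans (mul_le_mul_of_nonneg_left h4 (Nat.cast_nonneg _)))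

/-! nested levels -/

def pr (z : ℕ) : Finset ℕ := (Icc 4 z).filter Nat.Prime
noncomputable def ms (z : ℕ) : ℝ := ∑ p ∈ pr z, (1 : ℝ) / p

lemma mem_pr (z p : ℕ) : p ∈ pr z ↔ p.Prime ∧ 4 ≤ p ∧ p ≤ z := by
  unfold pr; rw [mem_filter, mem_Icc]; tauto

lemma ms_yy (i : ℕ) : (i : ℝ) ^ 2 ≤ ms (2 ^ yy i) :=
  (PP_spec i).2.2.1.trans (sum_le_sum_of_subset_of_nonneg
    (fun p hp => (mem_pr _ _).2 ((PP_spec i).2.1 p hp)) fun _ _ _ => by positivity)

open Classical in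
noncomputable def zz (i : ℕ) : ℕ := Nat.find (⟨_, ms_yy i⟩ : ∃ z, (i : ℝ) ^ 2 ≤ ms z)

noncomputable def QQ (i : ℕ) : Finset ℕ := pr (zz i)
noncomputable def MQ (i : ℕ) : ℝ := ∑ p ∈ QQ i, (1 : ℝ) / p

open Classical in
lemma MQ_ge (i : ℕ) : (i : ℝ) ^ 2 ≤ MQ i := Nat.find_spec (⟨_, ms_yy i⟩ : ∃ z, (i : ℝ) ^ 2 ≤ ms z)

open Classical in
lemma zz_le (i z : ℕ) (h : (i : ℝ) ^ 2 ≤ ms z) : zz i ≤ z := Nat.find_min' _ h

lemma QQ_spec (i : ℕ) : ∀ p ∈ QQ i, p.Prime ∧ 4 ≤ p ∧ p ≤ 2 ^ yy i := fun p hp => by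
  obtain ⟨h1, h2, h3⟩ := (mem_pr _ _).1 hp
  exact ⟨h1, h2, h3.trans (zz_le i _ (ms_yy i))⟩

lemma QQ_mono (i k : ℕ) (h : i ≤ k) : QQ i ⊆ QQ k := fun p hp => by
  obtain ⟨h1, h2, h3⟩ := (mem_pr _ _).1 hp
  refine (mem_pr _ _).2 ⟨h1, h2, h3.trans (zz_le i _ (le_trans ?_ (MQ_ge k)))⟩
  exact pow_le_pow_left₀ (Nat.cast_nonneg _) (by exact_mod_cast h) 2

lemma MQ_mono (i k : ℕ) (h : i ≤ k) : MQ i ≤ MQ k :=
  sum_le_sum_of_subset_of_nonneg (QQ_mono i k h) fun _ _ _ => by positivity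

lemma QQ_zero : QQ 0 = ∅ := by
  have : zz 0 ≤ 0 := zz_le 0 0 (by simp [ms, pr])
  unfold QQ pr
  rw [Nat.le_zero.1 this]; rfl

open Classical in
lemma MQ_le (i : ℕ) : MQ i ≤ ((i ^ 2 + 1 : ℕ) : ℝ) := by
  push_cast
  rcases Nat.eq_zero_or_pos (zz i) with h | h
  · unfold MQ QQ pr; rw [h]; simp; positivity
  · have h1 : ¬ (i : ℝ) ^ 2 ≤ ms (zz i - 1) :=
      Nat.find_min (⟨_, ms_yy i⟩ : ∃ z, (i : ℝ) ^ 2 ≤ ms z) (by unfold zz at h ⊢; omega)
    have h2 : QQ i ⊆ insert (zz i) (pr (zz i - 1)) := fun p hp => by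
      obtain ⟨h3, h4, h5⟩ := (mem_pr _ _).1 hp
      rw [mem_insert, mem_pr]
      by_cases h6 : p = zz i
      · exact Or.inl h6
      · exact Or.inr ⟨h3, h4, by omega⟩
    have h3 : MQ i ≤ ∑ p ∈ insert (zz i) (pr (zz i - 1)), (1 : ℝ) / p :=
      sum_le_sum_of_subset_of_nonneg h2 fun _ _ _ => by positivity
    rw [sum_insert (by rw [mem_pr]; omega)] at h3
    have h4 : (1 : ℝ) / (zz i) ≤ 1 := div_le_one_of_le₀ (by exact_mod_cast h) (Nat.cast_nonneg _)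
    unfold ms at h1
    linarith [not_le.1 h1]

lemma ms_le (z : ℕ) : ms z ≤ z := by
  have h1 : ms z ≤ (pr z).card • (1 : ℝ) := sum_le_card_nsmul _ _ _ fun p hp =>
    div_le_one_of_le₀ (by exact_mod_cast ((mem_pr _ _).1 hp).1.one_le) (Nat.cast_nonneg _)
  have h2 : pr z ⊆ Ioc 0 z := fun p hp =>
    mem_Ioc.2 ⟨((mem_pr _ _).1 hp).1.pos, ((mem_pr _ _).1 hp).2.2⟩
  have h3 := card_le_card h2
  simp only [Nat.card_Ioc, tsub_zero] at h3
  rw [nsmul_eq_mul, mul_one] at h1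
  exact h1.trans (by exact_mod_cast h3)

noncomputable def ph2 (i : ℕ) : ℝ := Real.exp (-(1.005 * (i : ℝ) ^ 2))

lemma ph2_pos (i : ℕ) : 0 < ph2 i := Real.exp_pos _

lemma ee_ph2 (i : ℕ) : (ee (i + 1) : ℝ) * ph2 i ≤ 146 * Real.exp 1254 * (1 / 2) ^ i := by
  have h1 := (PP_spec (i + 1)).1
  have hi : (0 : ℝ) ≤ i := Nat.cast_nonneg _
  have h2 : (1 : ℝ) ≤ Real.exp (((i + 1 : ℕ) : ℝ) ^ 2 + 3) := Real.one_le_exp (by positivity)
  have h3 : (i : ℝ) + 1 ≤ Real.exp i := Real.add_one_le_exp _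
  have h4 : ((i : ℝ) + 1) ^ 2 ≤ Real.exp (2 * i) := by
    rw [show 2 * (i : ℝ) = i + i by ring, Real.exp_add, sq]
    exact mul_le_mul h3 h3 (by positivity) (Real.exp_pos _).le
  have h5 : (ee (i + 1) : ℝ) ≤ (2 * Real.exp (((i + 1 : ℕ) : ℝ) ^ 2 + 3)) * (73 * Real.exp (2 * i)) := by
    unfold ee
    push_cast at h1 h2 ⊢
    apply mul_le_mul (by linarith) (by nlinarith) (by positivity) (by positivity)
  have h6 : Real.exp (-(i : ℝ)) ≤ (1 / 2) ^ i := by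
    have he : (2 : ℝ) ≤ Real.exp 1 := by have := Real.add_one_le_exp (1 : ℝ); linarith
    rw [show -(i : ℝ) = i * (-1) by ring, Real.exp_nat_mul]
    apply pow_le_pow_left₀ (Real.exp_pos _).le
    rw [Real.exp_neg, one_div]
    exact inv_anti₀ (by norm_num) he
  calc (ee (i + 1) : ℝ) * ph2 i ≤
        (2 * Real.exp (((i + 1 : ℕ) : ℝ) ^ 2 + 3)) * (73 * Real.exp (2 * i)) * ph2 i :=
        mul_le_mul_of_nonneg_right h5 (ph2_pos i).le
    _ = 146 * Real.exp ((((i + 1 : ℕ) : ℝ) ^ 2 + 3) + 2 * i + -(1.005 * (i : ℝ) ^ 2)) := by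
        unfold ph2; rw [Real.exp_add _ (-(1.005 * (i : ℝ) ^ 2)), Real.exp_add _ (2 * (i : ℝ))]; ring
    _ ≤ 146 * Real.exp (1254 + -(i : ℝ)) := by
        apply mul_le_mul_of_nonneg_left _ (by norm_num)
        apply Real.exp_le_exp.2
        push_cast
        nlinarith [sq_nonneg ((i : ℝ) - 500)]
    _ ≤ _ := by
        rw [Real.exp_add, mul_assoc]
        exact mul_le_mul_of_nonneg_left (mul_le_mul_of_nonneg_left h6 (Real.exp_pos _).le)
          (by norm_num)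

lemma sum_lev2 (J : ℕ) : ∑ j ∈ range J, ph2 (lev j) ≤ 292 * Real.exp 1254 := by
  have h1 : ∀ j ∈ range J, lev j ∈ range J := fun j hj =>
    mem_range.2 (lt_of_le_of_lt (Nat.findGreatest_le j) (mem_range.1 hj))
  rw [← sum_fiberwise_of_maps_to h1]
  calc _ ≤ ∑ i ∈ range J, 146 * Real.exp 1254 * (1 / 2) ^ i := by
        refine sum_le_sum fun i _ => le_trans ?_ (ee_ph2 i)
        rw [sum_congr rfl (g := fun _ => ph2 i) (fun j hj => by rw [(mem_filter.1 hj).2]),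
          sum_const, nsmul_eq_mul]
        apply mul_le_mul_of_nonneg_right _ (ph2_pos i).le
        have : (range J).filter (fun j => lev j = i) ⊆ range (ee (i + 1)) := fun j hj => by
          have := lt_ee_lev j
          rw [(mem_filter.1 hj).2] at this
          exact mem_range.2 this
        have := card_le_card this
        rw [card_range] at this
        exact_mod_cast this
    _ ≤ _ := by
        rw [← mul_sum]
        have := sum_geometric_two_le J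
        have h2 : 0 < 146 * Real.exp 1254 := by positivity
        nlinarith

lemma lev_mono (j k : ℕ) (h : j ≤ k) : lev j ≤ lev k :=
  Nat.findGreatest_mono (fun _ hi => le_trans hi h) h

lemma ee_lev (j : ℕ) (h : lev j ≠ 0) : ee (lev j) ≤ j :=
  Nat.findGreatest_of_ne_zero (P := fun i => ee i ≤ j) rfl h

lemma le_lev (i j : ℕ) (h : ee i ≤ j) : i ≤ lev j :=
  Nat.le_findGreatest ((le_ee i).trans h) h

end Pool.Agent.KS6_38.Adm
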