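import Pool.Agent.KS6_38.Adm.Brun5

set_option autoImplicit false

namespace Pool.Agent.KS6_38.Adm
open Finset

noncomputable def ww (z1 i0 p : ℕ) : ℝ := if p ∈ QQ i0 then (if p ≤ z1 then 0 else 9 / 10) else 1
noncomputable def Ta (i0 i : ℕ) : ℝ := if i < i0 then 0.905 * MQ i else 1.005 * MQ i - 0.1 * MQ i0
noncomputable def Sw (z1 i0 : ℕ) : ℝ := ∑ p ∈ QQ i0, (1 - ww z1 i0 p) * (1 / p)
def GoodA (i2 i0 n a : ℕ) : Prop :=
  ∀ i, i2 ≤ i → i ≤ n → 2 ^ (4 * yy i) ≤ n → ∑ p ∈ QQ i, ind p a ≤ Ta i0 i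
def GoodB (i0 n b : ℕ) : Prop :=
  ∀ i, i0 ≤ i → i ≤ n → ∑ p ∈ QQ i, ind p b ≤ 1.06 * MQ i + 0.12 * MQ i0

lemma ww_mem (z1 i0 p : ℕ) : 0 ≤ ww z1 i0 p ∧ ww z1 i0 p ≤ 1 := by
  unfold ww; split_ifs <;> norm_num

lemma ww_out (z1 i0 p : ℕ) (h : p ∉ QQ i0) : ww z1 i0 p = 1 := by unfold ww; rw [if_neg h]

lemma ww_in (z1 i0 p : ℕ) (h : p ∈ QQ i0) : ww z1 i0 p ≤ 9 / 10 := by
  unfold ww; rw [if_pos h]; split_ifs <;> norm_num

lemma QQ_pr (i : ℕ) : ∀ p ∈ QQ i, p.Prime ∧ 4 ≤ p := fun p hp =>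
  ⟨(QQ_spec i p hp).1, (QQ_spec i p hp).2.1⟩

lemma QQ_sq (i : ℕ) : ∑ p ∈ QQ i, (1 : ℝ) / (p : ℝ) ^ 2 ≤ 1 / 3 := by
  have := sum_inv_sq_le 3 (2 ^ yy i) (by norm_num) (QQ i) fun p hp =>
    ⟨by have := (QQ_spec i p hp).2.1; omega, (QQ_spec i p hp).2.2⟩
  push_cast at this
  exact this

lemma MQ_nonneg (i : ℕ) : 0 ≤ MQ i := le_trans (by positivity) (MQ_ge i)

lemma Sw_le (z1 i0 : ℕ) : Sw z1 i0 ≤ 0.1 * MQ i0 + z1 := by
  have h1 : Sw z1 i0 ≤ ∑ p ∈ QQ i0, (0.1 * ((1 : ℝ) / p) + if p ∈ pr z1 then (1 : ℝ) / p else 0) := by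
    refine sum_le_sum fun p hp => ?_
    have h0 : (0 : ℝ) ≤ 1 / p := by positivity
    unfold ww
    rw [if_pos hp]
    by_cases h : p ≤ z1
    · rw [if_pos h, if_pos ((mem_pr _ _).2 ⟨(QQ_pr i0 p hp).1, (QQ_pr i0 p hp).2, h⟩)]; linarith
    · rw [if_neg h]; split_ifs <;> linarith
  rw [sum_add_distrib, ← mul_sum, sum_ite_mem] at h1
  have h2 : ∑ p ∈ QQ i0 ∩ pr z1, (1 : ℝ) / p ≤ ms z1 :=
    sum_le_sum_of_subset_of_nonneg inter_subset_right fun _ _ _ => by positivity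
  have := ms_le z1
  unfold MQ
  linarith

lemma rho_prod (z1 i0 : ℕ) : Real.exp (-Sw z1 i0 - 1) ≤ ∏ p ∈ QQ i0, rho (ww z1 i0) p := by
  calc _ ≤ Real.exp (∑ p ∈ QQ i0, -((1 - ww z1 i0 p) * (1 / p) + 2 * (1 / (p : ℝ) ^ 2))) := by
        apply Real.exp_le_exp.2
        rw [sum_neg_distrib, sum_add_distrib, ← mul_sum]
        have := QQ_sq i0
        unfold Sw
        linarith
    _ = ∏ p ∈ QQ i0, Real.exp (-((1 - ww z1 i0 p) * (1 / p) + 2 * (1 / (p : ℝ) ^ 2))) :=
        Real.exp_sum _ _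
    _ ≤ _ := by
        refine prod_le_prod (fun p _ => (Real.exp_pos _).le) fun p hp => ?_
        have h4 : (4 : ℝ) ≤ p := by exact_mod_cast (QQ_pr i0 p hp).2
        have h1 : (1 : ℝ) / p ≤ 1 / 4 := one_div_le_one_div_of_le (by norm_num) h4
        have h0 : (0 : ℝ) < 1 / p := by positivity
        have h2 := ww_mem z1 i0 p
        unfold rho
        rw [div_eq_mul_one_div (1 - ww z1 i0 p), ← one_div_pow, Real.exp_neg,
          inv_le_iff_one_le_mul₀ (Real.exp_pos _)]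
        set u := 1 / (p : ℝ)
        set v := (1 - ww z1 i0 p) * u with hv
        have v0 : 0 ≤ v := mul_nonneg (by linarith) h0.le
        have v1 : v ≤ u := by rw [hv]; nlinarith
        have h3 := Real.add_one_le_exp (v + 2 * u ^ 2)
        have h5 : v ^ 2 ≤ u ^ 2 := pow_le_pow_left₀ v0 v1 2
        have h6 : 1 ≤ (1 - v) * (v + 2 * u ^ 2 + 1) := by nlinarith
        exact h6.trans (mul_le_mul_of_nonneg_left h3 (by linarith))

open Classical in
lemma badA (z1 i2 i0 n Y H : ℕ) (h2 : 3000000 ≤ i2) (Zm : ℝ)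
    (hZ : Zm = H / 12 * ∏ p ∈ QQ i0, rho (ww z1 i0) p)
    (hn : 48 * (∏ p ∈ QQ i0, (p : ℝ)) * n ≤ Zm) :
    ∑ a ∈ (Ico Y (Y + H)).filter (fun a => ¬ GoodA i2 i0 n a), chi a * WW (QQ i0) (ww z1 i0) a ≤
      Zm / 8 := by
  obtain ⟨Λ, hΛ⟩ : ∃ Λ : Finset ℕ, ∀ i, i ∈ Λ ↔ i2 ≤ i ∧ i ≤ n ∧ 2 ^ (4 * yy i) ≤ n :=
    ⟨(range (n + 1)).filter fun i => i2 ≤ i ∧ 2 ^ (4 * yy i) ≤ n, fun i => by
      rw [mem_filter, mem_range, Nat.lt_succ_iff]; tauto⟩
  have hZ0 : 0 ≤ Zm := le_trans (by positivity) hn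
  set F : ℕ → ℝ := fun a => chi a * WW (QQ i0) (ww z1 i0) a with hF
  have F0 : ∀ a, 0 ≤ F a := fun a => mul_nonneg (chi_mem a).1 (WW_mem _ _ (ww_mem z1 i0) a).1
  have h1 : ∑ a ∈ (Ico Y (Y + H)).filter (fun a => ¬ GoodA i2 i0 n a), F a ≤
      ∑ i ∈ Λ, ∑ a ∈ (Ico Y (Y + H)).filter (fun a => Ta i0 i < ∑ p ∈ QQ i, ind p a), F a := by
    simp only [sum_filter]
    rw [sum_comm]
    refine sum_le_sum fun a _ => ?_
    have hnn : ∀ i ∈ Λ, 0 ≤ (if Ta i0 i < ∑ p ∈ QQ i, ind p a then F a else 0) := fun i _ => by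
      split_ifs
      · exact F0 a
      · exact le_rfl
    split_ifs with hg
    · exact sum_nonneg hnn
    · unfold GoodA at hg
      push Not at hg
      obtain ⟨i, a1, a2, a3, a4⟩ := hg
      have := single_le_sum hnn ((hΛ i).2 ⟨a1, a2, a3⟩)
      rwa [if_pos a4] at this
  have h3 : ∀ i ∈ Λ, ∑ a ∈ (Ico Y (Y + H)).filter (fun a => Ta i0 i < ∑ p ∈ QQ i, ind p a), F a ≤
      320000 * Zm * (1 / (i : ℝ) ^ 2) := by
    intro i hi
    obtain ⟨a1, -, a3⟩ := (hΛ i).1 hi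
    have a4 : (3000000 : ℝ) ≤ i := by exact_mod_cast h2.trans a1
    have hM := MQ_ge i
    have hM1 : 1000 ≤ MQ i := by nlinarith
    have a5 : ∑ p ∈ QQ i, piw (ww z1 i0) p ≤ ∑ p ∈ QQ i, ww z1 i0 p * (1 / p) + 2 / 3 := by
      have := sum_le_sum fun p (hp : p ∈ QQ i) =>
        (piw_le (ww z1 i0) (ww_mem z1 i0) p (QQ_pr i p hp).2).2.2
      rw [sum_add_distrib, ← mul_sum] at this
      linarith [QQ_sq i]
    have a6 : ∑ p ∈ QQ i, piw (ww z1 i0) p + MQ i / 400 ≤ Ta i0 i := by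
      unfold Ta
      split_ifs with hlt
      · have : ∑ p ∈ QQ i, ww z1 i0 p * (1 / p) ≤ 0.9 * MQ i := by
          unfold MQ; rw [mul_sum]
          exact sum_le_sum fun p hp => mul_le_mul_of_nonneg_right
            ((ww_in z1 i0 p (QQ_mono i i0 hlt.le hp)).trans (by norm_num)) (by positivity)
        linarith
      · have hs := QQ_mono i0 i (not_lt.1 hlt)
        have b1 := sum_sdiff (f := fun p : ℕ => ww z1 i0 p * (1 / p)) hs
        have b2 := sum_sdiff (f := fun p : ℕ => (1 : ℝ) / p) hs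
        have b3 : ∑ p ∈ QQ i \ QQ i0, ww z1 i0 p * (1 / p) = ∑ p ∈ QQ i \ QQ i0, (1 : ℝ) / p :=
          sum_congr rfl fun p hp => by rw [ww_out z1 i0 p (mem_sdiff.1 hp).2, one_mul]
        have b4 : ∑ p ∈ QQ i0, ww z1 i0 p * (1 / p) ≤ 0.9 * MQ i0 := by
          unfold MQ; rw [mul_sum]
          exact sum_le_sum fun p hp => mul_le_mul_of_nonneg_right
            ((ww_in z1 i0 p hp).trans (by norm_num)) (by positivity)
        unfold MQ at *
        linarith
    have a7 := wcheb (QQ i0) (QQ i) (2 ^ yy i) (QQ_pr i0) (QQ_spec i) Nat.one_le_two_pow (ww z1 i0)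
      (ww_mem z1 i0) (ww_out z1 i0) Y H (MQ i / 400) (Ta i0 i) (by linarith) a6
    refine a7.trans ?_
    rw [← hZ]
    have a8 : (((2 ^ yy i : ℕ) : ℝ)) ^ 4 ≤ n := by
      have : (2 ^ yy i) ^ 4 ≤ n := by rw [← pow_mul, mul_comm]; exact a3
      exact_mod_cast this
    have a9 : 48 * (∏ p ∈ QQ i0, (p : ℝ)) * ((2 ^ yy i : ℕ) : ℝ) ^ 4 ≤ Zm :=
      (mul_le_mul_of_nonneg_left a8 (by positivity)).trans hn
    have a10 : 1 ≤ 1 / (i : ℝ) ^ 2 * MQ i := by
      rw [one_div_mul_eq_div, le_div_iff₀ (by positivity)]; linarith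
    change (Zm * MQ i + _) / _ ≤ _
    rw [div_le_iff₀ (by positivity)]
    have a11 : 0 ≤ Zm * MQ i := by positivity
    have a12 := mul_le_mul_of_nonneg_left a10 a11
    nlinarith
  have h4 : ∑ i ∈ Λ, (1 : ℝ) / (i : ℝ) ^ 2 ≤ 1 / (2999999 : ℕ) :=
    sum_inv_sq_le 2999999 n (by norm_num) Λ fun i hi =>
      ⟨by have := ((hΛ i).1 hi).1; omega, ((hΛ i).1 hi).2.1⟩
  refine h1.trans ((sum_le_sum h3).trans ?_)
  rw [← mul_sum]
  have := mul_le_mul_of_nonneg_left h4 (show 0 ≤ 320000 * Zm by positivity)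
  push_cast at this
  linarith

open Classical in
lemma badB (i0 n N : ℕ) (h0 : 1500 ≤ i0) :
    (((Ioc 0 N).filter fun b => ¬ GoodB i0 n b).card : ℝ) ≤
      2 * N * Real.exp (-(0.0114 * MQ i0)) := by
  set Λ := (range (n + 1)).filter fun i => i0 ≤ i with hΛ
  have h1 : (Ioc 0 N).filter (fun b => ¬ GoodB i0 n b) ⊆ Λ.biUnion fun i =>
      (Ioc 0 N).filter fun b => 1.06 * MQ i + 0.12 * MQ i0 < ∑ p ∈ QQ i, ind p b := by
    intro b hb
    obtain ⟨h2, h3⟩ := mem_filter.1 hb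
    unfold GoodB at h3
    push Not at h3
    obtain ⟨i, hi, hi', h4⟩ := h3
    exact mem_biUnion.2 ⟨i, mem_filter.2 ⟨mem_range.2 (by omega), hi⟩, mem_filter.2 ⟨h2, h4⟩⟩
  have h2 := (card_le_card h1).trans card_biUnion_le
  have h3 : ∀ i ∈ Λ, (((Ioc 0 N).filter fun b =>
      1.06 * MQ i + 0.12 * MQ i0 < ∑ p ∈ QQ i, ind p b).card : ℝ) ≤
      N * Real.exp (-(0.0114 * MQ i0)) * (1 / 2) ^ i := by
    intro i hi
    have h4 : (1500 : ℝ) ≤ i := by exact_mod_cast h0.trans (mem_filter.1 hi).2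
    refine (exp_moment (QQ i) (fun p hp => (QQ_pr i p hp).1) N _).trans ?_
    have h6 : Real.exp (-(i : ℝ)) ≤ (1 / 2) ^ i := by
      have he : (2 : ℝ) ≤ Real.exp 1 := by have := Real.add_one_le_exp (1 : ℝ); linarith
      rw [show -(i : ℝ) = i * (-1) by ring, Real.exp_nat_mul]
      apply pow_le_pow_left₀ (Real.exp_pos _).le
      rw [Real.exp_neg, one_div]
      exact inv_anti₀ (by norm_num) he
    rw [mul_assoc]
    apply mul_le_mul_of_nonneg_left _ (Nat.cast_nonneg _)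
    refine le_trans ?_ (mul_le_mul_of_nonneg_left h6 (Real.exp_pos _).le)
    rw [← Real.exp_add]
    apply Real.exp_le_exp.2
    have := MQ_ge i
    change 0.1 * MQ i - _ ≤ _
    nlinarith
  calc _ ≤ ((∑ i ∈ Λ, ((Ioc 0 N).filter fun b =>
        1.06 * MQ i + 0.12 * MQ i0 < ∑ p ∈ QQ i, ind p b).card : ℕ) : ℝ) := by exact_mod_cast h2
    _ ≤ ∑ i ∈ Λ, N * Real.exp (-(0.0114 * MQ i0)) * (1 / 2) ^ i := by
        rw [Nat.cast_sum]; exact sum_le_sum h3
    _ ≤ _ := by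
        rw [← mul_sum]
        have h5 : ∑ i ∈ Λ, (1 / 2 : ℝ) ^ i ≤ 2 :=
          (sum_le_sum_of_subset_of_nonneg (filter_subset _ _) fun _ _ _ => by positivity).trans
            (sum_geometric_two_le (n + 1))
        have : (0 : ℝ) ≤ N * Real.exp (-(0.0114 * MQ i0)) := by positivity
        nlinarith

open Classical in
noncomputable def GG (z1 i2 i0 n t x y : ℕ) : ℝ :=
  if GoodA i2 i0 n (t * x * (x + y)) ∧ GoodB i0 n (t * y * (x + y)) then
    WW (QQ i0) (ww z1 i0) (t * x * (x + y)) else 0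

lemma vol (N j : ℕ) : ((N / 4 ^ j : ℕ) : ℝ) * ((2 ^ j : ℕ) : ℝ) * ((2 ^ (j + 2) : ℕ) : ℝ) ≤ 4 * N := by
  have : N / 4 ^ j * 2 ^ j * 2 ^ (j + 2) ≤ 4 * N := by
    have h1 := Nat.div_mul_le_self N (4 ^ j)
    have h2 : (4 : ℕ) ^ j = 2 ^ j * 2 ^ j := by rw [← mul_pow]; norm_num
    rw [pow_add]
    calc N / 4 ^ j * 2 ^ j * (2 ^ j * 2 ^ 2) = 4 * (N / 4 ^ j * (2 ^ j * 2 ^ j)) := by ring
      _ ≤ 4 * N := by rw [← h2]; omega
  exact_mod_cast this

lemma lev_ok (j n : ℕ) (h : lev j ≠ 0) (hn : 2 ^ j ≤ n) :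
    lev j ≤ n ∧ 2 ^ (4 * yy (lev j)) ≤ n ∧ 2 ^ ee (lev j) ≤ 2 ^ j := by
  have h1 := ee_lev j h
  have h2 : 2 ^ ee (lev j) ≤ 2 ^ j := Nat.pow_le_pow_right (by norm_num) h1
  have := le_ee (lev j)
  have := Nat.lt_two_pow_self (n := j)
  refine ⟨by omega, le_trans (Nat.pow_le_pow_right (by norm_num) ?_) (h2.trans hn), h2⟩
  unfold ee; nlinarith [Nat.zero_le (yy (lev j) * lev j ^ 2)]

lemma boxA (z1 i2 i0 n N j : ℕ) (h2 : 3000000 ≤ i2) (hj : ee i2 ≤ j) (hl : lev j < i0)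
    (hL : 2 ^ ee i0 ≤ N / 4 ^ j) (hn : 2 ^ j ≤ n) :
    ∑ t ∈ Ico 1 (1 + N / 4 ^ j), ∑ x ∈ Ico (2 ^ j) (2 ^ j + 2 ^ j), ∑ y ∈ Ico 0 (0 + 2 ^ (j + 2)),
      GG z1 i2 i0 n t x y ≤ N * Real.exp (-Sw z1 i0 - 1290) * ph2 (lev j) := by
  have hi2 := le_lev i2 j hj
  obtain ⟨l1, l2, l3⟩ := lev_ok j n (by omega) hn
  set i := lev j with hi
  have hs := QQ_mono i i0 hl.le
  set w := ww z1 i0 with hw
  have wm := ww_mem z1 i0
  let α : ℕ → ℝ := fun p => if p ∈ QQ i then w p / 3 else w p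
  have key := triple2 (QQ i) (QQ i0) (i ^ 2 + 1) (yy i) (i0 ^ 2 + 1) (yy i0) (QQ_spec i) (MQ_le i)
    (QQ_spec i0) (MQ_le i0) α (fun p => w p / 3) (fun _ => 1) (fun p => w p / 3)
    (fun p => by have := wm p; simp only [α]; split_ifs <;> constructor <;> linarith)
    (fun p hp => by have := wm p; simp only [α, if_pos hp]; linarith)
    (fun p => by have := wm p; constructor <;> linarith) (fun p => by norm_num)
    (fun p => by have := wm p; constructor <;> linarith) 1 (2 ^ j) 0 (N / 4 ^ j) (2 ^ j) (2 ^ (j + 2))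
    (Or.inr hL) l3 (l3.trans (Nat.pow_le_pow_right (by norm_num) (by omega)))
  have h3 : Real.exp (-1.099) ≤ 1 / 3 := by
    rw [Real.exp_neg, one_div]
    apply inv_anti₀ (by norm_num)
    rw [show (1.099 : ℝ) = 1 + 0.099 by norm_num, Real.exp_add]
    have a1 := Real.exp_one_gt_d9
    have a2 := Real.quadratic_le_exp_of_nonneg (show (0 : ℝ) ≤ 0.099 by norm_num)
    nlinarith
  have pt : ∀ t x y, GG z1 i2 i0 n t x y ≤ Real.exp (1.099 * (0.905 * MQ i)) *
      ((∏ p ∈ QQ i0 \ QQ i, (if p ∣ t then α p else 1)) *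
        ∏ p ∈ QQ i, wg α (fun p => w p / 3) (fun _ => 1) (fun p => w p / 3) p t x y) := by
    intro t x y
    have c0 : ∀ p, 0 ≤ wg α (fun p => w p / 3) (fun _ => 1) (fun p => w p / 3) p t x y := by
      intro p; have := wm p; simp only [wg, α]; split_ifs <;> linarith
    have c1 : 0 ≤ ∏ p ∈ QQ i0 \ QQ i, (if p ∣ t then α p else 1) := prod_nonneg fun p _ => by
      have := wm p; simp only [α]; split_ifs <;> linarith
    unfold GG
    split_ifs with hg
    · have g1 := hg.1 i hi2 l1 l2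
      unfold Ta at g1
      rw [if_pos hl] at g1
      set a := t * x * (x + y) with ha
      have d1 : ∏ p ∈ QQ i0 \ QQ i, (if p ∣ a then w p else 1) ≤
          ∏ p ∈ QQ i0 \ QQ i, (if p ∣ t then α p else 1) := by
        refine prod_le_prod (fun p _ => by have := wm p; split_ifs <;> linarith) fun p hp => ?_
        have := wm p
        simp only [α, if_neg (mem_sdiff.1 hp).2]
        by_cases h : p ∣ t
        · rw [if_pos h, if_pos ((h.mul_right _).mul_right _)]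
        · rw [if_neg h]; split_ifs <;> linarith
      have d2 : ∏ p ∈ QQ i, ((if p ∣ a then w p else 1) * Real.exp (-(1.099 * ind p a))) ≤
          ∏ p ∈ QQ i, wg α (fun p => w p / 3) (fun _ => 1) (fun p => w p / 3) p t x y := by
        refine prod_le_prod (fun p _ => mul_nonneg (by have := wm p; split_ifs <;> linarith)
          (Real.exp_pos _).le) fun p hp => ?_
        have := wm p
        unfold ind
        by_cases h : p ∣ a
        · rw [if_pos h, if_pos h, mul_one]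
          have h4 := mul_le_mul_of_nonneg_left h3 this.1
          simp only [wg, α, if_pos hp]
          split_ifs <;> linarith
        · have h4 : ¬ p ∣ t := fun h' => h ((h'.mul_right _).mul_right _)
          have h5 : ¬ p ∣ x := fun h' => h ((h'.mul_left _).mul_right _)
          have h6 : ¬ p ∣ x + y := fun h' => h (h'.mul_left _)
          simp [wg, h, h4, h5, h6]
      rw [prod_mul_distrib, ← Real.exp_sum, sum_neg_distrib, ← mul_sum] at d2
      have d3 : 0 ≤ ∏ p ∈ QQ i, (if p ∣ a then w p else 1) :=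
        prod_nonneg fun p _ => by have := wm p; split_ifs <;> linarith
      have d4 : ∏ p ∈ QQ i, (if p ∣ a then w p else 1) ≤ Real.exp (1.099 * (0.905 * MQ i)) *
          ∏ p ∈ QQ i, wg α (fun p => w p / 3) (fun _ => 1) (fun p => w p / 3) p t x y := by
        refine le_trans ?_ (mul_le_mul_of_nonneg_left d2 (Real.exp_pos _).le)
        rw [mul_left_comm, ← Real.exp_add]
        exact le_mul_of_one_le_right d3 (Real.one_le_exp (by linarith))
      unfold WW
      rw [← prod_sdiff hs, mul_left_comm]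
      exact mul_le_mul d1 d4 d3 c1
    · exact mul_nonneg (Real.exp_pos _).le (mul_nonneg c1 (prod_nonneg fun p _ => c0 p))
  have ex : ∑ p ∈ QQ i, (3 - w p / 3 - 1 - w p / 3) * (1 / (p : ℝ)) +
      ∑ p ∈ QQ i0, (1 - α p) * (1 / (p : ℝ)) = 2 * MQ i + Sw z1 i0 := by
    unfold Sw MQ
    rw [← sum_sdiff hs, ← sum_sdiff hs]
    have e1 : ∑ p ∈ QQ i0 \ QQ i, (1 - α p) * (1 / (p : ℝ)) =
        ∑ p ∈ QQ i0 \ QQ i, (1 - w p) * (1 / (p : ℝ)) :=
      sum_congr rfl fun p hp => by simp only [α, if_neg (mem_sdiff.1 hp).2]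
    have e2 : ∑ p ∈ QQ i, (3 - w p / 3 - 1 - w p / 3) * (1 / (p : ℝ)) +
        ∑ p ∈ QQ i, (1 - α p) * (1 / (p : ℝ)) =
        2 * ∑ p ∈ QQ i, (1 : ℝ) / p + ∑ p ∈ QQ i, (1 - w p) * (1 / (p : ℝ)) := by
      rw [mul_sum, ← sum_add_distrib, ← sum_add_distrib]
      exact sum_congr rfl fun p hp => by simp only [α, if_pos hp]; ring
    linarith
  calc _ ≤ _ := sum_le_sum fun t _ => sum_le_sum fun x _ => sum_le_sum fun y _ => pt t x y
    _ ≤ Real.exp (1.099 * (0.905 * MQ i)) * _ := by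
        simp only [← mul_sum (a := Real.exp (1.099 * (0.905 * MQ i)))]
        exact mul_le_mul_of_nonneg_left key (Real.exp_pos _).le
    _ ≤ Real.exp (1.099 * (0.905 * MQ i)) * (32 * N * Real.exp (2 - 2 * MQ i - Sw z1 i0)) := by
        apply mul_le_mul_of_nonneg_left _ (Real.exp_pos _).le
        rw [sub_sub, ex, ← sub_sub]
        apply mul_le_mul_of_nonneg_right _ (Real.exp_pos _).le
        linarith [vol N j]
    _ ≤ _ := by
        have a1 : (32 : ℝ) ≤ Real.exp 31 := by have := Real.add_one_le_exp (31 : ℝ); linarith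
        have a2 : (3000000 : ℝ) ≤ i := by exact_mod_cast h2.trans hi2
        have a3 := MQ_ge i
        unfold ph2
        calc _ = N * (32 * (Real.exp (1.099 * (0.905 * MQ i)) *
              Real.exp (2 - 2 * MQ i - Sw z1 i0))) := by ring
          _ ≤ N * (Real.exp 31 * (Real.exp (1.099 * (0.905 * MQ i)) *
              Real.exp (2 - 2 * MQ i - Sw z1 i0))) :=
            mul_le_mul_of_nonneg_left (mul_le_mul_of_nonneg_right a1 (by positivity))
              (Nat.cast_nonneg _)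
          _ ≤ _ := by
            rw [mul_assoc (N : ℝ), ← Real.exp_add, ← Real.exp_add, ← Real.exp_add]
            apply mul_le_mul_of_nonneg_left _ (Nat.cast_nonneg _)
            apply Real.exp_le_exp.2
            nlinarith

lemma boxB (z1 i2 i0 n N j k : ℕ) (h2 : i2 ≤ i0) (h0 : 1 ≤ i0)
    (hz : 1000 * (2 * (z1 : ℝ) + 1300) ≤ MQ i0) (hl : i0 ≤ lev j) (hk : k ≤ lev j)
    (hL : k = 0 ∨ 2 ^ ee k ≤ N / 4 ^ j) (hn : 2 ^ j ≤ n) :
    ∑ t ∈ Ico 1 (1 + N / 4 ^ j), ∑ x ∈ Ico (2 ^ j) (2 ^ j + 2 ^ j), ∑ y ∈ Ico 0 (0 + 2 ^ (j + 2)),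
      GG z1 i2 i0 n t x y ≤ N * Real.exp (-Sw z1 i0 - 1290) * ph2 k := by
  obtain ⟨l1, l2, l3⟩ := lev_ok j n (by omega) hn
  set i := lev j with hi
  have hs := QQ_mono i0 i hl
  have hs' := QQ_mono k i hk
  set w := ww z1 i0 with hw
  have wm := ww_mem z1 i0
  let v : ℕ → ℝ := fun p => if p ∈ QQ i0 then 9 / 10 else 1
  have vm : ∀ p, w p ≤ v p ∧ v p ≤ 1 := fun p => by
    simp only [v]
    split_ifs with h
    · exact ⟨ww_in z1 i0 p h, by norm_num⟩
    · exact ⟨(wm p).2, le_rfl⟩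
  have key := triple2 (QQ i) (QQ k) (i ^ 2 + 1) (yy i) (k ^ 2 + 1) (yy k) (QQ_spec i) (MQ_le i)
    (QQ_spec k) (MQ_le k) (fun p => v p / 4) (fun p => v p / 2) (fun _ => 1 / 2) (fun p => v p / 4)
    (fun p => by have := wm p; have := vm p; constructor <;> linarith)
    (fun p hp => by have := vm p; linarith)
    (fun p => by have := wm p; have := vm p; constructor <;> linarith) (fun p => by norm_num)
    (fun p => by have := wm p; have := vm p; constructor <;> linarith) 1 (2 ^ j) 0 (N / 4 ^ j)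
    (2 ^ j) (2 ^ (j + 2))
    (by
      rcases hL with rfl | hL
      · exact Or.inl QQ_zero
      · exact Or.inr hL) l3 (l3.trans (Nat.pow_le_pow_right (by norm_num) (by omega)))
  rw [sdiff_eq_empty_iff_subset.2 hs'] at key
  simp only [prod_empty, one_mul] at key
  have hM0 := MQ_nonneg i0
  have hM1 := MQ_mono i0 i hl
  have hM2 := MQ_mono k i hk
  have pt : ∀ t x y, GG z1 i2 i0 n t x y ≤ Real.exp (Real.log 2 * (2.065 * MQ i + 0.02 * MQ i0)) *
      ∏ p ∈ QQ i, wg (fun p => v p / 4) (fun p => v p / 2) (fun _ => 1 / 2) (fun p => v p / 4)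
        p t x y := by
    intro t x y
    have c0 : ∀ p, 0 ≤ wg (fun p => v p / 4) (fun p => v p / 2) (fun _ => 1 / 2) (fun p => v p / 4)
        p t x y := by
      intro p; have := wm p; have := vm p; simp only [wg]; split_ifs <;> linarith
    unfold GG
    split_ifs with hg
    · have g1 := hg.1 i (h2.trans hl) l1 l2
      have g2 := hg.2 i hl l1
      unfold Ta at g1
      rw [if_neg (not_lt.2 hl)] at g1
      have d2 : ∏ p ∈ QQ i, ((if p ∣ t * x * (x + y) then w p else 1) *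
          Real.exp (-(Real.log 2 * (ind p (t * x * (x + y)) + ind p (t * y * (x + y)))))) ≤
          ∏ p ∈ QQ i, wg (fun p => v p / 4) (fun p => v p / 2) (fun _ => 1 / 2) (fun p => v p / 4)
            p t x y := by
        refine prod_le_prod (fun p _ => mul_nonneg (by have := wm p; split_ifs <;> linarith)
          (Real.exp_pos _).le) fun p hp => ?_
        have a1 := wm p
        have a2 := vm p
        refine (mul_le_mul_of_nonneg_left (wt_ge p t x y)
          (by split_ifs <;> linarith)).trans ?_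
        unfold wt wg
        by_cases h1 : p ∣ t
        · rw [if_pos h1, if_pos h1, if_pos ((h1.mul_right _).mul_right _)]; linarith
        rw [if_neg h1, if_neg h1]
        by_cases h2 : p ∣ x
        · rw [if_pos h2, if_pos h2, if_pos ((h2.mul_left _).mul_right _)]; linarith
        rw [if_neg h2, if_neg h2]
        by_cases h3 : p ∣ y
        · rw [if_pos h3, if_pos h3]; split_ifs <;> linarith
        rw [if_neg h3, if_neg h3]
        by_cases h4 : p ∣ x + y
        · rw [if_pos h4, if_pos h4, if_pos (h4.mul_left _)]; linarith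
        rw [if_neg h4, if_neg h4]
        split_ifs <;> linarith
      rw [prod_mul_distrib, ← Real.exp_sum, sum_neg_distrib, ← mul_sum, sum_add_distrib] at d2
      have d1 : WW (QQ i0) w (t * x * (x + y)) =
          ∏ p ∈ QQ i, (if p ∣ t * x * (x + y) then w p else 1) :=
        prod_subset hs fun p _ hp => by rw [hw, ww_out z1 i0 p hp]; simp
      rw [← d1] at d2
      refine le_trans ?_ (mul_le_mul_of_nonneg_left d2 (Real.exp_pos _).le)
      rw [mul_left_comm, ← Real.exp_add]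
      refine le_mul_of_one_le_right (WW_mem _ _ wm _).1 (Real.one_le_exp ?_)
      have := Real.log_pos (show (1 : ℝ) < 2 by norm_num)
      nlinarith
    · exact mul_nonneg (Real.exp_pos _).le (prod_nonneg fun p _ => c0 p)
  have ex1 : ∑ p ∈ QQ i, (3 - v p / 2 - 1 / 2 - v p / 4) * (1 / (p : ℝ)) =
      1.75 * MQ i + 0.075 * MQ i0 := by
    unfold MQ
    rw [← sum_sdiff hs, ← sum_sdiff hs]
    have e1 : ∑ p ∈ QQ i \ QQ i0, (3 - v p / 2 - 1 / 2 - v p / 4) * (1 / (p : ℝ)) =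
        1.75 * ∑ p ∈ QQ i \ QQ i0, (1 : ℝ) / p := by
      rw [mul_sum]
      exact sum_congr rfl fun p hp => by simp only [v, if_neg (mem_sdiff.1 hp).2]; norm_num
    have e2 : ∑ p ∈ QQ i0, (3 - v p / 2 - 1 / 2 - v p / 4) * (1 / (p : ℝ)) =
        1.825 * ∑ p ∈ QQ i0, (1 : ℝ) / p := by
      rw [mul_sum]
      exact sum_congr rfl fun p hp => by simp only [v, if_pos hp]; norm_num
    linarith
  have ex2 : 0.75 * MQ k ≤ ∑ p ∈ QQ k, (1 - v p / 4) * (1 / (p : ℝ)) := by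
    unfold MQ; rw [mul_sum]
    exact sum_le_sum fun p _ => mul_le_mul_of_nonneg_right (by linarith [(vm p).2]) (by positivity)
  calc _ ≤ _ := sum_le_sum fun t _ => sum_le_sum fun x _ => sum_le_sum fun y _ => pt t x y
    _ ≤ Real.exp (Real.log 2 * (2.065 * MQ i + 0.02 * MQ i0)) * _ := by
        simp only [← mul_sum (a := Real.exp (Real.log 2 * (2.065 * MQ i + 0.02 * MQ i0)))]
        exact mul_le_mul_of_nonneg_left key (Real.exp_pos _).le
    _ ≤ Real.exp (Real.log 2 * (2.065 * MQ i + 0.02 * MQ i0)) *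
          (32 * N * Real.exp (2 - (1.75 * MQ i + 0.075 * MQ i0) - 0.75 * MQ k)) := by
        apply mul_le_mul_of_nonneg_left _ (Real.exp_pos _).le
        rw [ex1]
        exact mul_le_mul (by linarith [vol N j]) (Real.exp_le_exp.2 (by linarith))
          (Real.exp_pos _).le (by positivity)
    _ ≤ _ := by
        have a1 : (32 : ℝ) ≤ Real.exp 31 := by have := Real.add_one_le_exp (31 : ℝ); linarith
        have a3 := MQ_ge k
        have a4 := Sw_le z1 i0
        have a5 := Real.log_two_lt_d9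
        have a6 : Real.log 2 * (2.065 * MQ i + 0.02 * MQ i0) ≤
            0.6932 * (2.065 * MQ i + 0.02 * MQ i0) :=
          mul_le_mul_of_nonneg_right (by linarith) (by linarith)
        have a7 : (0 : ℝ) ≤ z1 := Nat.cast_nonneg _
        unfold ph2
        calc _ = N * (32 * (Real.exp (Real.log 2 * (2.065 * MQ i + 0.02 * MQ i0)) *
              Real.exp (2 - (1.75 * MQ i + 0.075 * MQ i0) - 0.75 * MQ k))) := by ring
          _ ≤ N * (Real.exp 31 * (Real.exp (Real.log 2 * (2.065 * MQ i + 0.02 * MQ i0)) *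
              Real.exp (2 - (1.75 * MQ i + 0.075 * MQ i0) - 0.75 * MQ k))) :=
            mul_le_mul_of_nonneg_left (mul_le_mul_of_nonneg_right a1 (by positivity))
              (Nat.cast_nonneg _)
          _ ≤ _ := by
            rw [mul_assoc (N : ℝ), ← Real.exp_add, ← Real.exp_add, ← Real.exp_add]
            apply mul_le_mul_of_nonneg_left _ (Nat.cast_nonneg _)
            apply Real.exp_le_exp.2
            linarith

end Pool.Agent.KS6_38.Adm
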