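import Pool.Agent.KS6_38.Adm.Brun6

set_option autoImplicit false


namespace Pool.Agent.KS6_38.AdmMain

open Finset Pool.Agent.KS6_38.Adm

lemma rough (z1 i0 a s : ℕ) (hz : z1 < i0 ^ 2) (h12 : a % 12 = 2)
    (hW : WW (QQ i0) (ww z1 i0) a ≠ 0) (hs : s ∣ a) (h3 : 3 ≤ s) : z1 < s := by
  have hzz : z1 ≤ zz i0 := by
    by_contra h
    have h1 := (MQ_ge i0).trans (ms_le (zz i0))
    have h2 : i0 ^ 2 ≤ zz i0 := by exact_mod_cast h1
    omega
  obtain ⟨s', h1, h2, h4⟩ : ∃ s', s' ∣ s ∧ ¬ 2 ∣ s' ∧ s' ≠ 1 := by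
    by_cases h : 2 ∣ s
    · obtain ⟨s', rfl⟩ := h
      refine ⟨s', Dvd.intro_left 2 rfl, ?_, by omega⟩
      rintro ⟨c, rfl⟩
      obtain ⟨d, hd⟩ := hs
      have : a = 4 * (c * d) := by rw [hd]; ring
      omega
    · exact ⟨s, dvd_rfl, h, by omega⟩
  have hp := Nat.minFac_prime h4
  have hp1 := Nat.minFac_dvd s'
  set p := s'.minFac
  have hpa : p ∣ a := (hp1.trans h1).trans hs
  have p2 : p ≠ 2 := fun h => h2 (h ▸ hp1)
  have p3 : p ≠ 3 := fun h => by rw [h] at hpa; omega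
  have p4 : 4 ≤ p := by have := hp.two_le; omega
  have p5 : z1 < p := by
    by_contra h
    have hQ : p ∈ QQ i0 := (mem_pr _ _).2 ⟨hp, p4, by omega⟩
    apply hW
    refine prod_eq_zero hQ ?_
    rw [if_pos hpa]; unfold ww; rw [if_pos hQ, if_pos (by omega)]
  exact p5.trans_le (Nat.le_of_dvd (by omega) (hp1.trans h1))

open Classical in
lemma edges (z1 i2 i0 n H : ℕ) (h2 : 3000000 ≤ i2) (h20 : i2 ≤ i0) (hz1 : z1 = 2 ^ (ee i2 + 2))
    (hz : z1 < i0 ^ 2) (hz' : 1000 * (2 * (z1 : ℝ) + 1300) ≤ MQ i0) (hH : n ^ 2 = 2 * H)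
    (hbig : ∀ j, lev j < i0 → 2 ^ ee i0 * 4 ^ j ≤ n ^ 2) (E : Finset ℕ)
    (hE : ∀ a ∈ E, H < a ∧ a ≤ n ^ 2 ∧ a % 12 = 2 ∧ WW (QQ i0) (ww z1 i0) a ≠ 0 ∧
      GoodA i2 i0 n a ∧ ∃ b, 0 < b ∧ b ≤ n ^ 2 ∧ b ≠ a ∧ GoodB i0 n b ∧ a + b ∣ a * b) :
    ∑ a ∈ E, WW (QQ i0) (ww z1 i0) a ≤
      (n ^ 2 : ℕ) * Real.exp (-Sw z1 i0 - 1290) * (584 * Real.exp 1254) := by
  obtain ⟨N, hN⟩ : ∃ N, N = n ^ 2 := ⟨_, rfl⟩
  rw [← hN] at hH hbig hE ⊢
  set J0 := Nat.log 4 N with hJ0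
  set J := (range (J0 + 1)).filter fun j => ee i2 ≤ j with hJ
  let T : Finset (Σ _ : ℕ, Σ _ : ℕ, Σ _ : ℕ, ℕ) := J.sigma fun j =>
    (Ico 1 (1 + N / 4 ^ j)).sigma fun _ => (Ico (2 ^ j) (2 ^ j + 2 ^ j)).sigma fun _ =>
      Ico 0 (0 + 2 ^ (j + 2))
  let φ : (Σ _ : ℕ, Σ _ : ℕ, Σ _ : ℕ, ℕ) → ℕ := fun w => w.2.1 * w.2.2.1 * (w.2.2.1 + w.2.2.2)
  let T' := T.filter fun w => GoodA i2 i0 n (w.2.1 * w.2.2.1 * (w.2.2.1 + w.2.2.2)) ∧
    GoodB i0 n (w.2.1 * w.2.2.2 * (w.2.2.1 + w.2.2.2))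
  have W0 : ∀ a, 0 ≤ WW (QQ i0) (ww z1 i0) a := fun a => (WW_mem _ _ (ww_mem z1 i0) a).1
  rcases E.eq_empty_or_nonempty with rfl | ⟨a0, ha0⟩
  · rw [sum_empty]; positivity
  have hN0 : N ≠ 0 := by have := hE a0 ha0; omega
  have hsub : E ⊆ T'.image φ := by
    intro a ha
    obtain ⟨a1, a2, a3, a4, a5, b, b1, b2, b3, b4, c, hc⟩ := hE a ha
    obtain ⟨t, x, y, -, rfl, rfl⟩ := param c a b (by omega) (by rw [hc]; ring)
    have ht : 0 < t := Nat.pos_of_ne_zero (by rintro rfl; simp at b1)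
    have hy : 0 < y := Nat.pos_of_ne_zero (by rintro rfl; simp at b1)
    have hx : 0 < x := Nat.pos_of_ne_zero (by rintro rfl; simp at a1)
    have hxy : x ≠ y := by rintro rfl; exact b3 rfl
    have hy2 : y < 2 * x := by
      have h1 : t * (x + y) * y < t * (x + y) * (2 * x) := by
        calc t * (x + y) * y = t * y * (x + y) := by ring
          _ < 2 * (t * x * (x + y)) := by omega
          _ = _ := by ring
      exact lt_of_mul_lt_mul_left h1 (Nat.zero_le _)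
    have hs := rough z1 i0 _ (x + y) hz a3 a4 (Dvd.intro_left _ rfl) (by omega)
    have j1 : 2 ^ Nat.log 2 x ≤ x := Nat.pow_log_le_self 2 hx.ne'
    have j2 : x < 2 ^ (Nat.log 2 x + 1) := Nat.lt_pow_succ_log_self (by norm_num) x
    have j3 : ee i2 ≤ Nat.log 2 x := by
      apply Nat.le_log_of_pow_le (by norm_num)
      rw [hz1, pow_add] at hs
      omega
    set j := Nat.log 2 x
    have j4 : t * 4 ^ j ≤ N := by
      have h1 : (4 : ℕ) ^ j = 2 ^ j * 2 ^ j := by rw [← mul_pow]; norm_num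
      calc t * 4 ^ j ≤ t * (x * (x + y)) := by
            rw [h1]; exact Nat.mul_le_mul_left _ (Nat.mul_le_mul j1 (by omega))
        _ = t * x * (x + y) := by ring
        _ ≤ N := a2
    have j5 : j ≤ J0 := Nat.le_log_of_pow_le (by norm_num)
      (le_trans (Nat.le_mul_of_pos_left _ ht) j4)
    have j6 : t ≤ N / 4 ^ j := (Nat.le_div_iff_mul_le (by positivity)).2 j4
    refine mem_image.2 ⟨⟨j, t, x, y⟩, mem_filter.2 ⟨?_, a5, b4⟩, rfl⟩
    refine mem_sigma.2 ⟨mem_filter.2 ⟨mem_range.2 (by simp only; omega), j3⟩, mem_sigma.2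
      ⟨mem_Ico.2 ⟨ht, by simp only; omega⟩, mem_sigma.2 ⟨mem_Ico.2 ⟨j1, ?_⟩, mem_Ico.2 ⟨by simp, ?_⟩⟩⟩⟩
    · rw [pow_succ] at j2; simp only; omega
    · rw [pow_succ] at j2; simp only [pow_add]; omega
  have h1 : ∑ a ∈ E, WW (QQ i0) (ww z1 i0) a ≤ ∑ w ∈ T', WW (QQ i0) (ww z1 i0) (φ w) :=
    (sum_le_sum_of_subset_of_nonneg hsub fun a _ _ => W0 a).trans
      (sum_image_le_of_nonneg fun a _ => W0 a)
  have h3 : ∑ w ∈ T', WW (QQ i0) (ww z1 i0) (φ w) = ∑ j ∈ J, ∑ t ∈ Ico 1 (1 + N / 4 ^ j),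
      ∑ x ∈ Ico (2 ^ j) (2 ^ j + 2 ^ j), ∑ y ∈ Ico 0 (0 + 2 ^ (j + 2)), GG z1 i2 i0 n t x y := by
    simp only [T', T]
    rw [sum_filter, sum_sigma]
    refine sum_congr rfl fun j _ => ?_
    rw [sum_sigma]
    refine sum_congr rfl fun t _ => ?_
    rw [sum_sigma]
    rfl
  have hJ4 : 4 ^ J0 ≤ N := Nat.pow_log_le_self 4 hN0
  have h4 : ∀ j ∈ J, ∑ t ∈ Ico 1 (1 + N / 4 ^ j),
      ∑ x ∈ Ico (2 ^ j) (2 ^ j + 2 ^ j), ∑ y ∈ Ico 0 (0 + 2 ^ (j + 2)), GG z1 i2 i0 n t x y ≤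
      N * Real.exp (-Sw z1 i0 - 1290) * (ph2 (lev j) + ph2 (lev (J0 - j))) := by
    intro j hj
    obtain ⟨j1, j2⟩ := mem_filter.1 hj
    have j3 : j ≤ J0 := Nat.lt_succ_iff.1 (mem_range.1 j1)
    have j4 : 2 ^ j ≤ n := by
      have h5 : (2 ^ j) ^ 2 ≤ n ^ 2 := by
        rw [← pow_mul, mul_comm, pow_mul, ← hN]
        exact (Nat.pow_le_pow_right (by norm_num) j3).trans hJ4
      exact (Nat.pow_le_pow_iff_left two_ne_zero).1 h5
    have p1 := ph2_pos (lev j)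
    have p2 := ph2_pos (lev (J0 - j))
    by_cases hl : lev j < i0
    · refine (boxA z1 i2 i0 n N j h2 j2 hl
        ((Nat.le_div_iff_mul_le (by positivity)).2 (hbig j hl)) j4).trans ?_
      exact mul_le_mul_of_nonneg_left (by linarith) (by positivity)
    · have b1 : 2 ^ min j (J0 - j) ≤ N / 4 ^ j := by
        rw [Nat.le_div_iff_mul_le (by positivity)]
        calc 2 ^ min j (J0 - j) * 4 ^ j ≤ 4 ^ (J0 - j) * 4 ^ j :=
              Nat.mul_le_mul_right _ ((Nat.pow_le_pow_right (by norm_num) (min_le_right _ _)).trans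
                (Nat.pow_le_pow_left (by norm_num) _))
          _ = 4 ^ J0 := by rw [← pow_add, Nat.sub_add_cancel j3]
          _ ≤ N := hJ4
      refine (boxB z1 i2 i0 n N j (lev (min j (J0 - j))) h20 (by omega) hz' (not_lt.1 hl)
        (lev_mono _ _ (min_le_left _ _)) ?_ j4).trans ?_
      · by_cases h0 : lev (min j (J0 - j)) = 0
        · exact Or.inl h0
        · exact Or.inr ((Nat.pow_le_pow_right (by norm_num) (ee_lev _ h0)).trans b1)
      · apply mul_le_mul_of_nonneg_left _ (by positivity)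
        rcases min_choice j (J0 - j) with h | h <;> rw [h] <;> linarith
  rw [h3] at h1
  refine h1.trans ((sum_le_sum h4).trans ?_)
  rw [← mul_sum]
  apply mul_le_mul_of_nonneg_left _ (by positivity)
  refine (sum_le_sum_of_subset_of_nonneg (filter_subset _ _) fun j _ _ =>
    (add_pos (ph2_pos _) (ph2_pos _)).le).trans ?_
  rw [sum_add_distrib, sum_flip (fun j => ph2 (lev j))]
  linarith [sum_lev2 (J0 + 1)]

open Classical in
lemma main (z1 i2 i0 n H : ℕ) (h2 : 3000000 ≤ i2) (h20 : i2 ≤ i0) (hz1 : z1 = 2 ^ (ee i2 + 2))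
    (hz : z1 < i0 ^ 2) (hz' : 1000 * (2 * (z1 : ℝ) + 1300) ≤ MQ i0) (hH : n ^ 2 = 2 * H)
    (hbig : ∀ j, lev j < i0 → 2 ^ ee i0 * 4 ^ j ≤ n ^ 2) (hn : 2 ≤ n)
    (hn1 : 48 * (∏ p ∈ QQ i0, (p : ℝ)) * n ≤ H / 12 * Real.exp (-Sw z1 i0 - 1))
    (hn2 : 12 * (∏ p ∈ QQ i0, (p : ℝ)) ≤ H / 12 * Real.exp (-(0.19 * MQ i0))) :
    ∃ A : Finset ℕ, A ⊆ Finset.Icc 1 (n ^ 2) ∧ (∀ a ∈ A, ∀ b ∈ A, a ≠ b → ¬ (a + b ∣ a * b)) ∧
      (H : ℝ) + H / 192 * Real.exp (-(0.01 * MQ i0) - 2 * z1 - 2) ≤ A.card := by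
  set w := ww z1 i0 with hw
  have wm := ww_mem z1 i0
  set Zm : ℝ := H / 12 * ∏ p ∈ QQ i0, rho w p with hZm
  set D : ℝ := ∏ p ∈ QQ i0, (p : ℝ) with hD
  have hD0 : 0 ≤ D := by positivity
  have hH0 : (0 : ℝ) < H := by
    have : 0 < H := by nlinarith
    exact_mod_cast this
  have hn' : (2 : ℝ) ≤ n := by exact_mod_cast hn
  have hZ : H / 12 * Real.exp (-Sw z1 i0 - 1) ≤ Zm :=
    mul_le_mul_of_nonneg_left (rho_prod z1 i0) (by positivity)
  set F : ℕ → ℝ := fun a => chi a * WW (QQ i0) w a with hF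
  have F0 : ∀ a, 0 ≤ F a := fun a => mul_nonneg (chi_mem a).1 (WW_mem _ _ wm a).1
  set I := Ico (H + 1) (H + 1 + H) with hI
  have t0 : Zm - Zm / 8 ≤ ∑ a ∈ I, F a := by
    have := avgT (QQ i0) ∅ (QQ_pr i0) (by simp) w wm (ww_out z1 i0) (H + 1) H
    simp only [prod_empty, mul_one] at this
    have h3 := (abs_le.1 this).1
    nlinarith
  have t1 := badA z1 i2 i0 n (H + 1) H h2 Zm rfl (hn1.trans hZ)
  let P1 : ℕ → Prop := fun a => a % 12 = 2 ∧ WW (QQ i0) w a ≠ 0 ∧ GoodA i2 i0 n a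
  let P2 : ℕ → Prop := fun a => ∃ b, 0 < b ∧ b ≤ n ^ 2 ∧ b ≠ a ∧ GoodB i0 n b ∧ a + b ∣ a * b
  obtain ⟨E, hE⟩ : ∃ E : Finset ℕ, ∀ a, a ∈ E ↔ a ∈ I ∧ P1 a ∧ P2 a := ⟨_, fun a => mem_filter⟩
  obtain ⟨S, hS⟩ : ∃ S : Finset ℕ, ∀ a, a ∈ S ↔ a ∈ I ∧ P1 a ∧ ¬ P2 a := ⟨_, fun a => mem_filter⟩
  have t2 : ∑ a ∈ E, F a ≤ Zm / 4 := by
    have h3 := edges z1 i2 i0 n H h2 h20 hz1 hz hz' hH hbig E (fun a ha => by
      obtain ⟨a1, a2, a3⟩ := (hE a).1 ha
      have := mem_Ico.1 a1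
      exact ⟨by omega, by omega, a2.1, a2.2.1, a2.2.2, a3⟩)
    have h4 : ∑ a ∈ E, F a ≤ ∑ a ∈ E, WW (QQ i0) w a := sum_le_sum fun a _ =>
      mul_le_of_le_one_left (WW_mem _ _ wm a).1 (chi_mem a).2
    refine h4.trans (h3.trans (le_trans ?_ (div_le_div_of_nonneg_right hZ (by norm_num))))
    rw [hH]
    have h5 : Real.exp (-Sw z1 i0 - 1) = Real.exp (-Sw z1 i0 - 1290) * Real.exp 1254 * Real.exp 35 := by
      rw [← Real.exp_add, ← Real.exp_add]; ring_nf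
    have h6 : (56064 : ℝ) ≤ Real.exp 35 := by
      have he : (2 : ℝ) ≤ Real.exp 1 := by have := Real.add_one_le_exp (1 : ℝ); linarith
      calc (56064 : ℝ) ≤ 2 ^ 35 := by norm_num
        _ ≤ Real.exp 1 ^ 35 := pow_le_pow_left₀ (by norm_num) he 35
        _ = _ := by rw [← Real.exp_nat_mul]; norm_num
    rw [h5]
    push_cast
    have h7 : 0 ≤ H * (Real.exp (-Sw z1 i0 - 1290) * Real.exp 1254) := by positivity
    nlinarith
  have t3 : ∑ a ∈ I, F a ≤ ∑ a ∈ I.filter (fun a => ¬ GoodA i2 i0 n a), F a + ∑ a ∈ E, F a +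
      ∑ a ∈ S, F a := by
    have e1 : ∑ a ∈ E, F a = ∑ a ∈ I, if a ∈ E then F a else 0 := by
      rw [sum_ite_mem, inter_eq_right.2 fun a ha => ((hE a).1 ha).1]
    have e2 : ∑ a ∈ S, F a = ∑ a ∈ I, if a ∈ S then F a else 0 := by
      rw [sum_ite_mem, inter_eq_right.2 fun a ha => ((hS a).1 ha).1]
    rw [e1, e2, sum_filter, ← sum_add_distrib, ← sum_add_distrib]
    refine sum_le_sum fun a ha => ?_
    have f0 := F0 a
    by_cases c1 : P1 a
    · by_cases c2 : P2 a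
      · rw [if_pos ((hE a).2 ⟨ha, c1, c2⟩)]; split_ifs <;> linarith
      · rw [if_pos ((hS a).2 ⟨ha, c1, c2⟩)]; split_ifs <;> linarith
    · by_cases c3 : GoodA i2 i0 n a
      · have : F a = 0 := by
          simp only [hF]
          by_cases c4 : a % 12 = 2
          · have : WW (QQ i0) w a = 0 := by
              by_contra c5; exact c1 ⟨c4, c5, c3⟩
            rw [this, mul_zero]
          · unfold chi; rw [if_neg c4, zero_mul]
        rw [this]; simp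
      · rw [if_pos c3]; split_ifs <;> linarith
  have t4 : Zm / 2 ≤ ∑ a ∈ S, F a := by linarith
  have t5 : ∑ a ∈ S, F a ^ 2 ≤ H / 6 * Real.exp (-(0.19 * MQ i0)) := by
    have h3 := avg (QQ i0) (QQ_pr i0) (fun p => w p ^ 2) (fun _ => 1)
      (fun p => by have := wm p; constructor <;> nlinarith) (fun _ => by norm_num) (H + 1) H
    have h4 : ∑ a ∈ S, F a ^ 2 ≤ ∑ a ∈ I, F a ^ 2 :=
      sum_le_sum_of_subset_of_nonneg (fun a ha => ((hS a).1 ha).1) fun _ _ _ => by positivity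
    have h5 : ∀ a, F a ^ 2 = chi a * ∏ p ∈ QQ i0, (if p ∣ a then w p ^ 2 else 1) := by
      intro a
      simp only [hF, WW]
      rw [mul_pow, ← prod_pow]
      congr 1
      · unfold chi; split_ifs <;> norm_num
      · exact prod_congr rfl fun p _ => by split_ifs <;> norm_num
    have h6 : ∏ p ∈ QQ i0, (1 - (1 - w p ^ 2) / p) ≤ Real.exp (-(0.19 * MQ i0)) := by
      unfold MQ
      rw [mul_sum, ← sum_neg_distrib, Real.exp_sum]
      refine prod_le_prod (fun p hp => ?_) fun p hp => ?_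
      · exact le_trans (by norm_num) (rho_ge (fun p => w p ^ 2)
          (fun p => by have := wm p; constructor <;> nlinarith) p (QQ_pr i0 p hp).2).1
      · refine le_trans ?_ (Real.add_one_le_exp _)
        have a1 := ww_in z1 i0 p hp
        have a2 := wm p
        have a3 : (0 : ℝ) ≤ 1 / p := by positivity
        have a4 : w p ^ 2 ≤ 0.81 := by nlinarith
        rw [div_eq_mul_one_div (1 - w p ^ 2)]
        nlinarith
    simp only [h5] at h4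
    have h7 := (abs_le.1 h3).2
    have h8 := mul_le_mul_of_nonneg_left h6 (show (0 : ℝ) ≤ H / 12 by positivity)
    simp only [h5]
    linarith
  have t6 : H / 96 * Real.exp (-(0.01 * MQ i0) - 2 * z1 - 2) ≤ S.card := by
    have h3 := sq_sum_le_card_mul_sum_sq (s := S) (f := F)
    have h4 : H / 24 * Real.exp (-(0.1 * MQ i0) - z1 - 1) ≤ ∑ a ∈ S, F a := by
      have : Real.exp (-(0.1 * MQ i0) - z1 - 1) ≤ Real.exp (-Sw z1 i0 - 1) :=
        Real.exp_le_exp.2 (by linarith [Sw_le z1 i0])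
      nlinarith
    have h5 := pow_le_pow_left₀ (by positivity) h4 2
    have h6 := mul_le_mul_of_nonneg_left t5 (Nat.cast_nonneg (α := ℝ) S.card)
    have h7 : (H / 24 * Real.exp (-(0.1 * MQ i0) - z1 - 1)) ^ 2 =
        H / 96 * Real.exp (-(0.01 * MQ i0) - 2 * z1 - 2) * (H / 6 * Real.exp (-(0.19 * MQ i0))) := by
      have : Real.exp (-(0.1 * MQ i0) - z1 - 1) ^ 2 =
          Real.exp (-(0.01 * MQ i0) - 2 * z1 - 2) * Real.exp (-(0.19 * MQ i0)) := by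
        rw [sq, ← Real.exp_add, ← Real.exp_add]; ring_nf
      rw [mul_pow, this]; ring
    exact le_of_mul_le_mul_right (by linarith)
      (show 0 < H / 6 * Real.exp (-(0.19 * MQ i0)) by positivity)
  set R := (Ioc 0 (n ^ 2)).filter fun b => ¬ GoodB i0 n b with hR
  have t7 : (R.card : ℝ) ≤ H / 192 * Real.exp (-(0.01 * MQ i0) - 2 * z1 - 2) := by
    refine (badB i0 n (n ^ 2) (by omega)).trans ?_
    rw [hH]
    have h5 : Real.exp (-(0.0114 * MQ i0)) * Real.exp 767 ≤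
        Real.exp (-(0.01 * MQ i0) - 2 * z1 - 2) := by
      rw [← Real.exp_add]
      apply Real.exp_le_exp.2
      have : (0 : ℝ) ≤ z1 := Nat.cast_nonneg _
      linarith
    have h6 : (768 : ℝ) ≤ Real.exp 767 := by have := Real.add_one_le_exp (767 : ℝ); linarith
    have h7 := mul_le_mul_of_nonneg_left h6 (Real.exp_pos (-(0.0114 * MQ i0))).le
    push_cast
    nlinarith
  set O := (range H).image fun m => 2 * m + 1 with hO
  have hOc : O.card = H := by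
    rw [hO, card_image_of_injective _ (fun a b h => by simpa using h), card_range]
  have hOm : ∀ a ∈ O, a % 2 = 1 ∧ a ≤ n ^ 2 := by
    intro a ha
    obtain ⟨m, hm, rfl⟩ := mem_image.1 ha
    have := mem_range.1 hm
    omega
  have hSm : ∀ a ∈ S, a % 12 = 2 ∧ a ≤ n ^ 2 := by
    intro a ha
    obtain ⟨a1, a2, -⟩ := (hS a).1 ha
    have := mem_Ico.1 a1
    exact ⟨a2.1, by omega⟩
  have hA : ∀ a ∈ (O ∪ S) \ R, 0 < a ∧ a ≤ n ^ 2 ∧ GoodB i0 n a := by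
    intro a ha
    obtain ⟨a1, a2⟩ := mem_sdiff.1 ha
    have a3 : 0 < a ∧ a ≤ n ^ 2 := by
      rcases mem_union.1 a1 with h | h
      · have := hOm a h; omega
      · have := hSm a h; omega
    refine ⟨a3.1, a3.2, ?_⟩
    by_contra a4
    exact a2 (mem_filter.2 ⟨mem_Ioc.2 a3, a4⟩)
  refine ⟨(O ∪ S) \ R, fun a ha => mem_Icc.2 ⟨(hA a ha).1, (hA a ha).2.1⟩, ?_, ?_⟩
  · intro a ha b hb hab hd
    rcases mem_union.1 (mem_sdiff.1 ha).1 with h | h
    · rcases mem_union.1 (mem_sdiff.1 hb).1 with h' | h'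
      · have a1 := (hOm a h).1
        have b1 := (hOm b h').1
        have c1 : 2 ∣ a * b := Dvd.dvd.trans (by omega) hd
        rcases (Nat.prime_two.dvd_mul).1 c1 with c | c <;> omega
      · exact ((hS b).1 h').2.2 ⟨a, (hA a ha).1, (hA a ha).2.1, hab, (hA a ha).2.2, by
          rwa [add_comm, mul_comm]⟩
    · exact ((hS a).1 h).2.2 ⟨b, (hA b hb).1, (hA b hb).2.1, hab.symm, (hA b hb).2.2, hd⟩
  · have h1 := le_card_sdiff R (O ∪ S)
    have h3 : (O ∪ S).card = H + S.card := by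
      rw [card_union_of_disjoint, hOc]
      rw [disjoint_left]
      intro a h h'
      have := hOm a h; have := hSm a h'; omega
    have h4 : H + S.card ≤ ((O ∪ S) \ R).card + R.card := by omega
    have h5 : (H : ℝ) + S.card ≤ ((O ∪ S) \ R).card + R.card := by exact_mod_cast h4
    linarith

/-- There is ε>0 such that for infinitely many N some subset A of {1,…,N} with no distinct a,b having a+b dividing ab has at least (1/2+ε)N elements. -/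
theorem result :
    ∃ ε : ℝ, ε > 0 ∧ ∀ M : ℕ, ∃ N : ℕ, M ≤ N ∧
      ∃ A : Finset ℕ, A ⊆ Finset.Icc 1 N ∧
        (∀ a ∈ A, ∀ b ∈ A, a ≠ b → ¬ (a + b ∣ a * b)) ∧
        ((1 : ℝ) / 2 + ε) * (N : ℝ) ≤ (A.card : ℝ) := by
  obtain ⟨i2, h2⟩ : ∃ i2 : ℕ, 3000000 ≤ i2 := ⟨_, le_rfl⟩
  obtain ⟨z1, hz1⟩ : ∃ z1, z1 = 2 ^ (ee i2 + 2) := ⟨_, rfl⟩
  obtain ⟨i0, h20, hz, hz'⟩ : ∃ i0 : ℕ, i2 ≤ i0 ∧ z1 < i0 ^ 2 ∧
      1000 * (2 * (z1 : ℝ) + 1300) ≤ MQ i0 := by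
    refine ⟨i2 + 1000 * (2 * z1 + 1300), by omega, ?_, le_trans ?_ (MQ_ge _)⟩
    · exact lt_of_lt_of_le (by omega) (Nat.le_self_pow two_ne_zero _)
    · have : 1000 * (2 * z1 + 1300) ≤ (i2 + 1000 * (2 * z1 + 1300)) ^ 2 :=
        le_trans (Nat.le_add_left _ _) (Nat.le_self_pow two_ne_zero _)
      exact_mod_cast this
  refine ⟨1 / 384 * Real.exp (-(0.01 * MQ i0) - 2 * z1 - 2), by positivity, fun M => ?_⟩
  set D : ℝ := ∏ p ∈ QQ i0, (p : ℝ) with hD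
  have hD0 : 0 ≤ D := by positivity
  obtain ⟨m, m1, m2, m3, m4, m5⟩ : ∃ m : ℕ, 1 ≤ m ∧ M ≤ m ∧
      2 ^ ee i0 * 4 ^ (range (i0 + 1)).sup ee ≤ m ∧
      576 * D / Real.exp (-Sw z1 i0 - 1) ≤ m ∧ 72 * D / Real.exp (-(0.19 * MQ i0)) ≤ m := by
    refine ⟨1 + M + 2 ^ ee i0 * 4 ^ (range (i0 + 1)).sup ee +
      ⌈576 * D / Real.exp (-Sw z1 i0 - 1)⌉₊ + ⌈72 * D / Real.exp (-(0.19 * MQ i0))⌉₊,
      by omega, by omega, by omega, (Nat.le_ceil _).trans (Nat.cast_le.2 (by omega)),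
      (Nat.le_ceil _).trans (Nat.cast_le.2 (by omega))⟩
  have hm : (1 : ℝ) ≤ m := by exact_mod_cast m1
  have hmm : m ≤ (2 * m) ^ 2 := by nlinarith
  rw [div_le_iff₀ (Real.exp_pos _)] at m4 m5
  obtain ⟨A, a1, a2, a3⟩ := main z1 i2 i0 (2 * m) (2 * m ^ 2) h2 h20 hz1 hz hz' (by ring)
    (fun j hj => by
      refine le_trans (Nat.mul_le_mul_left _ (Nat.pow_le_pow_right (by norm_num) ?_)) (m3.trans hmm)
      exact (lt_ee_lev j).le.trans (le_sup (f := ee) (mem_range.2 (by omega))))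
    (by omega)
    (by
      push_cast
      have := mul_le_mul_of_nonneg_left m4 (show (0 : ℝ) ≤ m / 6 by positivity)
      nlinarith)
    (by
      push_cast
      have h1 := Real.exp_pos (-(0.19 * MQ i0))
      have h3 : (m : ℝ) * Real.exp (-(0.19 * MQ i0)) ≤ m ^ 2 * Real.exp (-(0.19 * MQ i0)) :=
        mul_le_mul_of_nonneg_right (by nlinarith) h1.le
      nlinarith)
  refine ⟨(2 * m) ^ 2, m2.trans hmm, A, a1, a2, le_trans (le_of_eq ?_) a3⟩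
  push_cast; ring

end Pool.Agent.KS6_38.AdmMain
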